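import Pool.Agent.N209.MT.ExistDefs

/-!
# Definitions for the existence criterion on generators
-/

set_option autoImplicit false

open CategoryTheory Limits MonoidalCategory Pretriangulated Triangulated

namespace Pool.Agent.N209.MT

open Pool.Agent.Y116.MT

universe v u w

section

variable {C : Type u} [Category.{v} C] [Preadditive C] [HasZeroObject C] [HasShift C ℤ]
  [∀ n : ℤ, (shiftFunctor C n).Additive] [Pretriangulated C] [MonoidalCategory C]
  [SymmetricCategory C] [TensorTriangulated C]

/-- A generating tensor class of objects in degree zero: a class of objects whose realisations are
all concentrated in degree zero, which contains the unit and the tensor product of any two of its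
members, and which generates `C` as a triangulated category, with direct summands. -/
structure IsGeneratingClass {Λ : Type*} {E : Λ → Type w} [∀ l, Field (E l)]
    (R : ∀ l, Realisation C (E l)) (G : ObjectProperty C) : Prop where
  degree : G ≤ DegreeZero R
  unit : G (𝟙_ C)
  tensor (M N : C) : G M → G N → G (M ⊗ N)
  generates : G.IsClassicalTriangulatedGenerator

/-- The realisation `R` is faithful on the morphisms of degree `n ≤ 0` between objects of the
class `G`. If the objects of `G` are in degree zero then the realisation of a morphism of degree
`n < 0` is always zero, so that the condition says that there are no non-zero morphisms of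
degree `n < 0`, and that `R` is injective on the morphisms of degree zero. -/
def FaithfulOn {E : Type w} [Field E] (R : Realisation C E) (G : ObjectProperty C) : Prop :=
  ∀ M N : C, G M → G N → ∀ n : ℤ, n ≤ 0 → ∀ f : M ⟶ N⟦n⟧, R.H.map f = 0 → f = 0

end

end Pool.Agent.N209.MT
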