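import Pool.Agent.N209.MT.Emb3
import Pool.Agent.N209.MT.GenDefs
import Pool.Agent.V1178.MT.Main

/-!
# The existence criterion on generators
-/

set_option autoImplicit false
set_option linter.unusedSectionVars false
set_option linter.unusedSimpArgs false
set_option backward.isDefEq.respectTransparency false
set_option backward.defeqAttrib.useBackward true

open CategoryTheory Limits MonoidalCategory Pretriangulated Triangulated ObjectProperty

namespace Pool.Agent.N209.MT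

open Pool.Agent.Y116.MT Pool.Agent.V1178.MT

universe w v u v' u'

section

variable {C : Type u} [Category.{v} C] [Preadditive C] [HasZeroObject C] [HasShift C ℤ]
  [∀ n : ℤ, (shiftFunctor C n).Additive] [Pretriangulated C] [MonoidalCategory C]
  [SymmetricCategory C] [TensorTriangulated C] [MonoidalPreadditive C] [RightRigidCategory C]
  {E : Type w} [Field E] {R : Realisation C E}

/-- The objects `N ⊗ Mᘁ`. -/
def HomObj (G : ObjectProperty C) : ObjectProperty C := fun Z =>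
  ∃ M N : C, G M ∧ G N ∧ Nonempty (Z ≅ N ⊗ Mᘁ)

/-- The class of the objects `N ⊗ Mᘁ`. -/
theorem fc_homObj {G : ObjectProperty C} (hdeg : ∀ X, G X → R.Deg X 0) (hunit : G (𝟙_ C))
    (htensor : ∀ M N : C, G M → G N → G (M ⊗ N)) (hf : FaithfulOn R G) : FC R (HomObj G) where
  iso := ⟨by
    rintro X Y e ⟨M, N, hM, hN, ⟨i⟩⟩
    exact ⟨M, N, hM, hN, ⟨e.symm ≪≫ i⟩⟩⟩
  deg := by
    rintro X ⟨M, N, hM, hN, ⟨i⟩⟩
    have h1 : R.Deg (Mᘁ : C) 0 := deg_dual (G := M) (hdeg _ hM)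
    have h2 : R.Deg (N ⊗ Mᘁ) 0 := by simpa using (hdeg _ hN).tensor h1
    exact h2.iso i.symm
  unit := ⟨𝟙_ C, 𝟙_ C, hunit, hunit,
    ⟨rightDualIso (X := 𝟙_ C) exactPairingUnit
      (RightRigidCategory.rightDual (𝟙_ C)).exact ≪≫ (λ_ _).symm⟩⟩
  tensor := by
    rintro X Y ⟨M, N, hM, hN, ⟨i⟩⟩ ⟨M', N', hM', hN', ⟨i'⟩⟩
    let e : (N ⊗ (Mᘁ : C)) ⊗ (N' ⊗ (M'ᘁ : C)) ≅ (N ⊗ N') ⊗ ((Mᘁ : C) ⊗ (M'ᘁ : C)) :=
      ⟨tensorμ _ _ _ _, tensorδ _ _ _ _, tensorμ_tensorδ _ _ _ _, tensorδ_tensorμ _ _ _ _⟩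
    exact ⟨M' ⊗ M, N ⊗ N', htensor _ _ hM' hM, htensor _ _ hN hN',
      ⟨MonoidalCategory.tensorIso i i' ≪≫ e ≪≫ whiskerLeftIso _ (rightDualTensorIso M' M).symm⟩⟩
  dual := by
    rintro X ⟨M, N, hM, hN, ⟨i⟩⟩
    let p : ExactPairing (Mᘁ : C) M := BraidedCategory.exactPairing_swap M Mᘁ
    let p1 : ExactPairing (N ⊗ (Mᘁ : C)) (M ⊗ (Nᘁ : C)) := @ExactPairing.tensor _ _ _ N (Mᘁ : C) (Nᘁ : C) M _ p
    let p2 : ExactPairing X (M ⊗ (Nᘁ : C)) := @exactPairingCongrLeft _ _ _ X (N ⊗ (Mᘁ : C)) _ p1 i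
    exact ⟨N, M, hN, hM, ⟨rightDualIso HasRightDual.exact p2⟩⟩
  faithful := by
    rintro X ⟨M, N, hM, hN, ⟨i⟩⟩ n hn s hs
    let s₂ : 𝟙_ C ⟶ N⟦n⟧ ⊗ (Mᘁ : C) := s ≫ i.hom⟦n⟧' ≫ (lShift N (Mᘁ : C) n).inv
    have h2 : R.H.map s₂ = 0 := by
      simp only [s₂]
      rw [Functor.map_comp, hs, zero_comp]
    let f : M ⟶ N⟦n⟧ := (λ_ M).inv ≫ (tensorRightHomEquiv (𝟙_ C) M Mᘁ (N⟦n⟧)).symm s₂
    have h3 : f = 0 := by
      apply hf M N hM hN n hn
      simp only [f, tensorRightHomEquiv, Equiv.coe_fn_symm_mk]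
      rw [Functor.map_comp, Functor.map_comp, map_whisker_zero deg_unit s₂ h2, zero_comp,
        comp_zero]
    have h4 : nm f = s₂ := by
      have h5 : (tensorRightHomEquiv (𝟙_ C) M Mᘁ (N⟦n⟧)) ((λ_ M).hom ≫ f) = s₂ := by
        simp only [f, Iso.hom_inv_id_assoc]
        exact Equiv.apply_symm_apply _ _
      rw [← h5]
      simp [tensorRightHomEquiv, nm, unitors_equal]
    have h5 : s₂ = 0 := by
      rw [← h4, h3, nm]
      have h6 : (0 : M ⟶ N⟦n⟧) ▷ (Mᘁ : C) = 0 := (tensorRight _).map_zero _ _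
      rw [h6, comp_zero]
    rw [← cancel_mono (i.hom⟦n⟧' ≫ (lShift N (Mᘁ : C) n).inv), zero_comp]
    exact h5

variable [IsIdempotentComplete C] [IsTriangulated C] {P : ObjectProperty C}

/-- The t-structure attached to an admissible tensor class of objects in degree zero is
motivic. -/
theorem motivic_of_adm' (hP : Adm P) (hg : P.IsClassicalTriangulatedGenerator)
    (hdeg : ∀ X, P X → R.Deg X 0) (hPP : ∀ X Y, P X → P Y → P (X ⊗ Y)) :
    IsMotivic (hP.tStructure hg) (fun _ : Unit => R) := by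
  have hv : ∀ (S : ℤ → Prop) (X : C), cls P S X → ∀ i : ℤ, ¬ S i →
      IsZero (R.H.obj (X⟦i⟧)) := by
    rintro S X ⟨Y, hY, ⟨r⟩⟩ i hi
    refine isZero_retract' r.i r.r r.retract ?_
    refine vanish_ext' (fun i => ¬ S i) ?_ Y hY i hi
    rintro X ⟨n, hn, hX⟩ i hi
    have hni : n ≠ i := fun h => hi (h ▸ hn)
    exact (hdeg _ hX (i - n) (by omega)).of_iso
      (R.H.mapIso ((shiftFunctorAdd' C n (i - n) i (by omega)).app X))
  refine ⟨?_, ?_, ?_, ?_, ?_, ?_⟩
  · intro X hX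
    obtain ⟨m, hm1, hm2⟩ := hP.bounded hg X
    rw [IsZero.iff_id_eq_zero]
    exact hP.cls_hom_zero (fun a b (ha : a ≤ -m - 1) (hb : -m ≤ b) => by omega)
      (hX (-m - 1)) hm2 _
  · intro X hX
    obtain ⟨m, hm1, hm2⟩ := hP.bounded hg X
    rw [IsZero.iff_id_eq_zero]
    exact hP.cls_hom_zero (fun a b (ha : a ≤ m) (hb : m + 1 ≤ b) => by omega)
      hm1 (hX (m + 1)) _
  · intro X Y hX hY
    exact hP.cls_tensor hPP (fun a b (ha : a ≤ 0) (hb : b ≤ 0) => by omega) hX hY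
  · intro X Y hX hY
    exact hP.cls_tensor hPP (fun a b (ha : 0 ≤ a) (hb : 0 ≤ b) => by omega) hX hY
  · intro _ X hX i hi
    exact hv _ X hX i (by omega)
  · intro _ X hX i hi
    exact hv _ X hX i (by omega)

variable {T : Type u'} [Category.{v'} T] [Preadditive T] [HasZeroObject T] [HasShift T ℤ]
  [∀ n : ℤ, (shiftFunctor T n).Additive] [Pretriangulated T] [IsTriangulated T]
  [MonoidalCategory T] [SymmetricCategory T] [TensorTriangulated T] [MonoidalPreadditive T]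
  [HasCoproducts.{max u v'} T]
  (ι : C ⥤ T) [ι.Full] [ι.Faithful] [ι.Braided] [ι.CommShift ℤ] [ι.IsTriangulated]
  (hc : ∀ X : C, IsCompactObj.{max u v'} (ι.obj X))
  {Λ : Type*} {F : Λ → Type w} [∀ l, Field (F l)] {S : ∀ l, Realisation C (F l)}

omit [IsIdempotentComplete C] in
lemma generates_mono {P Q : ObjectProperty C} (h : P ≤ Q)
    (hP : P.IsClassicalTriangulatedGenerator) : Q.IsClassicalTriangulatedGenerator := by
  rw [isClassicalTriangulatedGenerator_iff, eq_top_iff]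
  rw [isClassicalTriangulatedGenerator_iff] at hP
  rw [← hP]
  exact monotone_triangEnvelope h

include hc in
/-- Existence of a motivic t-structure, from a generating class. -/
theorem exists_motivic' [Linear ℚ C]
    (hid : ∀ e : 𝟙_ C ⟶ 𝟙_ C, e ≫ e = e → e = 0 ∨ e = 𝟙 _) {G : ObjectProperty C}
    (hG : IsGeneratingClass S G) {l : Λ} (hcons : Conservative (S l))
    (hf : FaithfulOn (S l) G) : ∃ t : TStructure C, IsMotivic t S := by
  have h1 : FC (S l) (HomObj G) :=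
    fc_homObj (fun X hX => hG.degree X hX l) hG.unit hG.tensor hf
  have hnil : ∀ Z : C, (S l).Deg Z 0 → ∃ n, IsIso (nalt (𝟙_ C) Z n) := fun Z hZ =>
    nalt_of_conservative hcons hZ
  have hP : Adm (LR (S l) (HomObj G)) := h1.adm ι hc hnil
  have hl : FC (S l) (LR (S l) (HomObj G)) := h1.lr hc hnil
  have hle : G ≤ LR (S l) (HomObj G) := fun X hX =>
    LR.of_mem h1 ⟨𝟙_ C, X, hG.unit, hX, ⟨(ρ_ X).symm ≪≫ whiskerLeftIso X
      (rightDualIso (X := 𝟙_ C) exactPairingUnit (RightRigidCategory.rightDual (𝟙_ C)).exact)⟩⟩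
  have hg' := generates_mono hle hG.generates
  exact ⟨_, motivic_all hid (motivic_of_adm' hP hg' hl.deg hl.tensor)
    (generates_mono hG.degree hG.generates)⟩

include hc in
/-- Existence of a motivic t-structure, from faithfulness on all objects in degree zero. -/
theorem exists_motivic'' [Linear ℚ C]
    (hid : ∀ e : 𝟙_ C ⟶ 𝟙_ C, e ≫ e = e → e = 0 ∨ e = 𝟙 _)
    (hg : (DegreeZero S).IsClassicalTriangulatedGenerator) {l : Λ}
    (hf : FaithfulNonpos (S l)) : ∃ t : TStructure C, IsMotivic t S := by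
  have h1 : FC (S l) (fun X : C => (S l).Deg X 0) :=
    { iso := ⟨fun e hX => hX.iso e⟩
      deg := fun X hX => hX
      unit := deg_unit
      tensor := fun X Y hX hY => by simpa using hX.tensor hY
      dual := fun X hX => deg_dual (G := X) hX
      faithful := hf }
  have hnil : ∀ Z : C, (S l).Deg Z 0 → ∃ n, IsIso (nalt (𝟙_ C) Z n) := by
    intro Z hZ
    obtain ⟨n, hn⟩ := alt_deg_zero hf hZ
    refine ⟨n, ?_⟩
    rw [nalt, hn, sub_zero]
    refine ⟨((n.factorial : ℚ)⁻¹) • 𝟙 _, ?_, ?_⟩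
    · rw [Linear.comp_smul, Category.comp_id, ← Int.cast_smul_eq_zsmul ℚ, smul_smul,
        Int.cast_natCast, inv_mul_cancel₀ (by exact_mod_cast Nat.factorial_ne_zero n), one_smul]
    · rw [Linear.smul_comp, Category.id_comp, ← Int.cast_smul_eq_zsmul ℚ, smul_smul,
        Int.cast_natCast, inv_mul_cancel₀ (by exact_mod_cast Nat.factorial_ne_zero n), one_smul]
  have hP : Adm (LR (S l) (fun X : C => (S l).Deg X 0)) := h1.adm ι hc hnil
  have hl : FC (S l) (LR (S l) (fun X : C => (S l).Deg X 0)) := h1.lr hc hnil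
  have hle : DegreeZero S ≤ LR (S l) (fun X : C => (S l).Deg X 0) := fun X hX =>
    LR.of_mem h1 (hX l)
  exact ⟨_, motivic_all hid (motivic_of_adm' hP (generates_mono hle hg) hl.deg hl.tensor) hg⟩

omit [IsIdempotentComplete C] in
/-- A realisation which is t-exact for a motivic t-structure is conservative. -/
theorem conservative_of_motivic (hid : ∀ e : 𝟙_ C ⟶ 𝟙_ C, e ≫ e = e → e = 0 ∨ e = 𝟙 _)
    {t : TStructure C} (h : IsMotivic t S) (l : Λ) : Conservative (S l) := by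
  have ht : TensorCompat t := ⟨h.tensor_le, h.tensor_ge⟩
  have hu : Hrt t (𝟙_ C) := unit_hrt ht h.nondeg_le h.nondeg_ge
  have he : TExact t (S l) := ⟨h.exact_le l, h.exact_ge l⟩
  exact fun X hX => conservative ht he hu hid h.nondeg_le h.nondeg_ge hX

omit [IsIdempotentComplete C] in
/-- A realisation which is t-exact for a motivic t-structure is faithful in degrees `≤ 0` on all
classes of objects in degree zero. -/
theorem faithfulOn_of_motivic (hid : ∀ e : 𝟙_ C ⟶ 𝟙_ C, e ≫ e = e → e = 0 ∨ e = 𝟙 _)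
    {t : TStructure C} (h : IsMotivic t S) {G : ObjectProperty C} (l : Λ)
    (hG : ∀ X, G X → (S l).Deg X 0) : FaithfulOn (S l) G :=
  fun _ _ hM hN _ hn f hf => faithful_hom (faithful_of_motivic hid h l) (hG _ hM) (hG _ hN) hn f hf

end

end Pool.Agent.N209.MT
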