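import Pool.Agent.N209.MT.Word

/-!
# Dévissage for admissible classes of objects
-/

set_option autoImplicit false
set_option linter.unusedSectionVars false
set_option linter.unusedSimpArgs false
set_option backward.isDefEq.respectTransparency false
set_option backward.defeqAttrib.useBackward true

open CategoryTheory Limits Pretriangulated Triangulated

namespace Pool.Agent.N209.MT

open Pool.Agent.Y116.MT ObjectProperty

universe v u

section

variable {C : Type u} [Category.{v} C] [Preadditive C] [HasZeroObject C] [HasShift C ℤ]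
  [∀ n : ℤ, (shiftFunctor C n).Additive] [Pretriangulated C] [IsTriangulated C]

/-- The objects which are in `P`, up to a shift, with the degree in a given set. -/
def degs (P : ObjectProperty C) (S : ℤ → Prop) : ObjectProperty C :=
  fun X => ∃ n : ℤ, S n ∧ P (X⟦n⟧)

/-- A class of objects without negative extensions such that the fibre of a morphism has a
truncation. -/
structure Adm (P : ObjectProperty C) : Prop where
  iso : P.IsClosedUnderIsomorphisms
  zero : P.ContainsZero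
  neg {X Y : C} : P X → P Y → ∀ n : ℤ, n < 0 → ∀ f : X ⟶ Y⟦n⟧, f = 0
  fib {Y N M : C} {a : Y ⟶ N} {f : N ⟶ M} {b : M ⟶ Y⟦(1 : ℤ)⟧} :
    Triangle.mk a f b ∈ distTriang C → P N → P M →
    ∃ (K Q : C) (i : K ⟶ Y) (p : Y ⟶ Q) (d : Q ⟶ K⟦(1 : ℤ)⟧),
      Triangle.mk i p d ∈ distTriang C ∧ P K ∧ P (Q⟦(1 : ℤ)⟧)

variable {P : ObjectProperty C}

lemma Adm.zero_of (hP : Adm P) {X : C} (hX : IsZero X) : P X := by
  have := hP.iso
  obtain ⟨Z, hZ, hP0⟩ := hP.zero.exists_zero
  exact P.prop_of_iso (hZ.iso hX) hP0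

lemma Adm.degs_zero (hP : Adm P) {S : ℤ → Prop} {n : ℤ} (hn : S n) :
    (degs P S).ContainsZero :=
  ⟨⟨_, isZero_zero C, n, hn, hP.zero_of ((shiftFunctor C n).map_isZero (isZero_zero C))⟩⟩

lemma Adm.neg' (hP : Adm P) {X Y : C} {a b : ℤ} (hX : P (X⟦a⟧)) (hY : P (Y⟦b⟧)) (h : a < b)
    (f : X ⟶ Y) : f = 0 := by
  apply (shiftFunctor C a).map_injective
  rw [Functor.map_zero]
  have h1 : f⟦a⟧' ≫ (shiftFunctorAdd' C b (a - b) a (by omega)).hom.app Y = 0 :=
    hP.neg hX hY (a - b) (by omega) _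
  rw [← cancel_mono ((shiftFunctorAdd' C b (a - b) a (by omega)).hom.app Y), h1, zero_comp]

lemma Adm.swap (hP : Adm P) : extensionProduct (degs P (1 ≤ ·)) (degs P (· ≤ 0)) ≤
    extensionProduct (degs P (· ≤ 0)) (degs P (1 ≤ ·)) := by
  have := hP.iso
  rintro Y ⟨X, Z, f, g, k, hT, ⟨n, hn, hX⟩, ⟨m, hm, hZ⟩⟩
  by_cases h : n - m = 1
  · obtain rfl : n = 1 := by omega
    obtain rfl : m = 0 := by omega
    have hZ' : P Z := P.prop_of_iso ((shiftFunctorZero C ℤ).app Z) hZ
    obtain ⟨K, Q, i, p, d, hT', hK, hQ⟩ := hP.fib (rotD hT) hZ' hX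
    exact ⟨K, Q, i, p, d, hT', ⟨0, le_rfl, P.prop_of_iso ((shiftFunctorZero C ℤ).app K).symm hK⟩,
      ⟨1, le_rfl, hQ⟩⟩
  · have hX' : P (X⟦(1 : ℤ)⟧⟦n - 1⟧) :=
      P.prop_of_iso ((shiftFunctorAdd' C 1 (n - 1) n (by omega)).app X) hX
    have hk : k = 0 := hP.neg' hZ hX' (by omega) k
    obtain ⟨e, -, -⟩ := exists_iso_binaryBiproduct_of_distTriang _ hT hk
    have h1 : extensionProduct (degs P (· ≤ 0)) (degs P (1 ≤ ·)) (Z ⊞ X) :=
      ⟨_, _, _, _, _, binaryBiproductTriangle_distinguished Z X, ⟨m, hm, hZ⟩, ⟨n, hn, hX⟩⟩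
    exact prop_of_iso _ (biprod.braiding Z X ≪≫ e.symm) h1

/-- The class of all shifts of objects in `P`. -/
lemma Adm.degs_shift (hP : Adm P) : (degs P (fun _ => True)).IsStableUnderShift ℤ where
  isStableUnderShiftBy a := IsStableUnderShiftBy.mk <| by
    rintro X ⟨n, -, h⟩
    have := hP.iso
    exact ⟨n - a, trivial, P.prop_of_iso ((shiftFunctorAdd' C a (n - a) n (by omega)).app X) h⟩

lemma ec_shift [P.IsStableUnderShift ℤ] : (ec P).IsStableUnderShift ℤ where
  isStableUnderShiftBy a := IsStableUnderShiftBy.mk <| by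
    intro X hX
    rw [ec_iff] at hX
    obtain ⟨n, hn⟩ := hX
    rw [prop_shift_iff, ec_iff]
    exact ⟨n, (P.extensionProductIter n).le_shift a _ hn⟩

lemma Adm.dec_eq (hP : Adm P) : extensionProduct (ec (degs P (· ≤ 0))) (ec (degs P (1 ≤ ·))) =
    ec (degs P (fun _ => True)) := by
  apply le_antisymm
  · rintro Y ⟨X, Z, f, g, k, hT, hX, hZ⟩
    refine ec_ext _ hT ?_ ?_
    · exact ec_le (fun X ⟨n, _, h⟩ => le_ec _ _ ⟨n, trivial, h⟩) (fun hT => ec_ext _ hT) _ hX
    · exact ec_le (fun X ⟨n, _, h⟩ => le_ec _ _ ⟨n, trivial, h⟩) (fun hT => ec_ext _ hT) _ hZ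
  · have h0 : (ec (degs P (· ≤ 0))).ContainsZero := by
      obtain ⟨Z, hZ, h⟩ := (hP.degs_zero (S := (· ≤ 0)) (n := 0) le_rfl).exists_zero
      exact ⟨⟨Z, hZ, le_ec _ _ h⟩⟩
    have h1 : (ec (degs P (1 ≤ ·))).ContainsZero := by
      obtain ⟨Z, hZ, h⟩ := (hP.degs_zero (S := (1 ≤ ·)) (n := 1) le_rfl).exists_zero
      exact ⟨⟨Z, hZ, le_ec _ _ h⟩⟩
    refine ec_le ?_ ?_
    · rintro X ⟨n, -, h⟩
      by_cases hn : n ≤ 0
      · exact le_extensionProduct_left _ _ (le_ec _ _ ⟨n, hn, h⟩)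
      · exact le_extensionProduct_right _ _ (le_ec _ _ ⟨n, by omega, h⟩)
    · intro X Y Z f g h hT hX hZ
      exact prod_ext hP.swap _ ⟨_, _, _, _, _, hT, hX, hZ⟩

/-- The retract closure of the extension closure of the shifts is everything if `P` generates. -/
theorem Adm.retract_dec (hP : Adm P) (hg : P.IsClassicalTriangulatedGenerator) (X : C) :
    ∃ Y, extensionProduct (ec (degs P (· ≤ 0))) (ec (degs P (1 ≤ ·))) Y ∧
      Nonempty (Retract X Y) := by
  have h1 := hP.degs_shift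
  have h2 := ec_shift (P := degs P (fun _ => True))
  have h3 : (ec (degs P (fun _ => True))).retractClosure.IsTriangulated := by
    have : (ec (degs P (fun _ => True))).retractClosure.ContainsZero := by
      obtain ⟨Z, hZ, h⟩ := (hP.degs_zero (S := fun _ => True) (n := 0) trivial).exists_zero
      exact ⟨⟨Z, hZ, le_retractClosure _ _ (le_ec _ _ h)⟩⟩
    have : (ec (degs P (fun _ => True))).retractClosure.IsTriangulatedClosed₂ := by
      apply IsTriangulatedClosed₂.mk'
      intro T hT h1 h3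
      have := extensionProduct_retractClosure_retractClosure_le _ _ _ ⟨_, _, _, _, _, hT, h1, h3⟩
      refine monotone_retractClosure ?_ _ this
      rintro Y ⟨X, Z, f, g, k, hT, hX, hZ⟩
      exact ec_ext _ hT hX hZ
    constructor
  have h4 : P.triangEnvelope ≤ (ec (degs P (fun _ => True))).retractClosure := by
    rw [triangEnvelope_le_iff]
    intro X hX
    refine le_retractClosure _ _ (le_ec _ _ ⟨0, trivial, ?_⟩)
    have := hP.iso
    exact P.prop_of_iso ((shiftFunctorZero C ℤ).app X).symm hX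
  rw [hg] at h4
  obtain ⟨Y, hY, ⟨r⟩⟩ := h4 X trivial
  exact ⟨Y, hP.dec_eq ▸ hY, ⟨r⟩⟩

end

end Pool.Agent.N209.MT
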