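import Pool.Agent.Y116.MT.Tri

/-!
# Extension closures and the commutation of words
-/

set_option autoImplicit false
set_option linter.unusedSectionVars false
set_option linter.unusedSimpArgs false
set_option backward.isDefEq.respectTransparency false
set_option backward.defeqAttrib.useBackward true

open CategoryTheory Limits Pretriangulated Triangulated

namespace Pool.Agent.N209.MT

open Pool.Agent.Y116.MT ObjectProperty

universe v u

section

variable {C : Type u} [Category.{v} C] [Preadditive C] [HasZeroObject C] [HasShift C ℤ]
  [∀ n : ℤ, (shiftFunctor C n).Additive] [Pretriangulated C] [IsTriangulated C]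
  (P A B : ObjectProperty C)

/-- The extension closure. -/
def ec : ObjectProperty C := ⨆ n, P.extensionProductIter n

lemma iter_le_ec (n : ℕ) : P.extensionProductIter n ≤ ec P := le_iSup _ _

lemma le_ec : P ≤ ec P := iter_le_ec P 0

lemma ec_iff (X : C) : ec P X ↔ ∃ n, P.extensionProductIter n X := prop_iSup_iff _ X

lemma ec_ext {X Y Z : C} {f : X ⟶ Y} {g : Y ⟶ Z} {h : Z ⟶ X⟦(1 : ℤ)⟧}
    (hT : Triangle.mk f g h ∈ distTriang C) (hX : ec P X) (hZ : ec P Z) : ec P Y := by
  rw [ec_iff] at hX hZ ⊢
  obtain ⟨n, hn⟩ := hX
  obtain ⟨m, hm⟩ := hZ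
  refine ⟨(n + 1) + m, ?_⟩
  rw [P.extensionProductIter_add (n' := n) rfl]
  exact ⟨_, _, _, _, _, hT, hn, hm⟩

variable {P} in
lemma ec_le {Q : ObjectProperty C} (h : P ≤ Q)
    (hQ : ∀ {X Y Z : C} {f : X ⟶ Y} {g : Y ⟶ Z} {h : Z ⟶ X⟦(1 : ℤ)⟧},
      Triangle.mk f g h ∈ distTriang C → Q X → Q Z → Q Y) : ec P ≤ Q := by
  have h1 : ∀ n, P.extensionProductIter n ≤ Q := by
    intro n
    induction n with
    | zero => exact h
    | succ n ih =>
      rw [extensionProductIter_succ]
      rintro Y ⟨X, Z, f, g, k, hT, hX, hZ⟩
      exact hQ hT (h X hX) (ih Z hZ)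
  exact iSup_le h1

instance : (ec P).IsTriangulatedClosed₂ where
  ext₂' T hT h1 h3 := le_isoClosure _ _ (ec_ext P (f := T.mor₁) (g := T.mor₂) (h := T.mor₃) hT h1 h3)

variable {A B}

lemma swap1 (h : extensionProduct B A ≤ extensionProduct A B) (n : ℕ) :
    extensionProduct B (A.extensionProductIter n) ≤
      extensionProduct (A.extensionProductIter n) B := by
  induction n with
  | zero => exact h
  | succ n ih =>
    rw [extensionProductIter_succ, ← extensionProduct_assoc, extensionProduct_assoc A]
    refine (monotone_extensionProduct_left _ h).trans ?_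
    rw [extensionProduct_assoc]
    exact monotone_extensionProduct_right _ ih

lemma swap2 (h : extensionProduct B A ≤ extensionProduct A B) (n : ℕ) :
    extensionProduct (B.extensionProductIter n) A ≤
      extensionProduct A (B.extensionProductIter n) := by
  induction n with
  | zero => exact h
  | succ n ih =>
    rw [extensionProductIter_succ, extensionProduct_assoc, ← extensionProduct_assoc A]
    refine (monotone_extensionProduct_right _ ih).trans ?_
    rw [← extensionProduct_assoc]
    exact monotone_extensionProduct_left _ h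

/-- Words commute. -/
lemma ec_swap (h : extensionProduct B A ≤ extensionProduct A B) :
    extensionProduct (ec B) (ec A) ≤ extensionProduct (ec A) (ec B) := by
  rintro Y ⟨X, Z, f, g, k, hT, hX, hZ⟩
  rw [ec_iff] at hX hZ
  obtain ⟨n, hn⟩ := hX
  obtain ⟨m, hm⟩ := hZ
  have h1 := swap2 (swap1 h m) n Y ⟨X, Z, f, g, k, hT, hn, hm⟩
  exact (monotone_extensionProduct_left _ (iter_le_ec A m)).trans
    (monotone_extensionProduct_right _ (iter_le_ec B n)) _ h1

/-- The class of extensions of `ec B` by `ec A` is closed under extensions. -/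
lemma prod_ext (h : extensionProduct B A ≤ extensionProduct A B) :
    extensionProduct (extensionProduct (ec A) (ec B)) (extensionProduct (ec A) (ec B)) ≤
      extensionProduct (ec A) (ec B) := by
  have hA : extensionProduct (ec A) (ec A) ≤ ec A := by
    rintro Y ⟨X, Z, f, g, k, hT, hX, hZ⟩
    exact ec_ext A hT hX hZ
  have hB : extensionProduct (ec B) (ec B) ≤ ec B := by
    rintro Y ⟨X, Z, f, g, k, hT, hX, hZ⟩
    exact ec_ext B hT hX hZ
  calc extensionProduct (extensionProduct (ec A) (ec B)) (extensionProduct (ec A) (ec B))
      = extensionProduct (ec A) (extensionProduct (extensionProduct (ec B) (ec A)) (ec B)) := by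
        rw [extensionProduct_assoc, extensionProduct_assoc (ec B)]
    _ ≤ extensionProduct (ec A) (extensionProduct (extensionProduct (ec A) (ec B)) (ec B)) :=
        monotone_extensionProduct_right _ (monotone_extensionProduct_left _ (ec_swap h))
    _ = extensionProduct (extensionProduct (ec A) (ec A))
          (extensionProduct (ec B) (ec B)) := by
        rw [extensionProduct_assoc (ec A) (ec B), extensionProduct_assoc (ec A) (ec A)]
    _ ≤ extensionProduct (ec A) (extensionProduct (ec B) (ec B)) :=
        monotone_extensionProduct_left _ hA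
    _ ≤ extensionProduct (ec A) (ec B) := monotone_extensionProduct_right _ hB

end

end Pool.Agent.N209.MT
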