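import Pool.Agent.N209.MT.Gen

/-!
# Descent of motivic t-structures along a covering family of faithful functors
-/

set_option autoImplicit false
set_option linter.unusedSectionVars false
set_option linter.unusedSimpArgs false
set_option backward.isDefEq.respectTransparency false
set_option backward.defeqAttrib.useBackward true

open CategoryTheory Limits MonoidalCategory Pretriangulated Triangulated ObjectProperty

namespace Pool.Agent.N209.MT

open Pool.Agent.Y116.MT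

universe w v u v' u' v₁ u₁ v₂ u₂

section

variable {C : Type u} [Category.{v} C] [Preadditive C] [HasZeroObject C] [HasShift C ℤ]
  [∀ n : ℤ, (shiftFunctor C n).Additive] [Pretriangulated C] [MonoidalCategory C]
  [SymmetricCategory C] [TensorTriangulated C]
  {C' : Type u₁} [Category.{v₁} C'] [Preadditive C'] [HasZeroObject C'] [HasShift C' ℤ]
  [∀ n : ℤ, (shiftFunctor C' n).Additive] [Pretriangulated C'] [MonoidalCategory C']
  [SymmetricCategory C'] [TensorTriangulated C']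
  {E : Type w} [Field E] {R : Realisation C E} {R' : Realisation C' E}
  {D : Type u₂} [Category.{v₂} D] [Preadditive D] [MonoidalCategory D] [HasShift D ℤ]
  (ρ : D ⥤ C) [ρ.Additive] [ρ.Monoidal] [ρ.CommShift ℤ]
  (F : D ⥤ C') [F.Additive] [F.Monoidal] [F.CommShift ℤ]

include ρ F in
/-- If `ρ X` is in degree zero then `F X` is in degree zero. -/
lemma deg_span (e : ρ ⋙ R.H ≅ F ⋙ R'.H) {X : D} {a : ℤ} (h : R.Deg (ρ.obj X) a) :
    R'.Deg (F.obj X) a := by
  intro i hi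
  refine (h i hi).of_iso ?_
  exact R'.H.mapIso ((F.commShiftIso i).app X).symm ≪≫ (e.app (X⟦i⟧)).symm ≪≫
    R.H.mapIso ((ρ.commShiftIso i).app X)

/-- The morphism of `C` attached to `s`. -/
def spanMor {X : D} {G : C} {n : ℤ} (s : 𝟙_ D ⟶ X⟦n⟧) (i : ρ.obj X ≅ G) : 𝟙_ C ⟶ G⟦n⟧ :=
  Functor.LaxMonoidal.ε ρ ≫ ρ.map s ≫ (ρ.commShiftIso n).hom.app X ≫ i.hom⟦n⟧'

/-- If `F` is faithful and `R'` is faithful in degrees `≤ 0` then `R` is faithful on the morphisms
from `D`. -/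
lemma span_zero [F.Faithful] (e : ρ ⋙ R.H ≅ F ⋙ R'.H) (hf : FaithfulNonpos R') {X : D} {G : C}
    {n : ℤ} (hn : n ≤ 0) (s : 𝟙_ D ⟶ X⟦n⟧) (i : ρ.obj X ≅ G) (hG : R.Deg G 0)
    (hs : R.H.map (spanMor ρ s i) = 0) : spanMor ρ s i = 0 := by
  have h1 : R.H.map (ρ.map s) = 0 := by
    have h2 : ρ.map s = inv (Functor.LaxMonoidal.ε ρ) ≫ spanMor ρ s i ≫
        inv ((ρ.commShiftIso n).hom.app X ≫ i.hom⟦n⟧') := by
      simp [spanMor]
    rw [h2, Functor.map_comp, Functor.map_comp, hs, zero_comp, comp_zero]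
  have h2 : R'.H.map (F.map s) = 0 := by
    have h3 := e.hom.naturality s
    simp only [Functor.comp_map] at h3
    rw [h1, zero_comp] at h3
    rw [← cancel_epi (e.hom.app (𝟙_ D)), ← h3, comp_zero]
  have hX : R'.Deg (F.obj X) 0 := deg_span ρ F e (hG.iso i.symm)
  have h3 : Functor.LaxMonoidal.ε F ≫ F.map s ≫ (F.commShiftIso n).hom.app X = 0 := by
    apply hf _ hX n hn
    rw [Functor.map_comp, Functor.map_comp, h2, zero_comp, comp_zero]
  have h4 : F.map s = 0 := by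
    rw [← cancel_epi (Functor.LaxMonoidal.ε F), comp_zero,
      ← cancel_mono ((F.commShiftIso n).hom.app X), zero_comp, Category.assoc]
    exact h3
  have h5 : s = 0 := F.map_injective (by rw [h4, Functor.map_zero])
  rw [spanMor, h5, Functor.map_zero, zero_comp, comp_zero]

end

section

variable {C : Type u} [Category.{v} C] [Preadditive C] [HasZeroObject C] [HasShift C ℤ]
  [∀ n : ℤ, (shiftFunctor C n).Additive] [Pretriangulated C] [IsTriangulated C]
  [MonoidalCategory C] [SymmetricCategory C] [TensorTriangulated C] [MonoidalPreadditive C]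
  [RightRigidCategory C] [Linear ℚ C] [IsIdempotentComplete C]
  (hid : ∀ e : 𝟙_ C ⟶ 𝟙_ C, e ≫ e = e → e = 0 ∨ e = 𝟙 _)
  {T : Type u'} [Category.{v'} T] [Preadditive T] [HasZeroObject T] [HasShift T ℤ]
  [∀ n : ℤ, (shiftFunctor T n).Additive] [Pretriangulated T] [IsTriangulated T]
  [MonoidalCategory T] [SymmetricCategory T] [TensorTriangulated T] [MonoidalPreadditive T]
  [HasCoproducts.{max u v'} T]
  (ι : C ⥤ T) [ι.Full] [ι.Faithful] [ι.Braided] [ι.CommShift ℤ] [ι.IsTriangulated]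
  (hc : ∀ X : C, IsCompactObj.{max u v'} (ι.obj X))
  {Λ : Type*} [Nonempty Λ] {E : Λ → Type w} [∀ l, Field (E l)]
  {R : ∀ l, Realisation C (E l)}
  {I : Type*} (C' : I → Type u₁) [∀ i, Category.{v₁} (C' i)] [∀ i, Preadditive (C' i)]
  [∀ i, HasZeroObject (C' i)] [∀ i, HasShift (C' i) ℤ]
  [∀ i, ∀ n : ℤ, (shiftFunctor (C' i) n).Additive] [∀ i, Pretriangulated (C' i)]
  [∀ i, IsTriangulated (C' i)] [∀ i, MonoidalCategory (C' i)] [∀ i, SymmetricCategory (C' i)]
  [∀ i, TensorTriangulated (C' i)] [∀ i, MonoidalPreadditive (C' i)]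
  [∀ i, RightRigidCategory (C' i)]
  (hid' : ∀ i, ∀ e : 𝟙_ (C' i) ⟶ 𝟙_ (C' i), e ≫ e = e → e = 0 ∨ e = 𝟙 _)
  {R' : ∀ i l, Realisation (C' i) (E l)}
  (D : I → Type u₂) [∀ i, Category.{v₂} (D i)] [∀ i, Preadditive (D i)]
  [∀ i, MonoidalCategory (D i)] [∀ i, HasShift (D i) ℤ]
  (ρ : ∀ i, D i ⥤ C) [∀ i, (ρ i).Additive] [∀ i, (ρ i).Monoidal] [∀ i, (ρ i).CommShift ℤ]
  (F : ∀ i, D i ⥤ C' i) [∀ i, (F i).Additive] [∀ i, (F i).Monoidal] [∀ i, (F i).CommShift ℤ]
  [∀ i, (F i).Faithful]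

include ι hc hid hid' in
/-- Descent of motivic t-structures. -/
theorem exists_of_spans (hR : ∀ i l, Nonempty (ρ i ⋙ (R l).H ≅ F i ⋙ (R' i l).H))
    (hcov : ∀ (G : C) (n : ℤ) (s : 𝟙_ C ⟶ G⟦n⟧),
      ∃ (i : I) (X : D i) (s₀ : 𝟙_ (D i) ⟶ X⟦n⟧) (j : (ρ i).obj X ≅ G), s = spanMor (ρ i) s₀ j)
    (hg : (DegreeZero R).IsClassicalTriangulatedGenerator)
    (ht' : ∀ i, ∃ t' : TStructure (C' i), IsMotivic t' (R' i)) :
    ∃ t : TStructure C, IsMotivic t R := by
  obtain ⟨l⟩ := ‹Nonempty Λ›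
  refine exists_motivic'' ι hc hid hg (l := l) ?_
  intro G hG n hn s hs
  obtain ⟨i, X, s₀, j, rfl⟩ := hcov G n s
  obtain ⟨t', h'⟩ := ht' i
  exact span_zero (ρ i) (F i) (hR i l).some (faithful_of_motivic (hid' i) h' l) hn s₀ j hG hs

end

end Pool.Agent.N209.MT
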