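import Pool.Agent.N209.MT.Dev

/-!
# The t-structure attached to an admissible class of generators
-/

set_option autoImplicit false
set_option linter.unusedSectionVars false
set_option linter.unusedSimpArgs false
set_option backward.isDefEq.respectTransparency false
set_option backward.defeqAttrib.useBackward true

open CategoryTheory Limits Pretriangulated Triangulated

namespace Pool.Agent.N209.MT

open Pool.Agent.Y116.MT ObjectProperty

universe v u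

section

variable {C : Type u} [Category.{v} C] [Preadditive C] [HasZeroObject C] [HasShift C ℤ]
  [∀ n : ℤ, (shiftFunctor C n).Additive] [Pretriangulated C] [IsTriangulated C]

lemma tri_mor {X Y Z X' Y' Z' : C} {f : X ⟶ Y} {g : Y ⟶ Z} {h : Z ⟶ X⟦(1 : ℤ)⟧}
    {f' : X' ⟶ Y'} {g' : Y' ⟶ Z'} {h' : Z' ⟶ X'⟦(1 : ℤ)⟧}
    (hT : Triangle.mk f g h ∈ distTriang C) (hT' : Triangle.mk f' g' h' ∈ distTriang C)
    (a : X ⟶ X') (b : Y ⟶ Y') (comm : f ≫ b = a ≫ f') :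
    ∃ c : Z ⟶ Z', g ≫ c = b ≫ g' ∧ h ≫ a⟦(1 : ℤ)⟧' = c ≫ h' :=
  complete_distinguished_triangle_morphism _ _ hT hT' a b comm

lemma iso_of_endo {X Y Z : C} {f : X ⟶ Y} {g : Y ⟶ Z} {h : Z ⟶ X⟦(1 : ℤ)⟧}
    (hT : Triangle.mk f g h ∈ distTriang C) (c : Z ⟶ Z) (h1 : g ≫ c = g) (h2 : c ≫ h = h) :
    IsIso c := by
  let φ : Triangle.mk f g h ⟶ Triangle.mk f g h :=
    Triangle.homMk _ _ (𝟙 _) (𝟙 _) c (by simp) (by simpa using h1) (by simpa using h2.symm)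
  exact isIso₃_of_isIso₁₂ φ hT hT (by dsimp [φ]; infer_instance) (by dsimp [φ]; infer_instance)

/-- The retracts of iterated extensions of shifts of objects in `P` with degrees in `S`. -/
def cls (P : ObjectProperty C) (S : ℤ → Prop) : ObjectProperty C := (ec (degs P S)).retractClosure

instance (P : ObjectProperty C) (S : ℤ → Prop) : (cls P S).IsClosedUnderIsomorphisms := by
  unfold cls
  infer_instance

variable {P : ObjectProperty C}

lemma cls_of_retract {S : ℤ → Prop} {X Y : C} (r : Retract X Y) (h : cls P S Y) : cls P S X := by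
  obtain ⟨Z, hZ, ⟨r'⟩⟩ := h
  exact ⟨Z, hZ, ⟨r.trans r'⟩⟩

lemma cls_of_ec {S : ℤ → Prop} {X : C} (h : ec (degs P S) X) : cls P S X :=
  le_retractClosure _ _ h

lemma ec_mono {P Q : ObjectProperty C} (h : P ≤ Q) : ec P ≤ ec Q :=
  ec_le (h.trans (le_ec Q)) (fun hT => ec_ext Q hT)

lemma degs_mono {S S' : ℤ → Prop} (h : ∀ k, S k → S' k) : degs P S ≤ degs P S' :=
  fun _ ⟨n, hn, hX⟩ => ⟨n, h n hn, hX⟩

lemma cls_mono {S S' : ℤ → Prop} (h : ∀ k, S k → S' k) : cls P S ≤ cls P S' :=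
  monotone_retractClosure (ec_mono (degs_mono h))

lemma ec_shiftBy {A B : ObjectProperty C} (a : ℤ) (h : ∀ X, A X → B (X⟦a⟧)) {X : C}
    (hX : ec A X) : ec B (X⟦a⟧) := by
  have h1 : ec A ≤ (ec B).shift a := by
    refine ec_le (fun X hX => le_ec B _ (h X hX)) ?_
    intro X Y Z f g k hT hX hZ
    have h2 := Triangle.shift_distinguished _ hT a
    exact ec_ext B (f := ((Triangle.shiftFunctor C a).obj (Triangle.mk f g k)).mor₁)
      (g := ((Triangle.shiftFunctor C a).obj (Triangle.mk f g k)).mor₂)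
      (h := ((Triangle.shiftFunctor C a).obj (Triangle.mk f g k)).mor₃) h2 hX hZ
  exact h1 X hX

variable (hP : Adm P)

include hP

lemma Adm.cls_shift {S S' : ℤ → Prop} (a : ℤ) (h : ∀ k, S k → S' (k - a)) {X : C}
    (hX : cls P S X) : cls P S' (X⟦a⟧) := by
  obtain ⟨Y, hY, ⟨r⟩⟩ := hX
  have := hP.iso
  refine ⟨Y⟦a⟧, ec_shiftBy a ?_ hY, ⟨r.map (shiftFunctor C a)⟩⟩
  rintro X ⟨n, hn, hX⟩
  exact ⟨n - a, h n hn, P.prop_of_iso ((shiftFunctorAdd' C a (n - a) n (by omega)).app X) hX⟩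

lemma Adm.cls_hom_zero {S S' : ℤ → Prop} (h : ∀ a b, S a → S' b → a < b) {X Y : C}
    (hX : cls P S X) (hY : cls P S' Y) (f : X ⟶ Y) : f = 0 := by
  obtain ⟨X', hX', ⟨r⟩⟩ := hX
  obtain ⟨Y', hY', ⟨r'⟩⟩ := hY
  have h1 : ∀ A, degs P S A → ec (degs P S') ≤ (fun B => ∀ f : A ⟶ B, f = 0) := by
    rintro A ⟨a, ha, hA⟩
    refine ec_le ?_ ?_
    · rintro B ⟨b, hb, hB⟩ f
      exact hP.neg' hA hB (h a b ha hb) f
    · intro X Y Z f g k hT hX hZ φ
      obtain ⟨l, rfl⟩ := ce2 hT φ (hZ _)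
      rw [hX l, zero_comp]
  have h2 : ec (degs P S) ≤ (fun A => ∀ f : A ⟶ Y', f = 0) := by
    refine ec_le ?_ ?_
    · intro A hA
      exact h1 A hA Y' hY'
    · intro X Y Z f g k hT hX hZ φ
      obtain ⟨l, rfl⟩ := ye2 hT φ (hX _)
      rw [hZ l, comp_zero]
  have h3 := h2 X' hX' (r.r ≫ f ≫ r'.i)
  calc f = (r.i ≫ r.r) ≫ f ≫ (r'.i ≫ r'.r) := by rw [r.retract, r'.retract]; simp
    _ = r.i ≫ (r.r ≫ f ≫ r'.i) ≫ r'.r := by simp only [Category.assoc]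
    _ = 0 := by rw [h3, zero_comp, comp_zero]

lemma Adm.cls_triangle [IsIdempotentComplete C] (hg : P.IsClassicalTriangulatedGenerator) (A : C) :
    ∃ (X Y : C) (_ : cls P (· ≤ 0) X) (_ : cls P (1 ≤ ·) Y)
      (f : X ⟶ A) (g : A ⟶ Y) (h : Y ⟶ X⟦(1 : ℤ)⟧), Triangle.mk f g h ∈ distTriang C := by
  obtain ⟨B, ⟨L, G, f, g, h, hT, hL, hG⟩, ⟨r⟩⟩ := hP.retract_dec hg A
  have hL' : cls P (· ≤ 0) L := cls_of_ec hL
  have hG' : cls P (1 ≤ ·) G := cls_of_ec hG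
  have hL1 : cls P (· ≤ -1) (L⟦(1 : ℤ)⟧) := hP.cls_shift 1 (fun k (hk : k ≤ 0) => by omega) hL'
  have hLG : ∀ x : L ⟶ G, x = 0 := hP.cls_hom_zero (fun a b (ha : a ≤ 0) (hb : 1 ≤ b) => by omega)
    hL' hG'
  have hLG1 : ∀ x : L⟦(1 : ℤ)⟧ ⟶ G, x = 0 :=
    hP.cls_hom_zero (fun a b (ha : a ≤ -1) (hb : 1 ≤ b) => by omega) hL1 hG'
  have hmono : ∀ k : L ⟶ L, k ≫ f = 0 → k = 0 := by
    intro k hk
    obtain ⟨m, hm⟩ := ce1 hT (k⟦(1 : ℤ)⟧') (by rw [← Functor.map_comp, hk, Functor.map_zero])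
    apply (shiftFunctor C (1 : ℤ)).map_injective
    rw [hm, hLG1 m, zero_comp, Functor.map_zero]
  obtain ⟨eL, heL⟩ := ce2 hT (f ≫ r.r ≫ r.i) (hLG _)
  have hid : eL ≫ eL = eL := by
    rw [← sub_eq_zero]
    apply hmono
    rw [Preadditive.sub_comp, Category.assoc, ← heL, ← Category.assoc, ← heL]
    simp [r.retract]
  obtain ⟨L', iL, rL, hir, hri⟩ := IsIdempotentComplete.idempotents_split L eL hid
  have h1 : rL ≫ iL ≫ f ≫ r.r = f ≫ r.r := by
    rw [← Category.assoc, hri, ← Category.assoc, ← heL]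
    simp [r.retract]
  have h2 : (iL ≫ f ≫ r.r) ≫ r.i = iL ≫ f := by
    have h3 : iL ≫ eL = iL := by rw [← hri, ← Category.assoc, hir, Category.id_comp]
    calc (iL ≫ f ≫ r.r) ≫ r.i = iL ≫ (f ≫ r.r ≫ r.i) := by simp only [Category.assoc]
      _ = iL ≫ f := by rw [heL, ← Category.assoc, h3]
  obtain ⟨G', g', h', hT'⟩ := distinguished_cocone_triangle (iL ≫ f ≫ r.r)
  obtain ⟨x, hx1, hx2⟩ := tri_mor hT' hT iL r.i h2
  obtain ⟨y, hy1, hy2⟩ := tri_mor hT hT' rL r.r h1.symm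
  have h3 : IsIso (x ≫ y) := by
    refine iso_of_endo hT' _ ?_ ?_
    · rw [← Category.assoc, hx1, Category.assoc, hy1, ← Category.assoc, r.retract, Category.id_comp]
    · rw [Category.assoc, ← hy2, ← Category.assoc, ← hx2, Category.assoc, ← Functor.map_comp,
        hir, CategoryTheory.Functor.map_id, Category.comp_id]
  refine ⟨L', G', cls_of_retract ⟨iL, rL, hir⟩ hL',
    cls_of_retract ⟨x, y ≫ inv (x ≫ y), ?_⟩ hG', _, _, _, hT'⟩
  rw [← Category.assoc, IsIso.hom_inv_id]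

/-- The t-structure attached to an admissible class of generators. -/
def Adm.tStructure [IsIdempotentComplete C] (hg : P.IsClassicalTriangulatedGenerator) :
    TStructure C where
  le n := cls P (· ≤ n)
  ge n := cls P (n ≤ ·)
  le_shift n a n' h X hX := hP.cls_shift a (fun k (hk : k ≤ n) => by omega) hX
  ge_shift n a n' h X hX := hP.cls_shift a (fun k (hk : n ≤ k) => by omega) hX
  zero' X Y f hX hY := hP.cls_hom_zero (fun a b (ha : a ≤ 0) (hb : 1 ≤ b) => by omega) hX hY f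
  le_zero_le := cls_mono (fun k (hk : k ≤ 0) => by omega)
  ge_one_le := cls_mono (fun k (hk : 1 ≤ k) => by omega)
  exists_triangle_zero_one A := hP.cls_triangle hg A

/-- Every object is bounded. -/
lemma Adm.bounded (hg : P.IsClassicalTriangulatedGenerator) (X : C) :
    ∃ m : ℤ, cls P (· ≤ m) X ∧ cls P (-m ≤ ·) X := by
  obtain ⟨Y, hY, ⟨r⟩⟩ := hP.retract_dec hg X
  rw [hP.dec_eq] at hY
  have h1 : ec (degs P (fun _ => True)) ≤
      (fun Y => ∃ m : ℤ, ec (degs P (· ≤ m)) Y ∧ ec (degs P (-m ≤ ·)) Y) := by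
    refine ec_le ?_ ?_
    · rintro X ⟨n, -, hX⟩
      exact ⟨n.natAbs, le_ec _ _ ⟨n, by omega, hX⟩, le_ec _ _ ⟨n, by omega, hX⟩⟩
    · rintro X Y Z f g k hT ⟨m, hm1, hm2⟩ ⟨m', hm1', hm2'⟩
      refine ⟨max m m', ec_ext _ hT ?_ ?_, ec_ext _ hT ?_ ?_⟩
      · exact ec_mono (degs_mono fun k (hk : k ≤ m) => by omega) _ hm1
      · exact ec_mono (degs_mono fun k (hk : k ≤ m') => by omega) _ hm1'
      · exact ec_mono (degs_mono fun k (hk : -m ≤ k) => by omega) _ hm2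
      · exact ec_mono (degs_mono fun k (hk : -m' ≤ k) => by omega) _ hm2'
  obtain ⟨m, hm1, hm2⟩ := h1 Y hY
  exact ⟨m, ⟨Y, hm1, ⟨r⟩⟩, ⟨Y, hm2, ⟨r⟩⟩⟩

end

end Pool.Agent.N209.MT
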