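import Pool.Agent.N209.MT.Kill

/-!
# Connecting morphisms of the heart are killed by every realisation
-/

set_option autoImplicit false
set_option linter.unusedSectionVars false
set_option linter.unusedSimpArgs false
set_option backward.isDefEq.respectTransparency false
set_option backward.defeqAttrib.useBackward true

open CategoryTheory Limits MonoidalCategory Pretriangulated Triangulated TensorProduct

namespace Pool.Agent.N209.MT

open Pool.Agent.Y116.MT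

universe v u w

open Functor.LaxMonoidal

section Name

variable {C : Type u} [Category.{v} C] [MonoidalCategory C] [RightRigidCategory C]

/-- The other name of a morphism. -/
def conm {M N : C} (f : M ⟶ N) : (Nᘁ : C) ⊗ M ⟶ 𝟙_ C := (Nᘁ : C) ◁ f ≫ ε_ N Nᘁ

lemma conm_recover {M N : C} (f : M ⟶ N) :
    f = (λ_ M).inv ≫ (η_ N Nᘁ ▷ M) ≫ (α_ N Nᘁ M).hom ≫ (N ◁ conm f) ≫ (ρ_ N).hom := by
  rw [conm, MonoidalCategory.whiskerLeft_comp, Category.assoc,
    ← associator_naturality_right_assoc, ← whisker_exchange_assoc,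
    ExactPairing.evaluation_coevaluation_assoc]
  simp

end Name

section

variable {C : Type u} [Category.{v} C] [Preadditive C] [HasZeroObject C] [HasShift C ℤ]
  [∀ n : ℤ, (shiftFunctor C n).Additive] [Pretriangulated C] [MonoidalCategory C]
  [SymmetricCategory C] [TensorTriangulated C]
  {E : Type w} [Field E] {R : Realisation C E}

lemma star_eq {Z W : C} (δ : Z ⟶ (𝟙_ C)⟦(1 : ℤ)⟧) {n : ℕ} (f : W ⟶ un C n) :
    star δ f = (f ⊗ₘ δ) ≫ (rShift (un C n) (𝟙_ C) 1).hom ≫ ((ρ_ (un C n)).hom)⟦(1 : ℤ)⟧' := by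
  rw [MonoidalCategory.tensorHom_def', Category.assoc, ← Category.assoc (f ▷ _),
    rShift_natural_left, Category.assoc, ← Functor.map_comp, rightUnitor_naturality, Y116.MT.star]

lemma Killed.of_comp_iso {X Y Z : C} {f : X ⟶ Y} (e : Y ⟶ Z) [IsIso e] (h : Killed R (f ≫ e)) :
    Killed R f := by
  have h1 := h.comp_right (inv e)
  rwa [Category.assoc, IsIso.hom_inv_id, Category.comp_id] at h1

lemma Killed.of_iso_comp {X Y Z : C} (e : X ⟶ Y) [IsIso e] {f : Y ⟶ Z} (h : Killed R (e ≫ f)) :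
    Killed R f := by
  have h1 := h.comp_left (inv e)
  rwa [← Category.assoc, IsIso.inv_hom_id, Category.id_comp] at h1

lemma not_killed_starN {Z : C} {δ : Z ⟶ (𝟙_ C)⟦(1 : ℤ)⟧} (h : ¬ Killed R δ) (n : ℕ) :
    ¬ Killed R (starN δ (𝟙 (𝟙_ C)) n) := by
  induction n with
  | zero =>
    refine not_killed_id (i := 0) fun h0 => not_isZero_H_unit R ?_
    exact h0.of_iso (R.H.mapIso ((shiftFunctorZero C ℤ).app _).symm)
  | succ n ih =>
    intro h1
    have h2 : starN δ (𝟙 (𝟙_ C)) (n + 1) = star δ (starN δ (𝟙 (𝟙_ C)) n) := rfl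
    rw [h2, star_eq] at h1
    exact not_killed_tensor ih h (h1.of_comp_iso _)

variable (R) in
lemma killed_zero {X Y : C} [MonoidalPreadditive C] : Killed R (0 : X ⟶ Y) := fun i => by
  rw [Functor.map_zero, Functor.map_zero]

variable (R) in
/-- If the antisymmetrizer of some tensor power of `Z` vanishes, then every morphism from `Z` to
the shifted unit is killed. -/
lemma killed_of_alt [MonoidalPreadditive C] [RightRigidCategory C] [Linear ℚ C] {Z : C} (δ : Z ⟶ (𝟙_ C)⟦(1 : ℤ)⟧)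
    {n : ℕ} (h : alt (𝟙_ C) Z n = 0) : Killed R δ := by
  by_contra h1
  apply not_killed_starN h1 n
  have h2 := alt_star δ (𝟙 (𝟙_ C)) n
  rw [h, zero_comp] at h2
  rw [zero_of_zsmul _ _ (by exact_mod_cast Nat.factorial_ne_zero n) h2.symm]
  exact killed_zero R

section Hz

variable {A : Type*} [Category A] [Abelian A] (H : C ⥤ A) [H.IsHomological]
  {X Y Z : C} {f : X ⟶ Y} {g : Y ⟶ Z} {h : Z ⟶ X⟦(1 : ℤ)⟧}
  (hT : Triangle.mk f g h ∈ distTriang C)

include hT in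
lemma hmid (n : ℤ) (hf : H.map (f⟦n⟧') = 0) (hg : H.map (g⟦n⟧') = 0) :
    IsZero (H.obj (Y⟦n⟧)) := by
  let _ := Functor.ShiftSequence.tautological H ℤ
  have h1 : Mono (H.map (g⟦n⟧')) :=
    (H.homologySequence_mono_shift_map_mor₂_iff _ hT n).2 hf
  rw [IsZero.iff_id_eq_zero, ← cancel_mono (H.map (g⟦n⟧')), hg, comp_zero, comp_zero]

end Hz

/-- Sub and quotient objects of an object in degree zero, if the connecting map is killed. -/
lemma deg_of_killed {X Y Z : C} {f : X ⟶ Y} {g : Y ⟶ Z} {h : Z ⟶ X⟦(1 : ℤ)⟧}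
    (hT : Triangle.mk f g h ∈ distTriang C) (hk : Killed R h) (hY : R.Deg Y 0) :
    R.Deg X 0 ∧ R.Deg Z 0 := by
  constructor
  · have h1 : R.Deg (X⟦(1 : ℤ)⟧) (-1) := by
      intro i hi
      refine hmid R.H (rotD (rotD hT)) i (hk i) ?_
      have h2 : IsZero (R.H.obj (Y⟦(1 : ℤ)⟧⟦i⟧)) := hY.shift 1 (-1) (by omega) i hi
      exact h2.eq_of_tgt _ _
    exact (h1.shift (-1) 0 (by omega)).iso ((shiftEquiv C (1 : ℤ)).unitIso.app X).symm
  · intro i hi
    exact hmid R.H (rotD hT) i ((hY i hi).eq_of_src _ _) (hk i)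

variable [MonoidalPreadditive C] [RightRigidCategory C] {t : TStructure C}

section Dual

variable (ht : TensorCompat t) (hu : Hrt t (𝟙_ C))

include ht hu

lemma dual_isLE {M : C} {n : ℤ} (hM : t.IsGE M n) : t.IsLE (Mᘁ : C) (-n) := by
  rw [t.isLE_iff_orthogonal (-n) (-n + 1) (by omega)]
  intro Y f hY
  have h1 : t.IsGE (M ⊗ Y) 1 := by
    have := ht.isGE hM hY
    rwa [show n + (-n + 1) = 1 by omega] at this
  have h2 : (tensorLeftHomEquiv (𝟙_ C) M Mᘁ Y) ((ρ_ Mᘁ).hom ≫ f) = 0 :=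
    t.zero_of_isLE_of_isGE _ 0 1 (by omega) hu.1 h1
  have h3 : (ρ_ Mᘁ).hom ≫ f = 0 := by
    rw [← (tensorLeftHomEquiv (𝟙_ C) M Mᘁ Y).symm_apply_apply ((ρ_ Mᘁ).hom ≫ f), h2]
    simp [tensorLeftHomEquiv]
  rw [← cancel_epi (ρ_ Mᘁ).hom, h3, comp_zero]

lemma dual_isGE {M : C} {n : ℤ} (hM : t.IsLE M n) : t.IsGE (Mᘁ : C) (-n) := by
  rw [t.isGE_iff_orthogonal (-n - 1) (-n) (by omega)]
  intro X f hX
  have h1 : t.IsLE (X ⊗ M) (-1) := by
    have := ht.isLE hX hM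
    rwa [show -n - 1 + n = -1 by omega] at this
  have h2 : (tensorRightHomEquiv X M Mᘁ (𝟙_ C)).symm (f ≫ (λ_ Mᘁ).inv) = 0 :=
    t.zero_of_isLE_of_isGE _ (-1) 0 (by omega) h1 hu.2
  have h3 : f ≫ (λ_ Mᘁ).inv = 0 := by
    rw [← (tensorRightHomEquiv X M Mᘁ (𝟙_ C)).apply_symm_apply (f ≫ (λ_ Mᘁ).inv), h2]
    simp [tensorRightHomEquiv]
  rw [← cancel_mono (λ_ Mᘁ).inv, h3, zero_comp]

end Dual

lemma killed_of_conm {M N : C} {f : M ⟶ N} (h : Killed R (conm f)) : Killed R f := by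
  rw [conm_recover f]
  exact ((((h.whiskerLeft N).comp_right _).comp_left _).comp_left _).comp_left _

variable (ht : TensorCompat t) (he : TExact t R) (hu : Hrt t (𝟙_ C))
  (hid : ∀ e : 𝟙_ C ⟶ 𝟙_ C, e ≫ e = e → e = 0 ∨ e = 𝟙 _)

include ht he hu hid in
/-- The extension classes of the heart of a t-structure which is compatible with the tensor product
and for which some realisation `R` is t-exact are killed by all realisations `R'`. -/
theorem killed_conn [IsTriangulated C] [Linear ℚ C] {E' : Type w} [Field E']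
    (R' : Realisation C E') {A B : C} (hA : Hrt t A) (hB : Hrt t B) (g : A ⟶ B⟦(1 : ℤ)⟧) :
    Killed R' g := by
  apply killed_of_conm
  apply Killed.unshift 1
  have hB1 : t.IsLE (B⟦(1 : ℤ)⟧) (-1) := @TStructure.isLE_shift _ _ _ _ _ _ _ t B 0 1 (-1)
    (by omega) hB.1
  have hB2 : t.IsGE (B⟦(1 : ℤ)⟧) (-1) := @TStructure.isGE_shift _ _ _ _ _ _ _ t B 0 1 (-1)
    (by omega) hB.2
  have h1 : t.IsLE ((B⟦(1 : ℤ)⟧)ᘁ : C) 1 := by simpa using dual_isLE ht hu hB2
  have h2 : t.IsGE ((B⟦(1 : ℤ)⟧)ᘁ : C) 1 := by simpa using dual_isGE ht hu hB1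
  have h3 : t.IsLE (((B⟦(1 : ℤ)⟧)ᘁ : C) ⊗ A) 1 := by simpa using ht.isLE h1 hA.1
  have h4 : t.IsGE (((B⟦(1 : ℤ)⟧)ᘁ : C) ⊗ A) 1 := by simpa using ht.isGE h2 hA.2
  have hZ : Hrt t ((((B⟦(1 : ℤ)⟧)ᘁ : C) ⊗ A)⟦(1 : ℤ)⟧) :=
    ⟨t.isLE_shift _ 1 1 0, t.isGE_shift _ 1 1 0⟩
  obtain ⟨n, hn⟩ := alt_heart_zero ht he hu hid hZ
  exact killed_of_alt R' _ hn

end

end Pool.Agent.N209.MT
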