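import Pool.Agent.Y116.MT.Mot

/-!
# Cramer's rule for a morphism of tensor rank `n`
-/

set_option autoImplicit false
set_option linter.unusedSectionVars false
set_option linter.unusedSimpArgs false
set_option backward.isDefEq.respectTransparency false
set_option backward.defeqAttrib.useBackward true

open CategoryTheory Limits MonoidalCategory

namespace Pool.Agent.N209.MT

open Pool.Agent.Y116.MT

universe v u

section

variable {C : Type u} [Category.{v} C] [MonoidalCategory C]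

/-- The tensor power of a morphism. -/
def pwf {V V' : C} (f : V ⟶ V') (X : C) : ∀ n : ℕ, pw X V n ⟶ pw X V' n
  | 0 => 𝟙 _
  | n + 1 => pwf f X n ⊗ₘ f

variable [SymmetricCategory C]

lemma exch_tensor {W W' Z Z' P P' : C} (a : W ⟶ W') (b : Z ⟶ Z') (c : P ⟶ P') :
    ((a ⊗ₘ b) ⊗ₘ c) ≫ (exch W' Z' P').hom = (exch W Z P).hom ≫ ((a ⊗ₘ c) ⊗ₘ b) := by
  have h1 : ((a ⊗ₘ b) ⊗ₘ c) = (a ▷ Z) ▷ P ≫ (W' ◁ b) ▷ P ≫ (W' ⊗ Z') ◁ c := by
    rw [MonoidalCategory.tensorHom_def, MonoidalCategory.tensorHom_def, comp_whiskerRight,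
      Category.assoc]
  rw [h1, Category.assoc, Category.assoc, exch_natural, ← Category.assoc ((W' ◁ b) ▷ P),
    exch_natural_left, Category.assoc, ← Category.assoc ((a ▷ Z) ▷ P), exch_natural_first,
    Category.assoc]
  congr 1
  rw [MonoidalCategory.tensorHom_def, MonoidalCategory.tensorHom_def, comp_whiskerRight,
    Category.assoc, whisker_exchange]

lemma mv_natural {V V' : C} (f : V ⟶ V') (X : C) (n : ℕ) : ∀ i : Fin (n + 1),
    mv X V n i ≫ pwf f X (n + 1) = pwf f X (n + 1) ≫ mv X V' n i := by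
  induction n with
  | zero =>
    intro i
    simp [mv]
  | succ n ih =>
    intro i
    refine Fin.lastCases ?_ (fun j => ?_) i
    · simp
    · rw [mv_castSucc, mv_castSucc]
      have h1 : pwf f X (n + 1 + 1) = (pwf f X n ⊗ₘ f) ⊗ₘ f := rfl
      have h2 : pwf f X (n + 1 + 1) = pwf f X (n + 1) ⊗ₘ f := rfl
      rw [Category.assoc, h1, ← exch_tensor, ← Category.assoc, ← Category.assoc]
      congr 1
      rw [← h1, h2, MonoidalCategory.tensorHom_def', ← Category.assoc, ← whisker_exchange,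
        Category.assoc, Category.assoc, ← comp_whiskerRight, ← comp_whiskerRight, ih]

end

section

variable {C : Type u} [Category.{v} C] [MonoidalCategory C] [SymmetricCategory C]
  [Preadditive C] [MonoidalPreadditive C]

lemma alt_natural {V V' : C} (f : V ⟶ V') (X : C) (n : ℕ) :
    alt X V n ≫ pwf f X n = pwf f X n ≫ alt X V' n := by
  induction n with
  | zero => simp [alt, pwf]
  | succ n ih =>
    simp only [alt, Preadditive.sum_comp, Preadditive.comp_sum]
    refine Finset.sum_congr rfl (fun i _ => ?_)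
    rw [Preadditive.zsmul_comp, Preadditive.comp_zsmul, ← Category.assoc (pwf f X (n + 1)),
      ← mv_natural, Category.assoc, Category.assoc]
    congr 2
    have h2 : pwf f X (n + 1) = pwf f X n ⊗ₘ f := rfl
    rw [h2, MonoidalCategory.tensorHom_def', ← Category.assoc, ← whisker_exchange,
      Category.assoc, Category.assoc, ← comp_whiskerRight, ← comp_whiskerRight, ih]

lemma alt_one (X V : C) : alt X V 1 = 𝟙 _ := by
  simp [alt, mv]

lemma alt_succ_succ (X V : C) (n : ℕ) : alt X V (n + 2) =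
    (∑ j : Fin (n + 1), ((-1 : ℤ) ^ (n + 1 + j.val)) •
      ((mv X V n j ▷ V) ≫ (exch (pw X V n) V V).hom ≫ (alt X V (n + 1) ▷ V))) +
    alt X V (n + 1) ▷ V := by
  have h1 : alt X V (n + 2) = ∑ i : Fin (n + 2), ((-1 : ℤ) ^ (n + 1 + i.val)) •
    (mv X V (n + 1) i ≫ (alt X V (n + 1) ▷ V)) := rfl
  rw [h1, Fin.sum_univ_castSucc]
  congr 1
  · refine Finset.sum_congr rfl (fun j _ => ?_)
    rw [mv_castSucc, Category.assoc, Fin.val_castSucc]
  · rw [mv_last, Category.id_comp, Fin.val_last, Even.neg_one_pow ⟨n + 1, rfl⟩, one_zsmul]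

lemma cramer_term {V V' : C} (f : V ⟶ V') (X : C) (n : ℕ) (j : Fin (n + 1)) :
    pwf f X (n + 2) ≫ ((mv X V' n j ▷ V') ≫ (exch (pw X V' n) V' V').hom ≫
      (alt X V' (n + 1) ▷ V')) =
    (pw X V (n + 1) ◁ f) ≫ ((mv X V n j ▷ V') ≫ (exch (pw X V n) V V').hom ≫
      ((pwf f X n ▷ V') ▷ V) ≫ (alt X V' (n + 1) ▷ V)) ≫ (pw X V' (n + 1) ◁ f) := by
  have h1 : pwf f X (n + 2) = pwf f X (n + 1) ⊗ₘ f := rfl
  have h2 : pwf f X (n + 1) = pwf f X n ⊗ₘ f := rfl
  have h3 : pwf f X (n + 2) ≫ (mv X V' n j ▷ V') =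
      (mv X V n j ▷ V) ≫ ((pwf f X n ⊗ₘ f) ⊗ₘ f) := by
    rw [h1, MonoidalCategory.tensorHom_def', Category.assoc, ← comp_whiskerRight, ← mv_natural,
      comp_whiskerRight, ← Category.assoc, whisker_exchange, Category.assoc,
      ← MonoidalCategory.tensorHom_def', h2]
  rw [← Category.assoc, h3, Category.assoc, ← Category.assoc ((pwf f X n ⊗ₘ f) ⊗ₘ f), exch_tensor]
  simp only [Category.assoc]
  rw [← Category.assoc (pw X V (n + 1) ◁ f), whisker_exchange, Category.assoc]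
  congr 1
  rw [← Category.assoc (pw X V (n + 1) ◁ f), exch_natural, Category.assoc]
  congr 1
  have h4 : ((pwf f X n ⊗ₘ f) ⊗ₘ f) = ((pw X V n ◁ f) ▷ V) ≫ ((pwf f X n ▷ V') ▷ V) ≫
      ((pw X V' n ⊗ V') ◁ f) := by
    rw [MonoidalCategory.tensorHom_def (pwf f X n ⊗ₘ f) f,
      MonoidalCategory.tensorHom_def' (pwf f X n) f, comp_whiskerRight, Category.assoc]
  rw [h4, ← whisker_exchange (alt X V' (n + 1)) f]
  simp only [Category.assoc]

/-- Cramer's rule. -/
theorem cramer {V V' : C} (f : V ⟶ V') (X : C) (n : ℕ)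
    (h : pwf f X (n + 1) ≫ alt X V' (n + 1) = 0) :
    ∃ m : pw X V n ⊗ V' ⟶ pw X V' n ⊗ V,
      (pwf f X n ≫ alt X V' n) ▷ V ≫ (pw X V' n ◁ f) =
        (pw X V n ◁ f) ≫ m ≫ (pw X V' n ◁ f) := by
  cases n with
  | zero =>
    refine ⟨0, ?_⟩
    have h1 : X ◁ f = 0 := by
      rw [alt_one, Category.comp_id] at h
      simpa [pwf] using h
    simp [alt, pwf, h1]
  | succ n =>
    have h0 : pwf f X (n + 1 + 1) ≫ (alt X V' (n + 1) ▷ V') =
        -(pwf f X (n + 1 + 1) ≫ ∑ j : Fin (n + 1), ((-1 : ℤ) ^ (n + 1 + j.val)) •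
          ((mv X V' n j ▷ V') ≫ (exch (pw X V' n) V' V').hom ≫ (alt X V' (n + 1) ▷ V'))) := by
      rw [alt_succ_succ, Preadditive.comp_add] at h
      exact eq_neg_of_add_eq_zero_right h
    refine ⟨-∑ j : Fin (n + 1), ((-1 : ℤ) ^ (n + 1 + j.val)) •
      ((mv X V n j ▷ V') ≫ (exch (pw X V n) V V').hom ≫
      ((pwf f X n ▷ V') ▷ V) ≫ (alt X V' (n + 1) ▷ V)), ?_⟩
    have h1 : (pwf f X (n + 1) ≫ alt X V' (n + 1)) ▷ V ≫ (pw X V' (n + 1) ◁ f) =
        pwf f X (n + 1 + 1) ≫ (alt X V' (n + 1) ▷ V') := by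
      have h2 : pwf f X (n + 1 + 1) = pwf f X (n + 1) ⊗ₘ f := rfl
      rw [h2, MonoidalCategory.tensorHom_def', Category.assoc, ← comp_whiskerRight,
        whisker_exchange]
    rw [h1, h0]
    simp only [Preadditive.comp_sum, Preadditive.sum_comp, Preadditive.neg_comp,
      Preadditive.comp_neg, Preadditive.zsmul_comp, Preadditive.comp_zsmul]
    congr 1
    refine Finset.sum_congr rfl (fun j _ => ?_)
    rw [cramer_term]

end

end Pool.Agent.N209.MT
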