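import Pool.Agent.N209.MT.Kill

/-!
# The dual of an object in degree zero is in degree zero
-/

set_option autoImplicit false
set_option linter.unusedSectionVars false
set_option linter.unusedSimpArgs false
set_option backward.isDefEq.respectTransparency false
set_option backward.defeqAttrib.useBackward true

open CategoryTheory Limits MonoidalCategory Pretriangulated Triangulated

namespace Pool.Agent.N209.MT

open Pool.Agent.Y116.MT

universe v u w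

open Functor.LaxMonoidal

section

variable {C : Type u} [Category.{v} C] [MonoidalCategory C]

lemma pairing_equiv {T G D : C} [ExactPairing G D] (k : T ⊗ G ⟶ 𝟙_ C) :
    ((tensorRightHomEquiv T G D (𝟙_ C) k) ≫ (λ_ D).hom) ▷ G ≫ ε_ G D = k := by
  have h1 : ∀ f : T ⟶ 𝟙_ C ⊗ D, (f ≫ (λ_ D).hom) ▷ G ≫ ε_ G D =
      (tensorRightHomEquiv T G D (𝟙_ C)).symm f := by
    intro f
    simp [tensorRightHomEquiv, ← unitors_equal]
  rw [h1, Equiv.symm_apply_apply]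

lemma pairing_equiv' {T G D : C} [ExactPairing G D] {φ ψ : T ⟶ D}
    (h : φ ▷ G ≫ ε_ G D = ψ ▷ G ≫ ε_ G D) : φ = ψ := by
  have h1 : ∀ φ : T ⟶ D, (tensorRightHomEquiv T G D (𝟙_ C)).symm (φ ≫ (λ_ D).inv) =
      φ ▷ G ≫ ε_ G D := by
    intro φ
    simp [tensorRightHomEquiv, ← unitors_equal]
  have h2 := (tensorRightHomEquiv T G D (𝟙_ C)).symm.injective
    (show (tensorRightHomEquiv T G D (𝟙_ C)).symm (φ ≫ (λ_ D).inv) =
      (tensorRightHomEquiv T G D (𝟙_ C)).symm (ψ ≫ (λ_ D).inv) by rw [h1, h1, h])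
  exact (cancel_mono _).1 h2

end

section

variable {C : Type u} [Category.{v} C] [Preadditive C] [HasZeroObject C] [HasShift C ℤ]
  [∀ n : ℤ, (shiftFunctor C n).Additive] [Pretriangulated C] [MonoidalCategory C]
  [SymmetricCategory C] [TensorTriangulated C]

/-- The shifted evaluation. -/
noncomputable def evn (G D : C) [ExactPairing G D] (n : ℤ) : D⟦n⟧ ⊗ G ⟶ (𝟙_ C)⟦n⟧ :=
  (lShift D G n).hom ≫ (ε_ G D)⟦n⟧'

lemma evn_surj {G D : C} [ExactPairing G D] (n : ℤ) {T : C} (k : T ⊗ G ⟶ (𝟙_ C)⟦n⟧) :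
    ∃ φ : T ⟶ D⟦n⟧, φ ▷ G ≫ evn G D n = k := by
  have τ : (T⟦-n⟧)⟦n⟧ ≅ T := (shiftFunctorCompIsoId C (-n) n (by omega)).app T
  obtain ⟨k', hk'⟩ := (shiftFunctor C n).map_surjective
    ((lShift (T⟦-n⟧) G n).inv ≫ (τ.hom ▷ G) ≫ k)
  refine ⟨τ.inv ≫ (tensorRightHomEquiv _ G D (𝟙_ C) k' ≫ (λ_ D).hom)⟦n⟧', ?_⟩
  rw [evn, comp_whiskerRight, Category.assoc, ← Category.assoc (_ ▷ G) (lShift D G n).hom,
    lShift_natural_left, Category.assoc, ← Functor.map_comp, pairing_equiv, hk',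
    Iso.hom_inv_id_assoc, ← comp_whiskerRight_assoc, Iso.inv_hom_id]
  simp

lemma evn_inj {G D : C} [ExactPairing G D] (n : ℤ) {T : C} {φ ψ : T ⟶ D⟦n⟧}
    (h : φ ▷ G ≫ evn G D n = ψ ▷ G ≫ evn G D n) : φ = ψ := by
  have τ : (T⟦-n⟧)⟦n⟧ ≅ T := (shiftFunctorCompIsoId C (-n) n (by omega)).app T
  obtain ⟨φ', hφ⟩ := (shiftFunctor C n).map_surjective (τ.hom ≫ φ)
  obtain ⟨ψ', hψ⟩ := (shiftFunctor C n).map_surjective (τ.hom ≫ ψ)
  have h1 : φ'⟦n⟧' ▷ G ≫ evn G D n = ψ'⟦n⟧' ▷ G ≫ evn G D n := by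
    rw [hφ, hψ, comp_whiskerRight, comp_whiskerRight, Category.assoc, Category.assoc, h]
  have h2 : φ' = ψ' := by
    apply pairing_equiv' (G := G)
    apply (shiftFunctor C n).map_injective
    rw [evn, ← Category.assoc, lShift_natural_left, Category.assoc, ← Functor.map_comp,
      ← Category.assoc, lShift_natural_left, Category.assoc, ← Functor.map_comp] at h1
    exact (cancel_epi _).1 h1
  rw [← cancel_epi τ.hom, ← hφ, ← hψ, h2]

variable {E : Type w} [Field E] {R : Realisation C E}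

/-- The dual of an object in degree zero is in degree zero. -/
theorem deg_dual {G D : C} [ExactPairing G D] (hG : R.Deg G 0) : R.Deg D 0 := by
  intro n hn
  let c : D⟦n⟧ ⟶ (𝟙_ C)⟦n⟧ ⊗ D := tensorRightHomEquiv (D⟦n⟧) G D ((𝟙_ C)⟦n⟧) (evn G D n)
  have hc : c = (ρ_ (D⟦n⟧)).inv ≫ (D⟦n⟧) ◁ η_ G D ≫ (α_ (D⟦n⟧) G D).inv ≫
    (evn G D n) ▷ D := rfl
  obtain ⟨r, hr⟩ := evn_surj (G := G) (D := D) n
    ((tensorRightHomEquiv ((𝟙_ C)⟦n⟧ ⊗ D) G D ((𝟙_ C)⟦n⟧)).symm (𝟙 _))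
  have h1 : c ≫ r = 𝟙 _ := by
    apply evn_inj (G := G) (D := D) n
    rw [comp_whiskerRight, Category.assoc, hr, ← tensorRightHomEquiv_symm_naturality,
      Category.comp_id, Equiv.symm_apply_apply, MonoidalCategory.id_whiskerRight, Category.id_comp]
  have h2 : R.H.map (evn G D n) = 0 := (deg_unit n hn).eq_of_tgt _ _
  have h3 := hG.isIso_mu D
  have h4 : μ R.H (D⟦n⟧) (G ⊗ D) ≫ R.H.map ((α_ (D⟦n⟧) G D).inv ≫ (evn G D n) ▷ D) = 0 := by
    have h5 : IsIso (R.H.obj (D⟦n⟧) ◁ μ R.H G D) := inferInstance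
    rw [← cancel_epi (R.H.obj (D⟦n⟧) ◁ μ R.H G D), comp_zero, Functor.map_comp,
      Functor.LaxMonoidal.associativity_inv_assoc, ← μ_natural_left, h2]
    have h6 : (0 : R.H.obj (D⟦n⟧ ⊗ G) ⟶ R.H.obj ((𝟙_ C)⟦n⟧)) ▷ R.H.obj D = 0 :=
      (tensorRight _).map_zero _ _
    rw [h6, zero_comp, comp_zero, comp_zero]
  have h7 : R.H.map c = 0 := by
    have h8 : R.H.map ((ρ_ (D⟦n⟧)).inv) = (ρ_ (R.H.obj (D⟦n⟧))).inv ≫
        (R.H.obj (D⟦n⟧) ◁ Functor.LaxMonoidal.ε R.H) ≫ μ R.H (D⟦n⟧) (𝟙_ C) := by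
      rw [Iso.eq_inv_comp, Functor.LaxMonoidal.right_unitality R.H (D⟦n⟧), Category.assoc,
        Category.assoc, ← Functor.map_comp, Iso.hom_inv_id, CategoryTheory.Functor.map_id,
        Category.comp_id]
    rw [hc, Functor.map_comp, Functor.map_comp, h8, Category.assoc, Category.assoc,
      ← μ_natural_right_assoc, h4, comp_zero, comp_zero, comp_zero]
  rw [IsZero.iff_id_eq_zero, ← CategoryTheory.Functor.map_id, ← h1, Functor.map_comp, h7, zero_comp]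

end

end Pool.Agent.N209.MT
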