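import Pool.Agent.N209.MT.IndepDefs

/-!
# Definitions for the existence criterion for motivic t-structures
-/

set_option autoImplicit false

open CategoryTheory Limits MonoidalCategory Pretriangulated Triangulated

namespace Pool.Agent.N209.MT

open Pool.Agent.Y116.MT

universe v u w

/-- The object `S` is compact: every morphism from `S` to a coproduct is a finite sum of morphisms
to the summands. -/
def IsCompactObj.{k, v₁, u₁} {T : Type u₁} [Category.{v₁} T] [Preadditive T]
    [HasCoproducts.{k} T] (S : T) : Prop :=
  ∀ (J : Type k) (X : J → T) (f : S ⟶ ∐ X),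
    ∃ (s : Finset J) (g : ∀ j, S ⟶ X j), f = ∑ j ∈ s, g j ≫ Sigma.ι X j

section

variable {C : Type u} [Category.{v} C] [Preadditive C] [HasZeroObject C] [HasShift C ℤ]
  [∀ n : ℤ, (shiftFunctor C n).Additive] [Pretriangulated C] [MonoidalCategory C]
  [SymmetricCategory C] [TensorTriangulated C]

/-- The realisation `R` is faithful on the classes of degree `n ≤ 0` of the objects in degree
zero: if `G` is an object such that `R` of `G` is concentrated in degree `0`, then a morphism
`s : 𝟙 ⟶ G⟦n⟧` with `n ≤ 0` is zero as soon as `R` of `s` is zero. For `n < 0` the realisation of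
`s` is always zero, so that the condition says that there are no such morphisms. -/
def FaithfulNonpos {E : Type w} [Field E] (R : Realisation C E) : Prop :=
  ∀ G : C, R.Deg G 0 → ∀ n : ℤ, n ≤ 0 → ∀ s : 𝟙_ C ⟶ G⟦n⟧, R.H.map s = 0 → s = 0

end

end Pool.Agent.N209.MT
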