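import Pool.Agent.Y116.MT.Tri
import Pool.Agent.N209.MT.ExistDefs

/-!
# Truncation triangles for a set of compact objects
-/

set_option autoImplicit false
set_option linter.unusedSectionVars false
set_option linter.unusedSimpArgs false
set_option backward.isDefEq.respectTransparency false
set_option backward.defeqAttrib.useBackward true

open CategoryTheory Limits Pretriangulated Triangulated

namespace Pool.Agent.N209.MT

open Pool.Agent.Y116.MT

universe w v u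

section

variable {T : Type u} [Category.{v} T] [Preadditive T] [HasZeroObject T] [HasShift T ℤ]
  [∀ n : ℤ, (shiftFunctor T n).Additive] [Pretriangulated T] [HasCoproducts.{max w v} T]

lemma IsCompactObj.shifted {S : T} (hS : IsCompactObj.{max w v} S) {J : Type (max w v)}
    (X : J → T) (n : ℤ) (f : S ⟶ (∐ X)⟦n⟧) :
    ∃ (s : Finset J) (g : ∀ j, S ⟶ (X j)⟦n⟧), f = ∑ j ∈ s, g j ≫ (Sigma.ι X j)⟦n⟧' := by
  obtain ⟨s, g, hg⟩ := hS J (fun j => (X j)⟦n⟧) (f ≫ inv (sigmaComparison (shiftFunctor T n) X))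
  refine ⟨s, g, ?_⟩
  rw [← cancel_mono (inv (sigmaComparison (shiftFunctor T n) X)), hg, Preadditive.sum_comp]
  refine Finset.sum_congr rfl (fun j _ => ?_)
  rw [Category.assoc, map_ι_comp_inv_sigmaComparison]

/-- One step of the construction. -/
lemma step_exists {I : Type w} (S : I → T) (X : T) :
    ∃ (X' : T) (x : X ⟶ X'), (∀ i (f : S i ⟶ X), f ≫ x = 0) ∧
      (∀ V : T, (∀ i (f : S i ⟶ V), f = 0) → (∀ g : X ⟶ V, ∃ g' : X' ⟶ V, x ≫ g' = g) ∧
        ∀ g : X' ⟶ V⟦(1 : ℤ)⟧, x ≫ g = 0 → g = 0) := by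
  let J : Type (max w v) := Σ i, (S i ⟶ X)
  let F : J → T := fun j => S j.1
  let t : ∐ F ⟶ X := Sigma.desc fun j => j.2
  obtain ⟨X', x, d, hT⟩ := distinguished_cocone_triangle t
  have h0 : ∀ V : T, (∀ i (f : S i ⟶ V), f = 0) → ∀ g : ∐ F ⟶ V, g = 0 := by
    intro V hV g
    apply Sigma.hom_ext
    intro j
    rw [comp_zero]
    exact hV _ _
  refine ⟨X', x, fun i f => ?_, fun V hV => ⟨fun g => ?_, fun g hg => ?_⟩⟩
  · have h1 : f = Sigma.ι F ⟨i, f⟩ ≫ t := by simp [t]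
    rw [h1, Category.assoc, comp12 hT, comp_zero]
  · obtain ⟨l, hl⟩ := ye2 hT g (h0 V hV _)
    exact ⟨l, hl.symm⟩
  · obtain ⟨l, hl⟩ := ye3 hT g hg
    obtain ⟨l', rfl⟩ := (shiftFunctor T (1 : ℤ)).map_surjective l
    rw [hl, h0 V hV l', Functor.map_zero, comp_zero]

/-- Truncation triangles. -/
theorem trunc_exists {I : Type w} (S : I → T) (hS : ∀ i, IsCompactObj.{max w v} (S i)) (Z : T) :
    ∃ (U Q : T) (a : U ⟶ Z) (b : Z ⟶ Q) (d : Q ⟶ U⟦(1 : ℤ)⟧),
      Triangle.mk a b d ∈ distTriang T ∧ (∀ i (f : S i ⟶ Q), f = 0) ∧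
      ∀ V : T, (∀ i (f : S i ⟶ V), f = 0) → ∀ g : U ⟶ V, g = 0 := by
  choose X' x hx1 hx2 using step_exists S
  let sq : ℕ → T := fun n => Nat.rec (motive := fun _ => T) Z (fun _ Y => X' Y) n
  let xs : ∀ n, sq n ⟶ sq (n + 1) := fun n => x (sq n)
  have hxs1 : ∀ n i (f : S i ⟶ sq n), f ≫ xs n = 0 := fun n => hx1 (sq n)
  have hxs2 : ∀ n (V : T), (∀ i (f : S i ⟶ V), f = 0) →
      (∀ g : sq n ⟶ V, ∃ g' : sq (n + 1) ⟶ V, xs n ≫ g' = g) := fun n V hV => (hx2 (sq n) V hV).1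
  have hxs3 : ∀ n (V : T), (∀ i (f : S i ⟶ V), f = 0) →
      ∀ g : sq (n + 1) ⟶ V⟦(1 : ℤ)⟧, (xs n ≫ g : sq n ⟶ V⟦(1 : ℤ)⟧) = 0 → g = 0 :=
    fun n V hV => (hx2 (sq n) V hV).2
  let F : ULift.{max w v} ℕ → T := fun j => sq j.down
  let ι : ∀ n, sq n ⟶ ∐ F := fun n => Sigma.ι F ⟨n⟩
  let π : ∀ n, ∐ F ⟶ sq n := fun n => Sigma.π F ⟨n⟩
  have hιπ : ∀ n, ι n ≫ π n = 𝟙 _ := fun n => Sigma.ι_π_eq_id F ⟨n⟩
  have hιπ' : ∀ n m, n ≠ m → ι n ≫ π m = 0 := fun n m h =>
    Sigma.ι_π_of_ne F (by simpa using h)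
  let Φ : ∐ F ⟶ ∐ F := Sigma.desc fun j => ι j.down - xs j.down ≫ ι (j.down + 1)
  have hΦ : ∀ n, ι n ≫ Φ = ι n - xs n ≫ ι (n + 1) := fun n => by simp [Φ, ι]
  obtain ⟨Q, q, e, hQ⟩ := distinguished_cocone_triangle Φ
  have hq : ∀ n, ι n ≫ q = xs n ≫ ι (n + 1) ≫ q := by
    intro n
    have h1 : ι n ≫ Φ ≫ q = 0 := by rw [comp12 hQ, comp_zero]
    rw [← Category.assoc, hΦ, Preadditive.sub_comp, sub_eq_zero, Category.assoc] at h1
    exact h1
  -- extension of maps to V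
  have hext : ∀ V : T, (∀ i (f : S i ⟶ V), f = 0) → ∀ (c : ∀ n, sq n ⟶ V) (g : sq 0 ⟶ V),
      ∃ y : ∀ n, sq n ⟶ V, y 0 = g ∧ ∀ n, y n - xs n ≫ y (n + 1) = c n := by
    intro V hV c g
    have h1 : ∀ n (y : sq n ⟶ V), ∃ y' : sq (n + 1) ⟶ V, y - xs n ≫ y' = c n := by
      intro n y
      obtain ⟨y', hy'⟩ := hxs2 n V hV (y - c n)
      exact ⟨y', by rw [hy']; abel⟩
    choose nx hnx using h1
    exact ⟨fun n => Nat.rec g (fun n y => nx n y) n, rfl, fun n => hnx n _⟩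
  have hA : ∀ V : T, (∀ i (f : S i ⟶ V), f = 0) → ∀ g : Z ⟶ V, ∃ ψ : Q ⟶ V,
      (ι 0 ≫ q) ≫ ψ = g := by
    intro V hV g
    obtain ⟨y, hy0, hy⟩ := hext V hV (fun _ => 0) g
    let φ : ∐ F ⟶ V := Sigma.desc fun j => y j.down
    have hφ : ∀ n, ι n ≫ φ = y n := fun n => by simp [φ, ι]
    have h1 : Φ ≫ φ = 0 := by
      apply Sigma.hom_ext
      intro j
      have h2 := hΦ j.down
      have h3 := hy j.down
      change ι j.down ≫ Φ ≫ φ = ι j.down ≫ 0
      rw [← Category.assoc, h2, Preadditive.sub_comp, hφ, Category.assoc, hφ, h3, comp_zero]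
    obtain ⟨ψ, hψ⟩ := ye2 hQ φ h1
    exact ⟨ψ, by rw [Category.assoc, ← hψ, hφ, hy0]⟩
  have hB : ∀ V : T, (∀ i (f : S i ⟶ V), f = 0) → ∀ ψ : Q ⟶ V⟦(1 : ℤ)⟧,
      (ι 0 ≫ q) ≫ ψ = 0 → ψ = 0 := by
    intro V hV ψ h0
    have h1 : ∀ n, (ι n ≫ q) ≫ ψ = 0 := by
      intro n
      induction n with
      | zero => exact h0
      | succ n ih =>
        apply hxs3 n V hV
        rw [← ih, hq n]
        simp only [Category.assoc]
    have h2 : q ≫ ψ = 0 := by
      apply Sigma.hom_ext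
      intro j
      have h3 := h1 j.down
      change ι j.down ≫ q ≫ ψ = ι j.down ≫ 0
      rw [← Category.assoc, h3, comp_zero]
    obtain ⟨χ, hχ⟩ := ye3 hQ ψ h2
    obtain ⟨χ', rfl⟩ := (shiftFunctor T (1 : ℤ)).map_surjective χ
    obtain ⟨y, -, hy⟩ := hext V hV (fun n => ι n ≫ χ') 0
    let φ : ∐ F ⟶ V := Sigma.desc fun j => y j.down
    have hφ : ∀ n, ι n ≫ φ = y n := fun n => by simp [φ, ι]
    have h4 : χ' = Φ ≫ φ := by
      apply Sigma.hom_ext
      intro j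
      have h2 := hΦ j.down
      have h3 := hy j.down
      change ι j.down ≫ χ' = ι j.down ≫ Φ ≫ φ
      rw [← Category.assoc _ Φ, h2, Preadditive.sub_comp, hφ, Category.assoc, hφ, h3]
    rw [hχ, h4, Functor.map_comp, ← Category.assoc, comp31 hQ, zero_comp]
  have hC : ∀ i (f : S i ⟶ Q), f = 0 := by
    intro i f
    have h1 : f ≫ e = 0 := by
      obtain ⟨s, g, hg⟩ := (hS i).shifted F 1 (f ≫ e)
      have h2 : (∑ j ∈ s, g j ≫ (Sigma.ι F j)⟦(1 : ℤ)⟧') ≫ Φ⟦(1 : ℤ)⟧' = 0 := by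
        rw [← hg, Category.assoc, comp31 hQ, comp_zero]
      let g' : ∀ n, S i ⟶ (sq n)⟦(1 : ℤ)⟧ := fun n => if (⟨n⟩ : ULift.{max w v} ℕ) ∈ s then g ⟨n⟩ else 0
      have h3 : ∀ n, (∑ j ∈ s, g j ≫ (Sigma.ι F j)⟦(1 : ℤ)⟧') ≫ (π n)⟦(1 : ℤ)⟧' = g' n := by
        intro n
        rw [Preadditive.sum_comp]
        by_cases hn : (⟨n⟩ : ULift.{max w v} ℕ) ∈ s
        · rw [Finset.sum_eq_single_of_mem _ hn]
          · rw [Category.assoc, ← Functor.map_comp]
            have := hιπ n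
            simp only [ι, π] at this ⊢
            rw [this, CategoryTheory.Functor.map_id, Category.comp_id]
            simp [g', hn]
          · intro j hj hjn
            rw [Category.assoc, ← Functor.map_comp]
            have := hιπ' j.down n (fun h => hjn (by rw [← h]))
            simp only [ι, π] at this ⊢
            rw [this, Functor.map_zero, comp_zero]
        · rw [Finset.sum_eq_zero]
          · simp [g', hn]
          · intro j hj
            rw [Category.assoc, ← Functor.map_comp]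
            have := hιπ' j.down n (fun h => hn (by rw [← h]; exact hj))
            simp only [ι, π] at this ⊢
            rw [this, Functor.map_zero, comp_zero]
      have h4 : ∀ n, (∑ j ∈ s, g j ≫ (Sigma.ι F j)⟦(1 : ℤ)⟧') ≫ (Φ ≫ π (n + 1))⟦(1 : ℤ)⟧' =
          g' (n + 1) - g' n ≫ (xs n)⟦(1 : ℤ)⟧' := by
        intro n
        have h5 : Φ ≫ π (n + 1) = π (n + 1) - π n ≫ xs n := by
          apply Sigma.hom_ext
          intro j
          change ι j.down ≫ Φ ≫ π (n + 1) = ι j.down ≫ (π (n + 1) - π n ≫ xs n)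
          rw [← Category.assoc, hΦ, Preadditive.sub_comp, Preadditive.comp_sub, Category.assoc,
            ← Category.assoc (ι j.down) (π n)]
          congr 1
          by_cases h6 : j.down = n
          · subst h6
            rw [hιπ, hιπ, Category.comp_id, Category.id_comp]
          · rw [hιπ' _ _ (by simpa using h6), hιπ' _ _ h6, comp_zero, zero_comp]
        rw [h5, Functor.map_sub, Preadditive.comp_sub, h3, Functor.map_comp, ← Category.assoc, h3]
      have h5 : (∑ j ∈ s, g j ≫ (Sigma.ι F j)⟦(1 : ℤ)⟧') ≫ (Φ ≫ π 0)⟦(1 : ℤ)⟧' = g' 0 := by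
        have h6 : Φ ≫ π 0 = π 0 := by
          apply Sigma.hom_ext
          intro j
          change ι j.down ≫ Φ ≫ π 0 = ι j.down ≫ π 0
          rw [← Category.assoc, hΦ, Preadditive.sub_comp, Category.assoc,
            hιπ' (j.down + 1) 0 (by omega), comp_zero, sub_zero]
        rw [h6, h3]
      have h7 : ∀ n, g' n = 0 := by
        intro n
        induction n with
        | zero => rw [← h5, Functor.map_comp, ← Category.assoc, h2, zero_comp]
        | succ n ih =>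
          have h8 := h4 n
          rw [Functor.map_comp, ← Category.assoc, h2, zero_comp, ih, zero_comp, sub_zero] at h8
          exact h8.symm
      rw [hg]
      apply Finset.sum_eq_zero
      intro j hj
      have h9 := h7 j.down
      have h10 : g j = 0 := by simpa [g', hj] using h9
      rw [h10, zero_comp]
    obtain ⟨b, hb⟩ := ce3 hQ f h1
    obtain ⟨s, g, hg⟩ := hS i _ F b
    rw [hb, hg, Preadditive.sum_comp]
    apply Finset.sum_eq_zero
    intro j _
    have h2 := hq j.down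
    have h3 := hxs1 j.down i (g j)
    rw [Category.assoc]
    change g j ≫ ι j.down ≫ q = 0
    rw [h2, ← Category.assoc, h3, zero_comp]
  obtain ⟨U, a, d, hU⟩ := distinguished_cocone_triangle₁ (ι 0 ≫ q)
  refine ⟨U, Q, a, ι 0 ≫ q, d, hU, hC, fun V hV g => ?_⟩
  have h1 : d ≫ g⟦(1 : ℤ)⟧' = 0 := by
    apply hB V hV
    rw [← Category.assoc, comp23 hU, zero_comp]
  obtain ⟨l, hl⟩ := ye1' hU g h1
  obtain ⟨ψ, hψ⟩ := hA V hV l
  rw [hl, ← hψ, ← Category.assoc, comp12 hU, zero_comp]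

end

end Pool.Agent.N209.MT
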