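import Pool.Agent.Y116.MT.HomNum

/-!
# Descent along a map whose cone has a nilpotent connecting morphism
-/

set_option autoImplicit false
set_option linter.unusedSectionVars false
set_option linter.unusedSimpArgs false
set_option backward.isDefEq.respectTransparency false
set_option backward.defeqAttrib.useBackward true

open CategoryTheory Limits MonoidalCategory Pretriangulated Triangulated

namespace Pool.Agent.N209.MT

open Pool.Agent.Y116.MT

universe v u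

section Coh

variable {C : Type u} [Category.{v} C] [MonoidalCategory C] [SymmetricCategory C]

lemma exch_left (U W Z P : C) :
    (U ◁ (exch W Z P).hom) ≫ (α_ U (W ⊗ P) Z).inv ≫ ((α_ U W P).inv ▷ Z) =
      (α_ U (W ⊗ Z) P).inv ≫ ((α_ U W Z).inv ▷ P) ≫ (exch (U ⊗ W) Z P).hom := by
  simp only [exch, Iso.trans_hom, whiskerLeftIso_hom, Iso.symm_hom]
  simp only [MonoidalCategory.whiskerLeft_comp, Category.assoc]
  have h1 : (U ⊗ W) ◁ (β_ Z P).hom = (α_ U W (Z ⊗ P)).hom ≫ (U ◁ (W ◁ (β_ Z P).hom)) ≫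
      (α_ U W (P ⊗ Z)).inv := by simp
  rw [h1]
  simp only [Category.assoc]
  have h2 : (α_ U (W ⊗ Z) P).inv ≫ ((α_ U W Z).inv ▷ P) ≫ (α_ (U ⊗ W) Z P).hom ≫
      (α_ U W (Z ⊗ P)).hom = U ◁ (α_ W Z P).hom := by monoidal
  have h3 : (U ◁ (α_ W P Z).inv) ≫ (α_ U (W ⊗ P) Z).inv ≫ ((α_ U W P).inv ▷ Z) =
      (α_ U W (P ⊗ Z)).inv ≫ (α_ (U ⊗ W) P Z).inv := by monoidal
  rw [h3, reassoc_of% h2]

/-- The power of `U ⊗ X`. -/
def kp (U X Z : C) : ∀ n : ℕ, U ⊗ pw X Z n ≅ pw (U ⊗ X) Z n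
  | 0 => Iso.refl _
  | n + 1 => (α_ U (pw X Z n) Z).symm ≪≫ whiskerRightIso (kp U X Z n) Z

lemma mv_kp (U X Z : C) (n : ℕ) : ∀ i : Fin (n + 1),
    (U ◁ mv X Z n i) ≫ (kp U X Z (n + 1)).hom = (kp U X Z (n + 1)).hom ≫ mv (U ⊗ X) Z n i := by
  induction n with
  | zero =>
    intro i
    simp [mv]
  | succ n ih =>
    intro i
    refine Fin.lastCases ?_ (fun j => ?_) i
    · simp
    · rw [mv_castSucc, mv_castSucc]
      have h1 : (kp U X Z (n + 1 + 1)).hom = (α_ U (pw X Z (n + 1)) Z).inv ≫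
          ((kp U X Z (n + 1)).hom ▷ Z) := rfl
      have h2 : (kp U X Z (n + 1)).hom = (α_ U (pw X Z n) Z).inv ≫
          ((kp U X Z n).hom ▷ Z) := rfl
      have h3 : (U ◁ (exch (pw X Z n) Z Z).hom) ≫ (kp U X Z (n + 1 + 1)).hom =
          (kp U X Z (n + 1 + 1)).hom ≫ (exch (pw (U ⊗ X) Z n) Z Z).hom := by
        rw [h1, h2, comp_whiskerRight, ← Category.assoc, ← Category.assoc,
          Category.assoc _ _ ((α_ U (pw X Z n) Z).inv ▷ Z), exch_left]
        simp only [Category.assoc]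
        rw [exch_natural_first]
      have h4 : (U ◁ (mv X Z n j ▷ Z)) ≫ (kp U X Z (n + 1 + 1)).hom =
          (kp U X Z (n + 1 + 1)).hom ≫ (mv (U ⊗ X) Z n j ▷ Z) := by
        rw [h1, Category.assoc, ← comp_whiskerRight, ← ih, comp_whiskerRight,
          associator_inv_naturality_middle_assoc]
      rw [MonoidalCategory.whiskerLeft_comp, Category.assoc, h3, ← Category.assoc, h4,
        Category.assoc]

section

variable [Preadditive C] [MonoidalPreadditive C]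

lemma alt_kp (U X Z : C) (n : ℕ) :
    (U ◁ alt X Z n) ≫ (kp U X Z n).hom = (kp U X Z n).hom ≫ alt (U ⊗ X) Z n := by
  induction n with
  | zero => simp [alt, kp]
  | succ n ih =>
    have h0 : U ◁ alt X Z (n + 1) = ∑ i : Fin (n + 1), ((-1 : ℤ) ^ (n + i.val)) •
        ((U ◁ mv X Z n i) ≫ (U ◁ (alt X Z n ▷ Z))) := by
      change (tensorLeft U).map (alt X Z (n + 1)) = _
      simp only [alt, Functor.map_sum, Functor.map_zsmul, Functor.map_comp]
      rfl
    rw [h0]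
    simp only [alt, Preadditive.sum_comp, Preadditive.comp_sum]
    refine Finset.sum_congr rfl (fun i _ => ?_)
    rw [Preadditive.zsmul_comp, Preadditive.comp_zsmul, ← Category.assoc (kp U X Z (n + 1)).hom,
      ← mv_kp, Category.assoc, Category.assoc]
    congr 2
    have h1 : (kp U X Z (n + 1)).hom = (α_ U (pw X Z n) Z).inv ≫
        ((kp U X Z n).hom ▷ Z) := rfl
    rw [h1, Category.assoc, ← comp_whiskerRight, ← ih, comp_whiskerRight,
      associator_inv_naturality_middle_assoc]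

lemma mv_first {X X' : C} (w : X ⟶ X') (Z : C) (n : ℕ) : ∀ i : Fin (n + 1),
    mv X Z n i ≫ pwMap w Z (n + 1) = pwMap w Z (n + 1) ≫ mv X' Z n i := by
  induction n with
  | zero =>
    intro i
    simp [mv]
  | succ n ih =>
    intro i
    refine Fin.lastCases ?_ (fun j => ?_) i
    · simp
    · rw [mv_castSucc, mv_castSucc]
      have h1 : pwMap w Z (n + 1 + 1) = (pwMap w Z n ▷ Z) ▷ Z := rfl
      have h2 : pwMap w Z (n + 1 + 1) = pwMap w Z (n + 1) ▷ Z := rfl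
      rw [Category.assoc, h1, ← exch_natural_first, ← h1, h2, ← Category.assoc, ← Category.assoc,
        ← comp_whiskerRight, ← comp_whiskerRight, ih]

lemma alt_first {X X' : C} (w : X ⟶ X') (Z : C) (n : ℕ) :
    alt X Z n ≫ pwMap w Z n = pwMap w Z n ≫ alt X' Z n := by
  induction n with
  | zero => simp [alt]
  | succ n ih =>
    simp only [alt, Preadditive.sum_comp, Preadditive.comp_sum]
    refine Finset.sum_congr rfl (fun i _ => ?_)
    rw [Preadditive.zsmul_comp, Preadditive.comp_zsmul, ← Category.assoc (pwMap w Z (n + 1)),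
      ← mv_first, Category.assoc, Category.assoc]
    congr 2
    have h2 : pwMap w Z (n + 1) = pwMap w Z n ▷ Z := rfl
    rw [h2, ← comp_whiskerRight, ← comp_whiskerRight, ih]

lemma pwMap_comp {X X' X'' : C} (w : X ⟶ X') (w' : X' ⟶ X'') (Z : C) (n : ℕ) :
    pwMap (w ≫ w') Z n = pwMap w Z n ≫ pwMap w' Z n := by
  induction n with
  | zero => rfl
  | succ n ih => simp only [pwMap]; rw [ih, comp_whiskerRight]

lemma pwMap_id (X Z : C) (n : ℕ) : pwMap (𝟙 X) Z n = 𝟙 _ := by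
  induction n with
  | zero => rfl
  | succ n ih => simp only [pwMap]; rw [ih]; simp

/-- If the antisymmetrizer vanishes for one first factor `X`, it vanishes for every retract. -/
lemma alt_zero_of_retract {X X' : C} (i : X' ⟶ X) (r : X ⟶ X') (hir : i ≫ r = 𝟙 _) {Z : C} {n : ℕ}
    (h : alt X Z n = 0) : alt X' Z n = 0 := by
  have h1 : pwMap i Z n ≫ pwMap r Z n = 𝟙 _ := by rw [← pwMap_comp, hir, pwMap_id]
  rw [← Category.comp_id (alt X' Z n), ← h1, ← Category.assoc, alt_first, h, comp_zero, zero_comp]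

lemma alt_zero_of_unit (U : C) {Z : C} {n : ℕ} (h : alt (𝟙_ C) Z n = 0) : alt U Z n = 0 := by
  apply alt_zero_of_retract (ρ_ U).inv (ρ_ U).hom (Iso.inv_hom_id _)
  rw [← cancel_epi (kp U (𝟙_ C) Z n).hom, ← alt_kp, h, comp_zero]
  have : U ◁ (0 : pw (𝟙_ C) Z n ⟶ pw (𝟙_ C) Z n) = 0 := (tensorLeft U).map_zero _ _
  rw [this, zero_comp]

end

end Coh

section

variable {C : Type u} [Category.{v} C] [Preadditive C] [HasZeroObject C] [HasShift C ℤ]
  [∀ n : ℤ, (shiftFunctor C n).Additive] [Pretriangulated C] [MonoidalCategory C]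
  [SymmetricCategory C] [TensorTriangulated C] [MonoidalPreadditive C]

variable {Z : C} (δ : Z ⟶ (𝟙_ C)⟦(1 : ℤ)⟧)

/-- The product of a morphism with `δ`. -/
noncomputable def gstar {W T : C} (f : W ⟶ T) : W ⊗ Z ⟶ T⟦(1 : ℤ)⟧ :=
  W ◁ δ ≫ (rShift W (𝟙_ C) 1).hom ≫ ((ρ_ W).hom ≫ f)⟦(1 : ℤ)⟧'

lemma gstar_comp {W W' T : C} (w : W' ⟶ W) (f : W ⟶ T) :
    gstar δ (w ≫ f) = w ▷ Z ≫ gstar δ f := by
  simp only [gstar]
  rw [← Category.assoc (w ▷ Z), ← whisker_exchange, Category.assoc, ← Category.assoc (w ▷ _),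
    rShift_natural_left, Category.assoc, ← Functor.map_comp, rightUnitor_naturality_assoc]

lemma gstar_zsmul {W T : C} (f : W ⟶ T) (k : ℤ) :
    gstar δ (k • f) = k • gstar δ f := by
  simp only [gstar]
  rw [Preadditive.comp_zsmul, Functor.map_zsmul, Preadditive.comp_zsmul, Preadditive.comp_zsmul]

lemma exch_gstar {W T : C} (f : W ⟶ T) :
    (exch W Z Z).hom ≫ gstar δ (gstar δ f) = -gstar δ (gstar δ f) := by
  have h1 : gstar δ (gstar δ f) = (W ⊗ Z) ◁ δ ≫ (W ◁ δ) ▷ ((𝟙_ C)⟦(1 : ℤ)⟧) ≫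
      (rShift (W ⊗ (𝟙_ C)⟦(1 : ℤ)⟧) (𝟙_ C) 1).hom ≫ ((ρ_ (W ⊗ (𝟙_ C)⟦(1 : ℤ)⟧)).hom ≫
        (rShift W (𝟙_ C) 1).hom ≫ ((ρ_ W).hom ≫ f)⟦(1 : ℤ)⟧')⟦(1 : ℤ)⟧' := by
    rw [← Category.assoc ((W ◁ δ) ▷ _), rShift_natural_left]
    simp only [gstar, Category.assoc]
    rw [← Functor.map_comp, rightUnitor_naturality_assoc]
  have h2 : (exch W Z Z).hom ≫ (W ⊗ Z) ◁ δ ≫ (W ◁ δ) ▷ ((𝟙_ C)⟦(1 : ℤ)⟧) =
      -((W ⊗ Z) ◁ δ ≫ (W ◁ δ) ▷ ((𝟙_ C)⟦(1 : ℤ)⟧)) := by
    rw [← Category.assoc, ← exch_natural_left, Category.assoc, ← exch_natural, exch_shift_unit,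
      Preadditive.comp_neg, Preadditive.comp_neg, Category.comp_id, whisker_exchange]
  rw [h1, ← Category.assoc ((W ⊗ Z) ◁ δ), ← Category.assoc (exch W Z Z).hom, h2,
    Preadditive.neg_comp]

/-- Iterated shifts. -/
@[reducible] def shs (T : C) : ℕ → C
  | 0 => T
  | n + 1 => (shs T n)⟦(1 : ℤ)⟧

/-- The product of `f` with the `n`-th power of `δ`. -/
noncomputable def gN {X T : C} (f : X ⟶ T) : ∀ n : ℕ, pw X Z n ⟶ shs T n
  | 0 => f
  | n + 1 => gstar δ (gN f n)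

lemma mv_gN {X T : C} (f : X ⟶ T) (n : ℕ) : ∀ i : Fin (n + 1),
    mv X Z n i ≫ gN δ f (n + 1) = ((-1 : ℤ) ^ (n + i.val)) • gN δ f (n + 1) := by
  induction n with
  | zero =>
    intro i
    obtain rfl : i = 0 := Subsingleton.elim (α := Fin 1) _ _
    simp [mv]
  | succ n ih =>
    intro i
    refine Fin.lastCases ?_ (fun j => ?_) i
    · rw [mv_last, Category.id_comp, Fin.val_last, Even.neg_one_pow ⟨n + 1, rfl⟩, one_zsmul]
    · rw [mv_castSucc, Category.assoc]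
      have h1 : gN δ f (n + 1 + 1) = gstar δ (gstar δ (gN δ f n)) := rfl
      rw [h1, exch_gstar, Preadditive.comp_neg, ← gstar_comp]
      have h2 := ih j
      have h3 : gN δ f (n + 1) = gstar δ (gN δ f n) := rfl
      rw [h3] at h2
      rw [h2, gstar_zsmul, Fin.val_castSucc, show n + 1 + j.val = (n + j.val) + 1 by omega,
        pow_succ]
      simp

lemma alt_gN {X T : C} (f : X ⟶ T) (n : ℕ) :
    alt X Z n ≫ gN δ f n = (n.factorial : ℤ) • gN δ f n := by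
  induction n with
  | zero => simp [alt]
  | succ n ih =>
    have h1 : (alt X Z n ▷ Z) ≫ gN δ f (n + 1) = (n.factorial : ℤ) • gN δ f (n + 1) := by
      have h3 : gN δ f (n + 1) = gstar δ (gN δ f n) := rfl
      rw [h3, ← gstar_comp, ih, gstar_zsmul]
    simp only [alt, Preadditive.sum_comp, Preadditive.zsmul_comp, Category.assoc, h1,
      Preadditive.comp_zsmul, mv_gN]
    rw [Finset.sum_congr rfl (g := fun _ => (n.factorial : ℤ) • gN δ f (n + 1))]
    · rw [Finset.sum_const, Finset.card_univ, Fintype.card_fin, ← natCast_zsmul, smul_smul,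
        Nat.factorial_succ]
      push_cast
      rfl
    · intro i _
      rw [smul_smul, smul_smul, mul_right_comm, ← pow_add,
        Even.neg_one_pow ⟨n + i.val, rfl⟩, one_mul]

lemma zero_of_zsmul' [Linear ℚ C] {X Y : C} (f : X ⟶ Y) (n : ℤ) (hn : n ≠ 0) (h : n • f = 0) :
    f = 0 := by
  have h1 : ((n : ℚ)⁻¹ * (n : ℚ)) • f = 0 := by
    rw [mul_smul, Int.cast_smul_eq_zsmul, h, smul_zero]
  rwa [inv_mul_cancel₀ (by exact_mod_cast hn), one_smul] at h1

/-- The powers of `δ` vanish on every object if the antisymmetrizer vanishes. -/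
lemma gN_zero [Linear ℚ C] {n : ℕ} (h : alt (𝟙_ C) Z n = 0) {X T : C} (f : X ⟶ T) :
    gN δ f n = 0 := by
  have h2 := alt_gN δ f n
  rw [alt_zero_of_unit X h, zero_comp] at h2
  exact zero_of_zsmul' _ _ (by exact_mod_cast Nat.factorial_ne_zero n) h2.symm

end

section Fac

variable {C : Type u} [Category.{v} C]

/-- The morphism `h` factors through an object in `P`. -/
def Fac (P : ObjectProperty C) {X Y : C} (h : X ⟶ Y) : Prop :=
  ∃ (c : C) (_ : P c) (a : X ⟶ c) (b : c ⟶ Y), h = a ≫ b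

lemma Fac.comp_left {P : ObjectProperty C} {X Y W : C} {h : X ⟶ Y} (hh : Fac P h) (g : W ⟶ X) :
    Fac P (g ≫ h) := by
  obtain ⟨c, hc, a, b, rfl⟩ := hh
  exact ⟨c, hc, g ≫ a, b, by simp⟩

lemma Fac.comp_right {P : ObjectProperty C} {X Y W : C} {h : X ⟶ Y} (hh : Fac P h) (g : Y ⟶ W) :
    Fac P (h ≫ g) := by
  obtain ⟨c, hc, a, b, rfl⟩ := hh
  exact ⟨c, hc, a, b ≫ g, by simp⟩

variable [Preadditive C] [HasZeroObject C] [HasShift C ℤ]
  [∀ n : ℤ, (shiftFunctor C n).Additive] [Pretriangulated C] [IsTriangulated C]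
  {P : ObjectProperty C} [P.IsTriangulated]

lemma fac_iff {X Y : C} (h : X ⟶ Y) :
    Fac P h ↔ ∃ (X' : C) (s : X' ⟶ X), P.trW s ∧ s ≫ h = 0 := by
  constructor
  · rintro ⟨c, hc, a, b, rfl⟩
    obtain ⟨X', s, t, hT⟩ := distinguished_cocone_triangle₁ a
    exact ⟨X', s, (P.trW_iff s).2 ⟨_, _, _, hT, hc⟩, by
      rw [← Category.assoc, comp12 hT, zero_comp]⟩
  · rintro ⟨X', s, hs, h0⟩
    obtain ⟨c, g, t, hT, hc⟩ := (P.trW_iff s).1 hs
    obtain ⟨l, hl⟩ := ye2 hT h h0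
    exact ⟨c, hc, g, l, hl⟩

lemma fac_of_trW {X' X Y : C} {s : X' ⟶ X} (hs : P.trW s) {h : X ⟶ Y} (hh : Fac P (s ≫ h)) :
    Fac P h := by
  rw [fac_iff] at hh ⊢
  obtain ⟨X'', s', hs', h0⟩ := hh
  exact ⟨X'', s' ≫ s, P.trW.comp_mem _ _ hs' hs, by rw [Category.assoc, h0]⟩

lemma Fac.shift {X Y : C} {h : X ⟶ Y} (hh : Fac P h) (n : ℤ) : Fac P (h⟦n⟧') := by
  obtain ⟨c, hc, a, b, rfl⟩ := hh
  exact ⟨c⟦n⟧, P.le_shift n _ hc, a⟦n⟧', b⟦n⟧', by rw [Functor.map_comp]⟩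

lemma Fac.unshift {X Y : C} {h : X ⟶ Y} (n : ℤ) (hh : Fac P (h⟦n⟧')) : Fac P h := by
  have h1 := hh.shift (-n)
  have h2 : h = (shiftFunctorCompIsoId C n (-n) (by omega)).inv.app X ≫ ((h⟦n⟧')⟦-n⟧') ≫
      (shiftFunctorCompIsoId C n (-n) (by omega)).hom.app Y := by
    have h3 := (shiftFunctorCompIsoId C n (-n) (by omega)).hom.naturality h
    rw [← Functor.comp_map, h3]
    simp
  rw [h2]
  exact (h1.comp_right _).comp_left _

end Fac

section

variable {C : Type u} [Category.{v} C] [Preadditive C] [HasZeroObject C] [HasShift C ℤ]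
  [∀ n : ℤ, (shiftFunctor C n).Additive] [Pretriangulated C] [IsTriangulated C]
  [MonoidalCategory C]
  [SymmetricCategory C] [TensorTriangulated C] [MonoidalPreadditive C]
  {P : ObjectProperty C} [P.IsTriangulated]

lemma fac_pwMap {X X' : C} {w : X ⟶ X'} (Z : C) (hPZ : ∀ c, P c → P (c ⊗ Z)) (h : Fac P w)
    (n : ℕ) : Fac P (pwMap w Z n) := by
  obtain ⟨c, hc, a, b, rfl⟩ := h
  refine ⟨pw c Z n, ?_, pwMap a Z n, pwMap b Z n, pwMap_comp a b Z n⟩
  induction n with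
  | zero => exact hc
  | succ n ih => exact hPZ _ ih

/-- Descent: if `γ : 𝟙 ⟶ W` has a cone `Z` on which some antisymmetrizer vanishes, and if
`U ⟶ U ⊗ W` factors through an object in `P`, then so does the identity of `U`. -/
theorem fac_id [Linear ℚ C] {W Z : C} {γ : 𝟙_ C ⟶ W} {p : W ⟶ Z} {δ : Z ⟶ (𝟙_ C)⟦(1 : ℤ)⟧}
    (hT : Triangle.mk γ p δ ∈ distTriang C) {N : ℕ} (hN : alt (𝟙_ C) Z N = 0)
    (hPZ : ∀ c, P c → P (c ⊗ Z)) {U : C} (hU : Fac P ((ρ_ U).inv ≫ U ◁ γ)) :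
    Fac P (𝟙 U) := by
  have h1 : ∀ n, Fac P ((pw U Z n) ◁ γ) := by
    intro n
    have h2 := theta_natural U Z γ n
    have h3 : (pw U Z n) ◁ γ = (ρ_ (pw U Z n)).hom ≫ pwMap ((ρ_ U).inv ≫ U ◁ γ) Z n ≫
        (theta U Z W n).inv := by
      rw [← h2]
      simp
    rw [h3]
    exact ((fac_pwMap Z hPZ hU n).comp_right _).comp_left _
  have h2 : ∀ n, Fac P (gN δ (𝟙 U) (n + 1)) → Fac P (gN δ (𝟙 U) n) := by
    intro n hn
    have hTn := tensor_dist (pw U Z n) hT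
    obtain ⟨Y', s, hs, h0⟩ := (fac_iff _).1 ((h1 n).shift 1)
    obtain ⟨k, hk⟩ := ce1 hTn s h0
    have h3 : s ≫ ((ρ_ (pw U Z n)).hom ≫ gN δ (𝟙 U) n)⟦(1 : ℤ)⟧' = k ≫ gN δ (𝟙 U) (n + 1) := by
      rw [hk]
      simp only [gN, gstar, Category.assoc]
    have h4 := (fac_of_trW hs (h3 ▸ hn.comp_left k)).unshift 1
    have h5 := h4.comp_left (ρ_ (pw U Z n)).inv
    rwa [Iso.inv_hom_id_assoc] at h5
  have h3 : ∀ n, Fac P (gN δ (𝟙 U) n) → Fac P (𝟙 U) := by
    intro n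
    induction n with
    | zero => exact id
    | succ n ih => exact fun h => ih (h2 n h)
  apply h3 N
  rw [gN_zero δ hN]
  obtain ⟨c, hc0, hc⟩ := P.exists_prop_of_containsZero
  exact ⟨c, hc, 0, 0, by simp⟩

end

end Pool.Agent.N209.MT
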