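import Pool.Agent.N209.MT.Faith
import Pool.Agent.N209.MT.Conn
import Pool.Agent.N209.MT.Nilp
import Pool.Agent.N209.MT.Hoc

/-!
# Truncation of cones of morphisms between objects in degree zero
-/

set_option autoImplicit false
set_option linter.unusedSectionVars false
set_option linter.unusedSimpArgs false
set_option backward.isDefEq.respectTransparency false
set_option backward.defeqAttrib.useBackward true

open CategoryTheory Limits MonoidalCategory Pretriangulated Triangulated TensorProduct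

namespace Pool.Agent.N209.MT

open Pool.Agent.Y116.MT

universe w v u v' u'

open Functor.LaxMonoidal Functor.OplaxMonoidal

section Pairing

variable {C : Type u} [Category.{v} C] [MonoidalCategory C]
  {D : Type u'} [Category.{v'} D] [MonoidalCategory D] (F : C ⥤ D) [F.Monoidal]

/-- The image of an exact pairing under a monoidal functor. -/
@[reducible] noncomputable def mapPairing (X Y : C) [ExactPairing X Y] :
    ExactPairing (F.obj X) (F.obj Y) where
  coevaluation' := ε F ≫ F.map (η_ X Y) ≫ δ F X Y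
  evaluation' := μ F Y X ≫ F.map (ε_ X Y) ≫ η F
  evaluation_coevaluation' := by
    have h1 : (δ F X Y ▷ F.obj X) ≫ (α_ (F.obj X) (F.obj Y) (F.obj X)).hom ≫
        (F.obj X ◁ μ F Y X) = μ F (X ⊗ Y) X ≫ F.map (α_ X Y X).hom ≫ δ F X (Y ⊗ X) := by
      rw [Functor.Monoidal.map_associator']
      simp only [Category.assoc]
      rw [Functor.Monoidal.whiskerRight_δ_μ_assoc, Functor.Monoidal.whiskerLeft_δ_μ,
        Category.comp_id]
    have h2 := congrArg F.map (ExactPairing.evaluation_coevaluation X Y)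
    simp only [Functor.map_comp] at h2
    simp only [comp_whiskerRight, MonoidalCategory.whiskerLeft_comp, Category.assoc]
    rw [reassoc_of% h1, δ_natural_right_assoc, μ_natural_left_assoc, reassoc_of% h2]
    simp
  coevaluation_evaluation' := by
    have h1 : (F.obj Y ◁ δ F X Y) ≫ (α_ (F.obj Y) (F.obj X) (F.obj Y)).inv ≫
        (μ F Y X ▷ F.obj Y) = μ F Y (X ⊗ Y) ≫ F.map (α_ Y X Y).inv ≫ δ F (Y ⊗ X) Y := by
      rw [Functor.Monoidal.map_associator_inv']
      simp only [Category.assoc]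
      rw [Functor.Monoidal.whiskerLeft_δ_μ_assoc, Functor.Monoidal.whiskerRight_δ_μ,
        Category.comp_id]
    have h2 := congrArg F.map (ExactPairing.coevaluation_evaluation X Y)
    simp only [Functor.map_comp] at h2
    simp only [comp_whiskerRight, MonoidalCategory.whiskerLeft_comp, Category.assoc]
    rw [reassoc_of% h1, δ_natural_left_assoc, μ_natural_right_assoc, reassoc_of% h2]
    simp

end Pairing

section Deg

variable {C : Type u} [Category.{v} C] [Preadditive C] [HasZeroObject C] [HasShift C ℤ]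
  [∀ n : ℤ, (shiftFunctor C n).Additive] [Pretriangulated C] [MonoidalCategory C]
  [SymmetricCategory C] [TensorTriangulated C]
  {E : Type w} [Field E] {R : Realisation C E} {W : C} {γ : 𝟙_ C ⟶ W}

lemma mono_gamma (hγ : R.H.map γ ≠ 0) : Mono (R.H.map γ) := by
  rw [ModuleCat.mono_iff_injective, injective_iff_map_eq_zero]
  intro x hx
  by_contra hx0
  apply hγ
  obtain ⟨c, hc⟩ := (ConcreteCategory.bijective_of_isIso (Functor.LaxMonoidal.ε R.H)).2 x
  have hc0 : (c : E) ≠ 0 := by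
    intro h
    apply hx0
    rw [← hc]
    change Functor.LaxMonoidal.ε R.H (c : E) = 0
    rw [h]
    exact map_zero (Functor.LaxMonoidal.ε R.H).hom
  ext y
  obtain ⟨d, hd⟩ := (ConcreteCategory.bijective_of_isIso (Functor.LaxMonoidal.ε R.H)).2 y
  have h1 : y = ((d : E) * (c : E)⁻¹) • x := by
    rw [← hd, ← hc]
    have h2 : (Functor.LaxMonoidal.ε R.H).hom (((d : E) * (c : E)⁻¹) • (c : E)) =
        ((d : E) * (c : E)⁻¹) • (Functor.LaxMonoidal.ε R.H).hom (c : E) :=
      (Functor.LaxMonoidal.ε R.H).hom.map_smul _ _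
    rw [smul_eq_mul, mul_assoc, inv_mul_cancel₀ hc0, mul_one] at h2
    exact h2
  rw [h1]
  have h3 : (R.H.map γ).hom (((d : E) * (c : E)⁻¹) • x) =
      ((d : E) * (c : E)⁻¹) • (R.H.map γ).hom x := (R.H.map γ).hom.map_smul _ _
  have h4 : (R.H.map γ).hom x = 0 := hx
  rw [h4, smul_zero] at h3
  exact h3

/-- The map `γ ▷ X` is injective on cohomology. -/
lemma isZero_of_gamma (hW : R.Deg W 0) (hγ : R.H.map γ ≠ 0) {X : C} {i : ℤ}
    (h : R.H.map ((γ ▷ X)⟦i⟧') = 0) : IsZero (R.H.obj (X⟦i⟧)) := by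
  have h1 : R.H.map (γ ▷ (X⟦i⟧)) = 0 := by
    rw [← cancel_mono (R.H.map (rShift W X i).hom), ← Functor.map_comp, rShift_natural_left,
      Functor.map_comp, h, comp_zero, zero_comp]
  have h2 := hW.isIso_mu (X⟦i⟧)
  have h3 : R.H.map γ ▷ R.H.obj (X⟦i⟧) = 0 := by
    rw [← cancel_mono (μ R.H W (X⟦i⟧)), μ_natural_left, h1, comp_zero, zero_comp]
  obtain ⟨s, hs⟩ : ∃ s, R.H.map γ s ≠ 0 := by
    by_contra hc
    push Not at hc
    exact hγ (by ext x; simpa using hc x)
  rw [ModuleCat.isZero_iff_subsingleton]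
  constructor
  intro m n
  by_contra hmn
  have h4 : (R.H.map γ s) ⊗ₜ[E] (m - n) = 0 :=
    ConcreteCategory.congr_hom h3 (s ⊗ₜ[E] (m - n))
  exact tmul_ne_zero_of_field hs (sub_ne_zero.2 hmn) h4

/-- An object `X` such that `γ ▷ X` factors through an object in degree `n` is in degree `n`. -/
lemma deg_of_factor (hW : R.Deg W 0) (hγ : R.H.map γ ≠ 0) {X c : C} {n : ℤ} (hc : R.Deg c n)
    {a : X ⟶ c} {b : c ⟶ W ⊗ X} (h : (λ_ X).inv ≫ (γ ▷ X) = a ≫ b) : R.Deg X n := by
  intro i hi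
  apply isZero_of_gamma hW hγ
  rw [← cancel_epi (R.H.map ((λ_ X).inv⟦i⟧')), ← Functor.map_comp, ← Functor.map_comp, h,
    Functor.map_comp, Functor.map_comp, (hc i hi).eq_of_tgt (R.H.map (a⟦i⟧')) 0, zero_comp,
    comp_zero]

lemma deg_cone_gamma (hW : R.Deg W 0) (hγ : R.H.map γ ≠ 0) {Z : C} {p : W ⟶ Z}
    {d : Z ⟶ (𝟙_ C)⟦(1 : ℤ)⟧} (hT : Triangle.mk γ p d ∈ distTriang C) : R.Deg Z 0 := by
  intro n hn
  by_cases hn1 : n + 1 = 0
  · obtain rfl : n = -1 := by omega
    refine hmid R.H (rotD hT) (-1) ((hW (-1) hn).eq_of_src _ _) ?_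
    have h1 := mono_gamma hγ
    have h2 : d⟦(-1 : ℤ)⟧' ≫ (γ⟦(1 : ℤ)⟧')⟦(-1 : ℤ)⟧' = 0 := by
      rw [← Functor.map_comp, comp31 hT, Functor.map_zero]
    have h3 : (γ⟦(1 : ℤ)⟧')⟦(-1 : ℤ)⟧' ≫ (shiftFunctorCompIsoId C (1 : ℤ) (-1) (by omega)).hom.app W
        = (shiftFunctorCompIsoId C (1 : ℤ) (-1) (by omega)).hom.app (𝟙_ C) ≫ γ :=
      (shiftFunctorCompIsoId C (1 : ℤ) (-1) (by omega)).hom.naturality γ
    have h4 : (d⟦(-1 : ℤ)⟧' ≫ (shiftFunctorCompIsoId C (1 : ℤ) (-1) (by omega)).hom.app (𝟙_ C)) ≫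
        γ = 0 := by
      rw [Category.assoc, ← h3, ← Category.assoc, h2, zero_comp]
    have h5 : R.H.map (d⟦(-1 : ℤ)⟧' ≫
        (shiftFunctorCompIsoId C (1 : ℤ) (-1) (by omega)).hom.app (𝟙_ C)) = 0 := by
      rw [← cancel_mono (R.H.map γ), ← Functor.map_comp, h4, Functor.map_zero, zero_comp]
    rw [← cancel_mono (R.H.map ((shiftFunctorCompIsoId C (1 : ℤ) (-1) (by omega)).hom.app (𝟙_ C))),
      ← Functor.map_comp, zero_comp]
    exact h5
  · exact hz3 R.H hT n (hW n hn) (deg_unit (n + 1) hn1)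

end Deg

end Pool.Agent.N209.MT
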