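import Pool.Agent.N209.MT.Emb

/-!
# Truncation of cones of morphisms between objects in degree zero, part 2
-/

set_option autoImplicit false
set_option linter.unusedSectionVars false
set_option linter.unusedSimpArgs false
set_option backward.isDefEq.respectTransparency false
set_option backward.defeqAttrib.useBackward true

open CategoryTheory Limits MonoidalCategory Pretriangulated Triangulated

namespace Pool.Agent.N209.MT

open Pool.Agent.Y116.MT

universe w v u v' u'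

open Functor.LaxMonoidal Functor.OplaxMonoidal

section GT

variable {T : Type u'} [Category.{v'} T] [MonoidalCategory T]

/-- Multiplication with `γ`. -/
def gT {W : T} (γ : 𝟙_ T ⟶ W) (Y : T) : Y ⟶ W ⊗ Y := (λ_ Y).inv ≫ γ ▷ Y

lemma gT_nat {W : T} (γ : 𝟙_ T ⟶ W) {Y Y' : T} (f : Y ⟶ Y') :
    f ≫ gT γ Y' = gT γ Y ≫ W ◁ f := by
  rw [gT, gT, Category.assoc, leftUnitor_inv_naturality_assoc, whisker_exchange]

end GT

section

variable {C : Type u} [Category.{v} C] [MonoidalCategory C]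
  {T : Type u'} [Category.{v'} T] [MonoidalCategory T] (ι : C ⥤ T) [ι.Monoidal]

lemma gT_map {W : C} (γ : 𝟙_ C ⟶ W) (X : C) :
    gT (Functor.LaxMonoidal.ε ι ≫ ι.map γ) (ι.obj X) ≫ μ ι W X = ι.map (gT γ X) := by
  simp only [gT, comp_whiskerRight, Category.assoc, Functor.map_comp]
  rw [μ_natural_left, Functor.Monoidal.map_leftUnitor_inv]
  simp only [Category.assoc]

lemma factor_of_gT [ι.Full] [ι.Faithful] {W : C} (γ : 𝟙_ C ⟶ W) {X c : C} {Y : T} (e : Y ≅ ι.obj X)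
    {a : Y ⟶ ι.obj c} {b : ι.obj c ⟶ ι.obj W ⊗ Y}
    (h : gT (Functor.LaxMonoidal.ε ι ≫ ι.map γ) Y = a ≫ b) :
    ∃ (a' : X ⟶ c) (b' : c ⟶ W ⊗ X), gT γ X = a' ≫ b' := by
  obtain ⟨a', ha'⟩ := ι.map_surjective (e.inv ≫ a)
  obtain ⟨b', hb'⟩ := ι.map_surjective (b ≫ (ι.obj W ◁ e.hom) ≫ μ ι W X)
  refine ⟨a', b', ι.map_injective ?_⟩
  have h1 : gT (Functor.LaxMonoidal.ε ι ≫ ι.map γ) (ι.obj X) =
      e.inv ≫ gT (Functor.LaxMonoidal.ε ι ≫ ι.map γ) Y ≫ (ι.obj W ◁ e.hom) := by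
    rw [← gT_nat, Iso.inv_hom_id_assoc]
  rw [Functor.map_comp, ha', hb', ← gT_map, h1, h]
  simp only [Category.assoc]

end

section

variable {C : Type u} [Category.{v} C] [Preadditive C] [HasZeroObject C] [HasShift C ℤ]
  [∀ n : ℤ, (shiftFunctor C n).Additive] [Pretriangulated C] [MonoidalCategory C]
  [SymmetricCategory C] [TensorTriangulated C] [MonoidalPreadditive C] [RightRigidCategory C]
  {E : Type w} [Field E] {R : Realisation C E}
  {T : Type u'} [Category.{v'} T] [Preadditive T] [HasZeroObject T] [HasShift T ℤ]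
  [∀ n : ℤ, (shiftFunctor T n).Additive] [Pretriangulated T] [IsTriangulated T]
  [MonoidalCategory T] [SymmetricCategory T] [TensorTriangulated T] [MonoidalPreadditive T]
  (ι : C ⥤ T) [ι.Full] [ι.Faithful] [ι.Braided] [ι.CommShift ℤ] [ι.IsTriangulated]

/-- The objects of `T` without morphisms from the objects of `C` in negative degrees. -/
def Perp (R : Realisation C E) (V : T) : Prop :=
  ∀ (G : C) (a : ℤ), a < 0 → R.Deg G a → ∀ f : ι.obj G ⟶ V, f = 0

variable {ι}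

omit [IsTriangulated T] [MonoidalCategory T] [SymmetricCategory T] [TensorTriangulated T]
  [MonoidalPreadditive T] [ι.Full] [ι.Faithful] [ι.Braided] [ι.IsTriangulated] in
lemma Perp.shift {V : T} (hV : Perp ι R V) : Perp ι R (V⟦(-1 : ℤ)⟧) := by
  intro G a ha hG f
  apply (shiftFunctor T (1 : ℤ)).map_injective
  rw [Functor.map_zero]
  have h1 := hV (G⟦(1 : ℤ)⟧) (a - 1) (by omega) (hG.shift 1 (a - 1) (by omega))
    ((ι.commShiftIso (1 : ℤ)).hom.app G ≫ f⟦(1 : ℤ)⟧' ≫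
      (shiftFunctorCompIsoId T (-1 : ℤ) 1 (by omega)).hom.app V)
  rw [← cancel_epi ((ι.commShiftIso (1 : ℤ)).hom.app G),
    ← cancel_mono ((shiftFunctorCompIsoId T (-1 : ℤ) 1 (by omega)).hom.app V)]
  simpa using h1

lemma perp_obj (hf : FaithfulNonpos R) {X : C} (hX : R.Deg X 0) : Perp ι R (ι.obj X) := by
  intro G a ha hG f
  obtain ⟨f', rfl⟩ := ι.map_surjective f
  have h1 : f' = 0 := by
    apply (shiftFunctor C a).map_injective
    rw [Functor.map_zero]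
    exact neg_vanish hf (hG.shift a 0 (by omega)) hX ha _
  rw [h1, Functor.map_zero]

lemma perp_tensor {V : T} (hV : Perp ι R V) {W : C} (hW : R.Deg W 0) :
    Perp ι R (ι.obj W ⊗ V) := by
  intro G a ha hG f
  let _ : ExactPairing (ι.obj W) (ι.obj Wᘁ) := mapPairing ι W Wᘁ
  have hD : R.Deg (Wᘁ : C) 0 := deg_dual (G := W) hW
  have h1 : (tensorLeftHomEquiv (ι.obj G) (ι.obj W) (ι.obj Wᘁ) V).symm f = 0 := by
    rw [← cancel_epi (Functor.OplaxMonoidal.δ ι (Wᘁ : C) G), comp_zero]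
    exact hV (Wᘁ ⊗ G) a ha (by simpa using hD.tensor hG) _
  have h2 := (tensorLeftHomEquiv (ι.obj G) (ι.obj W) (ι.obj Wᘁ) V).apply_symm_apply f
  rw [h1] at h2
  rw [← h2]
  simp [tensorLeftHomEquiv]

/-- If the identity of `U` factors through an object of the image of `ι`, then `U` is in the
image, up to isomorphism. -/
lemma of_fac_id [IsIdempotentComplete C] {U : T} (h : Fac ι.essImage (𝟙 U)) :
    ∃ (U₀ : C), Nonempty (U ≅ ι.obj U₀) := by
  obtain ⟨c, ⟨c₀, ⟨e⟩⟩, a, b, hab⟩ := h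
  obtain ⟨f, hf⟩ := ι.map_surjective (e.hom ≫ b ≫ a ≫ e.inv)
  have h1 : f ≫ f = f := by
    apply ι.map_injective
    rw [Functor.map_comp, hf]
    simp only [Category.assoc, Iso.inv_hom_id_assoc]
    rw [← Category.assoc a b, ← hab, Category.id_comp]
  obtain ⟨U₀, i, r, hir, hri⟩ := IsIdempotentComplete.idempotents_split c₀ f h1
  refine ⟨U₀, ⟨a ≫ e.inv ≫ ι.map r, ι.map i ≫ e.hom ≫ b, ?_, ?_⟩⟩
  · have h2 : ι.map r ≫ ι.map i = e.hom ≫ b ≫ a ≫ e.inv := by rw [← Functor.map_comp, hri, hf]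
    simp only [Category.assoc]
    rw [reassoc_of% h2]
    simp only [Iso.inv_hom_id_assoc, Iso.hom_inv_id_assoc, Category.assoc]
    rw [← Category.assoc a b, ← hab, Category.id_comp]
  · have h2 : ι.map i ≫ (e.hom ≫ b ≫ a ≫ e.inv) ≫ ι.map r = 𝟙 _ := by
      rw [← hf, ← Functor.map_comp, ← Functor.map_comp, ← hri]
      have h3 : i ≫ (r ≫ i) ≫ r = 𝟙 _ := by
        rw [Category.assoc, hir, Category.comp_id, hir]
      rw [h3, CategoryTheory.Functor.map_id]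
    simpa only [Category.assoc] using h2

end

section Main

variable {C : Type u} [Category.{v} C] [Preadditive C] [HasZeroObject C] [HasShift C ℤ]
  [∀ n : ℤ, (shiftFunctor C n).Additive] [Pretriangulated C] [MonoidalCategory C]
  [SymmetricCategory C] [TensorTriangulated C] [MonoidalPreadditive C] [RightRigidCategory C]
  [IsIdempotentComplete C]
  {E : Type w} [Field E] {R : Realisation C E}
  {T : Type u'} [Category.{v'} T] [Preadditive T] [HasZeroObject T] [HasShift T ℤ]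
  [∀ n : ℤ, (shiftFunctor T n).Additive] [Pretriangulated T] [IsTriangulated T]
  [MonoidalCategory T] [SymmetricCategory T] [TensorTriangulated T] [MonoidalPreadditive T]
  [Linear ℚ T] [HasCoproducts.{max u v'} T]
  (ι : C ⥤ T) [ι.Full] [ι.Faithful] [ι.Braided] [ι.CommShift ℤ] [ι.IsTriangulated]
  (hc : ∀ X : C, IsCompactObj.{max u v'} (ι.obj X))

include hc

/-- The cone of a morphism between objects in degree zero has a truncation. -/
theorem trunc_data (hf : FaithfulNonpos R) {V V' Z : C} {f : V ⟶ V'} {j : V' ⟶ Z}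
    {d : Z ⟶ V⟦(1 : ℤ)⟧} (hT : Triangle.mk f j d ∈ distTriang C) (hV : R.Deg V 0)
    (hV' : R.Deg V' 0) :
    ∃ (U Q : C) (u : U ⟶ Z) (q : Z ⟶ Q) (e : Q ⟶ U⟦(1 : ℤ)⟧),
      Triangle.mk u q e ∈ distTriang C ∧ R.Deg U (-1) ∧ R.Deg Q 0 := by
  obtain ⟨W, γ, hW, hγ, p, q, hpq⟩ := gamma_cone hf hT hV hV'
  obtain ⟨ZW, pW, dW, hTW⟩ := distinguished_cocone_triangle γ
  have hZW : R.Deg ZW 0 := deg_cone_gamma hW hγ hTW
  obtain ⟨N, hN⟩ := alt_deg_zero hf hZW
  -- the morphism γ in T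
  let g : 𝟙_ T ⟶ ι.obj W := Functor.LaxMonoidal.ε ι ≫ ι.map γ
  have hadd : ι.Additive := inferInstance
  have hgT : ∃ δ : ι.obj ZW ⟶ (𝟙_ T)⟦(1 : ℤ)⟧, Triangle.mk g (ι.map pW) δ ∈ distTriang T := by
    have h1 := ι.map_distinguished _ hTW
    refine ⟨ι.map dW ≫ (ι.commShiftIso (1 : ℤ)).hom.app _ ≫
      (Functor.OplaxMonoidal.η ι)⟦(1 : ℤ)⟧', isomorphic_distinguished _ h1 _ ?_⟩
    refine Triangle.isoMk _ _ (Functor.Monoidal.εIso ι) (Iso.refl _) (Iso.refl _) ?_ ?_ ?_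
    · simp [g]
    · simp
    · simp [← Functor.map_comp]
  obtain ⟨δ, hδ⟩ := hgT
  have hNT : alt (𝟙_ T) (ι.obj ZW) N = 0 := by
    have h1 : ∀ n, IsIso (kap ι (𝟙_ C) ZW n) := by
      intro n
      induction n with
      | zero => simp only [kap]; infer_instance
      | succ n ih => simp only [kap]; infer_instance
    have h2 : alt (ι.obj (𝟙_ C)) (ι.obj ZW) N = 0 := by
      have := h1 N
      rw [← cancel_mono (kap ι (𝟙_ C) ZW N), alt_lax, hN, Functor.map_zero, comp_zero, zero_comp]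
    exact alt_zero_of_retract (Functor.LaxMonoidal.ε ι) (Functor.OplaxMonoidal.η ι) (by simp) h2
  -- truncation in T
  let I := {G : C // ∃ a : ℤ, a < 0 ∧ R.Deg G a}
  obtain ⟨U', Q', a, b, dd, hT', hQ', hU'⟩ := trunc_exists (fun i : I => ι.obj i.1)
    (fun i => hc i.1) (ι.obj Z)
  have hQp : Perp ι R Q' := fun G n hn hG f => hQ' ⟨G, n, hn, hG⟩ f
  have hUp : ∀ V : T, Perp ι R V → ∀ x : U' ⟶ V, x = 0 := fun V hV x =>
    hU' V (fun i f => by obtain ⟨G, n, hn, hG⟩ := i; exact hV G n hn hG f) x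
  have hUp' : ∀ V : T, Perp ι R V → ∀ x : U'⟦(1 : ℤ)⟧ ⟶ V, x = 0 := by
    intro V hV x
    have h1 := hUp _ hV.shift
      ((shiftFunctorCompIsoId T (1 : ℤ) (-1) (by omega)).inv.app U' ≫ x⟦(-1 : ℤ)⟧')
    have h2 : x⟦(-1 : ℤ)⟧' = 0 := by
      rw [← cancel_epi ((shiftFunctorCompIsoId T (1 : ℤ) (-1) (by omega)).inv.app U'), h1,
        comp_zero]
    apply (shiftFunctor T (-1 : ℤ)).map_injective
    rw [h2, Functor.map_zero]
  have hWQ : Perp ι R (ι.obj W ⊗ Q') := perp_tensor hQp hW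
  have hTT := tensor_dist (ι.obj W) hT'
  -- decomposition of γ on ι Z
  have hZ : gT g (ι.obj Z) = ι.map d ≫ ι.map p ≫ Functor.OplaxMonoidal.δ ι W Z +
      ι.map q ≫ Functor.OplaxMonoidal.δ ι W V' ≫ (ι.obj W ◁ ι.map j) := by
    have h1 : gT g (ι.obj Z) = ι.map (gT γ Z) ≫ Functor.OplaxMonoidal.δ ι W Z := by
      rw [← gT_map, Category.assoc, Functor.Monoidal.μ_δ, Category.comp_id]
    rw [h1, show gT γ Z = d ≫ p + q ≫ (W ◁ j) from hpq, Functor.map_add, Preadditive.add_comp,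
      Functor.map_comp, Functor.map_comp, Category.assoc, Category.assoc,
      Functor.OplaxMonoidal.δ_natural_right]
  have hWV : R.Deg (W ⊗ V') 0 := by simpa using hW.tensor hV'
  have haq : a ≫ ι.map q = 0 := hUp _ (perp_obj hf hWV) _
  have hpb : (ι.map p ≫ Functor.OplaxMonoidal.δ ι W Z) ≫ (ι.obj W ◁ b) = 0 :=
    hWQ _ (-1) (by omega) (hV.shift 1 (-1) (by omega)) _
  -- the map on U'
  obtain ⟨π', hπ'⟩ := ce2 hTT _ hpb
  have hU1 : gT g U' = (a ≫ ι.map d) ≫ π' := by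
    rw [← sub_eq_zero]
    have h1 : (gT g U' - (a ≫ ι.map d) ≫ π') ≫ (ι.obj W ◁ a) = 0 := by
      rw [Preadditive.sub_comp, ← gT_nat, hZ, Preadditive.comp_add, Category.assoc _ π', ← hπ',
        Category.assoc, add_sub_cancel_left, ← Category.assoc, haq, zero_comp]
    apply (shiftFunctor T (1 : ℤ)).map_injective
    rw [Functor.map_zero]
    obtain ⟨k, hk⟩ := ce1 hTT ((gT g U' - (a ≫ ι.map d) ≫ π')⟦(1 : ℤ)⟧')
      (by rw [← Functor.map_comp, h1, Functor.map_zero])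
    rw [hk, hUp' _ hWQ k, zero_comp]
  -- the map on Q'
  obtain ⟨q', hq'⟩ := ye2 hT' _ haq
  have hQ1 : gT g Q' = q' ≫ (Functor.OplaxMonoidal.δ ι W V' ≫ (ι.obj W ◁ ι.map j)) ≫
      (ι.obj W ◁ b) := by
    rw [← sub_eq_zero]
    have h1 : b ≫ (gT g Q' - q' ≫ (Functor.OplaxMonoidal.δ ι W V' ≫ (ι.obj W ◁ ι.map j)) ≫
        (ι.obj W ◁ b)) = 0 := by
      rw [Preadditive.comp_sub, gT_nat, hZ, Preadditive.add_comp, Category.assoc (ι.map d), hpb,
        comp_zero, zero_add, ← Category.assoc b q', ← hq', Category.assoc, sub_self]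
    obtain ⟨k, hk⟩ := ye3 hT' _ h1
    rw [hk, hUp' _ hWQ k, comp_zero]
  -- U' is in the image of C
  have hPZ : ∀ c, ι.essImage c → ι.essImage (c ⊗ ι.obj ZW) := by
    rintro c ⟨c₀, ⟨e⟩⟩
    exact ⟨c₀ ⊗ ZW, ⟨(Functor.Monoidal.μIso ι c₀ ZW).symm ≪≫ whiskerRightIso e _⟩⟩
  have hfac : Fac ι.essImage ((ρ_ U').inv ≫ U' ◁ g) := by
    have h1 : (ρ_ U').inv ≫ U' ◁ g = gT g U' ≫ (β_ (ι.obj W) U').hom := by
      rw [gT, Category.assoc, BraidedCategory.braiding_naturality_left,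
        leftUnitor_inv_braiding_assoc]
    rw [h1, hU1]
    exact ⟨ι.obj (V⟦(1 : ℤ)⟧), ⟨_, ⟨Iso.refl _⟩⟩, a ≫ ι.map d, π' ≫ (β_ (ι.obj W) U').hom,
      by simp only [Category.assoc]⟩
  obtain ⟨U₀, ⟨eU⟩⟩ := of_fac_id (fac_id hδ hNT hPZ hfac)
  obtain ⟨u, hu⟩ := ι.map_surjective (eU.inv ≫ a)
  obtain ⟨Q₀, q₀, e₀, hT₀⟩ := distinguished_cocone_triangle u
  have hT₁ := ι.map_distinguished _ hT₀
  obtain ⟨e, -⟩ := exists_iso_of_arrow_iso _ _ hT' hT₁
    (Arrow.isoMk eU (Iso.refl _) (by simp [hu]))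
  let eQ : Q' ≅ ι.obj Q₀ := Triangle.π₃.mapIso e
  refine ⟨U₀, Q₀, u, q₀, e₀, hT₀, ?_, ?_⟩
  · obtain ⟨a', b', hab⟩ := factor_of_gT ι γ (c := V⟦(1 : ℤ)⟧) eU hU1
    exact deg_of_factor hW hγ (hV.shift 1 (-1) (by omega)) hab
  · obtain ⟨a', b', hab⟩ := factor_of_gT ι γ (c := W ⊗ V') eQ hQ1
    exact deg_of_factor hW hγ hWV hab

end Main

end Pool.Agent.N209.MT
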