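import Pool.Agent.Y116.MT.Deg

/-!
# Objects all of whose realisations are in degree zero
-/

set_option autoImplicit false

open CategoryTheory Limits MonoidalCategory Pretriangulated Triangulated

namespace Pool.Agent.N209.MT

open Pool.Agent.Y116.MT

universe v u w

section

variable {C : Type u} [Category.{v} C] [Preadditive C] [HasZeroObject C] [HasShift C ℤ]
  [∀ n : ℤ, (shiftFunctor C n).Additive] [Pretriangulated C] [MonoidalCategory C]
  [SymmetricCategory C] [TensorTriangulated C]

/-- The objects `X` such that all realisations of `X` are concentrated in degree zero. -/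
def DegreeZero {Λ : Type*} {E : Λ → Type w} [∀ l, Field (E l)]
    (R : ∀ l, Realisation C (E l)) : ObjectProperty C :=
  fun X => ∀ l, (R l).Deg X 0

end

end Pool.Agent.N209.MT
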