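import Pool.Agent.N209.MT.Conn
import Pool.Agent.N209.MT.Dev
import Pool.Agent.N209.MT.IndepDefs

/-!
# A t-structure which is motivic for one realisation
-/

set_option autoImplicit false
set_option linter.unusedSectionVars false
set_option linter.unusedSimpArgs false
set_option backward.isDefEq.respectTransparency false
set_option backward.defeqAttrib.useBackward true

open CategoryTheory Limits MonoidalCategory Pretriangulated Triangulated

namespace Pool.Agent.N209.MT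

open Pool.Agent.Y116.MT

universe v u w

section

variable {C : Type u} [Category.{v} C] [Preadditive C] [HasZeroObject C] [HasShift C ℤ]
  [∀ n : ℤ, (shiftFunctor C n).Additive] [Pretriangulated C] [MonoidalCategory C]
  [SymmetricCategory C] [TensorTriangulated C] [MonoidalPreadditive C] [RightRigidCategory C]
  [IsTriangulated C] [Linear ℚ C] {t : TStructure C}
  {Λ : Type*} {E : Λ → Type w} [∀ l, Field (E l)] {R : ∀ l, Realisation C (E l)}

lemma vanish_ext {E₀ : Type w} [Field E₀] (R₀ : Realisation C E₀) (S : ℤ → Prop)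
    {P : ObjectProperty C} (hP : ∀ X, P X → ∀ i, S i → IsZero (R₀.H.obj (X⟦i⟧))) :
    ∀ X, ec P X → ∀ i, S i → IsZero (R₀.H.obj (X⟦i⟧)) := by
  intro X hX
  have h1 : ec P ≤ (fun X => ∀ i, S i → IsZero (R₀.H.obj (X⟦i⟧))) :=
    ec_le hP (fun hT hX hZ i hi => hz2 R₀.H hT i (hX i hi) (hZ i hi))
  exact h1 X hX

lemma isZero_retract {E₀ : Type w} [Field E₀] (R₀ : Realisation C E₀) {X Y : C} {i : ℤ}
    (a : X ⟶ Y) (b : Y ⟶ X) (hab : a ≫ b = 𝟙 X) (hY : IsZero (R₀.H.obj (Y⟦i⟧))) :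
    IsZero (R₀.H.obj (X⟦i⟧)) := by
  rw [IsZero.iff_id_eq_zero]
  have h1 : 𝟙 (R₀.H.obj (X⟦i⟧)) = R₀.H.map (a⟦i⟧') ≫ R₀.H.map (b⟦i⟧') := by
    rw [← Functor.map_comp, ← Functor.map_comp, hab, CategoryTheory.Functor.map_id,
      CategoryTheory.Functor.map_id]
  rw [h1, hY.eq_of_tgt (R₀.H.map (a⟦i⟧')) 0, zero_comp]

variable (hid : ∀ e : 𝟙_ C ⟶ 𝟙_ C, e ≫ e = e → e = 0 ∨ e = 𝟙 _)

include hid in
lemma degreeZero_hrt {l : Λ} (h : IsMotivic t (fun _ : Unit => R l)) {X : C}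
    (hX : (R l).Deg X 0) : Hrt t X := by
  have ht : TensorCompat t := ⟨h.tensor_le, h.tensor_ge⟩
  have hu : Hrt t (𝟙_ C) := unit_hrt ht h.nondeg_le h.nondeg_ge
  have he : TExact t (R l) := ⟨h.exact_le (), h.exact_ge ()⟩
  exact ⟨isLE_of_H ht he hu hid h.nondeg_le h.nondeg_ge fun i hi => hX i (by omega),
    isGE_of_H ht he hu hid h.nondeg_le h.nondeg_ge fun i hi => hX i (by omega)⟩

include hid in
/-- The objects in degree zero for all realisations form an admissible class. -/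
theorem adm_degreeZero {l : Λ} (h : IsMotivic t (fun _ : Unit => R l)) :
    Adm (DegreeZero R) := by
  have ht : TensorCompat t := ⟨h.tensor_le, h.tensor_ge⟩
  have hu : Hrt t (𝟙_ C) := unit_hrt ht h.nondeg_le h.nondeg_ge
  have he : TExact t (R l) := ⟨h.exact_le (), h.exact_ge ()⟩
  have hh : ∀ X, DegreeZero R X → Hrt t X := fun X hX => degreeZero_hrt hid h (hX l)
  refine ⟨⟨fun e hX l => (hX l).iso e⟩, ⟨⟨_, isZero_zero C, fun l i hi => ?_⟩⟩, ?_, ?_⟩
  · exact (R l).H.map_isZero ((shiftFunctor C i).map_isZero (isZero_zero C))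
  · intro X Y hX hY n hn f
    have h1 : t.IsGE (Y⟦n⟧) (-n) := @TStructure.isGE_shift _ _ _ _ _ _ _ t Y 0 n (-n)
      (by omega) (hh Y hY).2
    exact t.zero_of_isLE_of_isGE _ 0 (-n) (by omega) (hh X hX).1 h1
  · intro Y N M a f b hT hN hM
    have hN' := hh N hN
    have hM' := hh M hM
    have hY0 : t.IsGE Y 0 := isGE1 hT hN'.2 (@TStructure.isGE_of_ge _ _ _ _ _ _ _ t M (0 - 1) 0
      (by omega) hM'.2)
    have hY1 : t.IsLE Y 1 := isLE1 hT (@TStructure.isLE_of_le _ _ _ _ _ _ _ t N 0 1 (by omega)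
      hN'.1) hM'.1
    obtain ⟨K, Q, hK, hQ, i, p, d, hT'⟩ := t.exists_triangle Y 0 1 rfl
    have hK1 : t.IsLE K 0 := ⟨hK⟩
    have hQ1 : t.IsGE Q 1 := ⟨hQ⟩
    have hK2 : t.IsGE K 0 := isGE1 hT' hY0 (t.isGE_of_ge Q (0 - 1) 1)
    have hQ2 : t.IsLE Q 1 := isLE3 hT' (t.isLE_of_le K 0 (1 + 1)) hY1
    have hQ' : Hrt t (Q⟦(1 : ℤ)⟧) := ⟨t.isLE_shift Q 1 1 0, t.isGE_shift Q 1 1 0⟩
    obtain ⟨I, q, e, hI⟩ := distinguished_cocone_triangle (i ≫ a)
    have O := someOctahedron (rfl : i ≫ a = i ≫ a) hT' hT hI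
    have hI' : Hrt t I := ⟨isLE3 hI (t.isLE_of_le K 0 (0 + 1)) hN'.1,
      isGE2 O.mem (t.isGE_of_ge Q 0 1) hM'.2⟩
    refine ⟨K, Q, i, p, d, hT', fun l' => ?_, fun l' => ?_⟩
    · exact (deg_of_killed hI (killed_conn ht he hu hid (R l') hI' ⟨hK1, hK2⟩ _) (hN l')).1
    · have h1 := (deg_of_killed hI (killed_conn ht he hu hid (R l') hI' ⟨hK1, hK2⟩ _) (hN l')).2
      exact (deg_of_killed (rotD O.mem)
        (killed_conn ht he hu hid (R l') hQ' hI' _) (hM l')).2

include hid in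
/-- If the objects in degree zero for all realisations generate, then a t-structure which is
motivic for one realisation is motivic for all. -/
theorem motivic_all {l : Λ} (h : IsMotivic t (fun _ : Unit => R l))
    (hg : (DegreeZero R).IsClassicalTriangulatedGenerator) : IsMotivic t R := by
  have hP := adm_degreeZero hid h
  have hA : ∀ X, ec (degs (DegreeZero R) (· ≤ 0)) X → t.IsLE X 0 := by
    intro X hX
    have h1 : ec (degs (DegreeZero R) (· ≤ 0)) ≤ (fun X => t.IsLE X 0) := by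
      refine ec_le ?_ (fun hT hX hZ => isLE2 hT hX hZ)
      rintro X ⟨n, hn, hX⟩
      have h2 := (degreeZero_hrt hid h (hX l)).1
      have h3 : t.IsLE X n := t.isLE_of_shift X n n 0
      exact t.isLE_of_le X n 0 hn
    exact h1 X hX
  have hB : ∀ X, ec (degs (DegreeZero R) (1 ≤ ·)) X → t.IsGE X 1 := by
    intro X hX
    have h1 : ec (degs (DegreeZero R) (1 ≤ ·)) ≤ (fun X => t.IsGE X 1) := by
      refine ec_le ?_ (fun hT hX hZ => isGE2 hT hX hZ)
      rintro X ⟨n, hn, hX⟩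
      have h2 := (degreeZero_hrt hid h (hX l)).2
      have h3 : t.IsGE X n := t.isGE_of_shift X n n 0
      exact t.isGE_of_ge X 1 n hn
    exact h1 X hX
  have hA' : ∀ (l' : Λ) X, ec (degs (DegreeZero R) (· ≤ 0)) X → ∀ i : ℤ, 0 < i →
      IsZero ((R l').H.obj (X⟦i⟧)) := by
    intro l'
    refine vanish_ext (R l') (0 < ·) ?_
    rintro X ⟨n, hn, hX⟩ i hi
    exact (hX l' (i - n) (by omega)).of_iso
      ((R l').H.mapIso ((shiftFunctorAdd' C n (i - n) i (by omega)).app X))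
  have hB' : ∀ (l' : Λ) X, ec (degs (DegreeZero R) (1 ≤ ·)) X → ∀ i : ℤ, i < 1 →
      IsZero ((R l').H.obj (X⟦i⟧)) := by
    intro l'
    refine vanish_ext (R l') (· < 1) ?_
    rintro X ⟨n, hn, hX⟩ i hi
    exact (hX l' (i - n) (by omega)).of_iso
      ((R l').H.mapIso ((shiftFunctorAdd' C n (i - n) i (by omega)).app X))
  have hle : ∀ (l' : Λ) X, t.le 0 X → ∀ i : ℤ, 0 < i → IsZero ((R l').H.obj (X⟦i⟧)) := by
    intro l' X hX i hi
    obtain ⟨Y, ⟨L, G, f, g, k, hT, hL, hG⟩, ⟨r⟩⟩ := hP.retract_dec hg X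
    have h1 : r.i ≫ g = 0 := t.zero_of_isLE_of_isGE _ 0 1 (by omega) ⟨hX⟩ (hB G hG)
    obtain ⟨j, hj⟩ := ce2 hT r.i h1
    refine isZero_retract (R l') j (f ≫ r.r) ?_ (hA' l' L hL i hi)
    rw [← Category.assoc, ← hj, r.retract]
  have hge : ∀ (l' : Λ) X, t.ge 1 X → ∀ i : ℤ, i < 1 → IsZero ((R l').H.obj (X⟦i⟧)) := by
    intro l' X hX i hi
    obtain ⟨Y, ⟨L, G, f, g, k, hT, hL, hG⟩, ⟨r⟩⟩ := hP.retract_dec hg X
    have h1 : f ≫ r.r = 0 := t.zero_of_isLE_of_isGE _ 0 1 (by omega) (hA L hL) ⟨hX⟩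
    obtain ⟨j, hj⟩ := ye2 hT r.r h1
    refine isZero_retract (R l') (r.i ≫ g) j ?_ (hB' l' G hG i hi)
    rw [Category.assoc, ← hj, r.retract]
  refine ⟨h.nondeg_le, h.nondeg_ge, h.tensor_le, h.tensor_ge, hle, fun l' X hX i hi => ?_⟩
  have h0 : t.IsGE X 0 := ⟨hX⟩
  have h1 : t.IsGE (X⟦(-1 : ℤ)⟧) 1 := t.isGE_shift X 0 (-1) 1
  exact (hge l' _ h1.ge (i + 1) (by omega)).of_iso
    ((R l').H.mapIso ((shiftFunctorAdd' C (-1) (i + 1) i (by omega)).app X))

omit [Linear ℚ C] in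
include hid in
/-- If there is a motivic t-structure, the objects in degree zero generate. -/
theorem generates_of_motivic [Nonempty Λ] (h : IsMotivic t R) :
    (DegreeZero R).IsClassicalTriangulatedGenerator := by
  have ht : TensorCompat t := ⟨h.tensor_le, h.tensor_ge⟩
  have hu : Hrt t (𝟙_ C) := unit_hrt ht h.nondeg_le h.nondeg_ge
  have he : ∀ l, TExact t (R l) := fun l => ⟨h.exact_le l, h.exact_ge l⟩
  have hd : ∀ X, Hrt t X → DegreeZero R X := fun X hX l => (he l).deg hX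
  have : (DegreeZero R).Nonempty := ⟨_, hd _ hu⟩
  have hs : ∀ (X : C) (n : ℤ), (DegreeZero R).triangEnvelope (X⟦n⟧) →
      (DegreeZero R).triangEnvelope X := by
    intro X n hX
    exact ((DegreeZero R).triangEnvelope).prop_of_iso ((shiftEquiv C n).unitIso.app X).symm
      (((DegreeZero R).triangEnvelope).le_shift (-n) _ hX)
  have h1 : ∀ (n : ℕ) (M : C) (a b : ℤ), b - a ≤ n → t.IsGE M a → t.IsLE M b →
      (DegreeZero R).triangEnvelope M := by
    have h0 : ∀ (M : C) (a : ℤ), t.IsGE M a → t.IsLE M a → (DegreeZero R).triangEnvelope M := by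
      intro M a h1 h2
      exact hs M a (ObjectProperty.le_triangEnvelope _ _
        (hd _ ⟨t.isLE_shift M a a 0, t.isGE_shift M a a 0⟩))
    intro n
    induction n with
    | zero =>
      intro M a b hab h1 h2
      exact h0 M a h1 (t.isLE_of_le M b a (by omega))
    | succ n ih =>
      intro M a b hab h1 h2
      obtain ⟨X, Y, hX, hY, f, g, h, hT⟩ := t.exists_triangle M a (a + 1) rfl
      have hX1 : t.IsLE X a := ⟨hX⟩
      have hY1 : t.IsGE Y (a + 1) := ⟨hY⟩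
      have hX2 : t.IsGE X a := isGE1 hT h1 (t.isGE_of_ge Y (a - 1) (a + 1))
      by_cases hab' : b ≤ a
      · exact h0 M a h1 (t.isLE_of_le M b a hab')
      have hY2 : t.IsLE Y b := isLE3 hT (t.isLE_of_le X a (b + 1) (by omega)) h2
      have h3 := h0 X a hX2 hX1
      have h4 := ih Y (a + 1) b (by omega) hY1 hY2
      exact ((DegreeZero R).triangEnvelope).ext_of_isTriangulatedClosed₂ _ hT h3 h4
  rw [ObjectProperty.isClassicalTriangulatedGenerator_iff, eq_top_iff]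
  intro X _
  obtain ⟨l⟩ := ‹Nonempty Λ›
  obtain ⟨N, hN1, hN2⟩ := bounded_of_H ht (he l) hu hid h.nondeg_le h.nondeg_ge X
  exact h1 (2 * N) X (-N) N (by push_cast; omega) hN2 hN1

end

end Pool.Agent.N209.MT
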