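import Pool.Agent.N209.MT.TStr
import Pool.Agent.N209.MT.Emb2
import Pool.Agent.N209.MT.Indep

/-!
# Existence of a motivic t-structure
-/

set_option autoImplicit false
set_option linter.unusedSectionVars false
set_option linter.unusedSimpArgs false
set_option backward.isDefEq.respectTransparency false
set_option backward.defeqAttrib.useBackward true

open CategoryTheory Limits MonoidalCategory Pretriangulated Triangulated ObjectProperty

namespace Pool.Agent.N209.MT

open Pool.Agent.Y116.MT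

universe w v u v' u'

section Tens

variable {C : Type u} [Category.{v} C] [Preadditive C] [HasZeroObject C] [HasShift C ℤ]
  [∀ n : ℤ, (shiftFunctor C n).Additive] [Pretriangulated C] [IsTriangulated C]
  [MonoidalCategory C] [SymmetricCategory C] [TensorTriangulated C] {P : ObjectProperty C}

lemma Adm.cls_tensor (hP : Adm P) (hPP : ∀ X Y, P X → P Y → P (X ⊗ Y)) {S S' S'' : ℤ → Prop}
    (h : ∀ a b, S a → S' b → S'' (a + b)) {X Y : C} (hX : cls P S X) (hY : cls P S' Y) :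
    cls P S'' (X ⊗ Y) := by
  have := hP.iso
  have hi : (ec (degs P S'')).IsClosedUnderIsomorphisms := by
    refine ⟨fun {A B} e hA => ?_⟩
    rw [ec_iff] at hA ⊢
    obtain ⟨n, hn⟩ := hA
    refine ⟨n, ?_⟩
    have h1 : (degs P S'').IsClosedUnderIsomorphisms :=
      ⟨fun {A B} e ⟨n, hn, hA⟩ => ⟨n, hn, P.prop_of_iso ((shiftFunctor C n).mapIso e) hA⟩⟩
    cases n with
    | zero => exact (degs P S'').prop_of_iso e hn
    | succ n =>
      rw [extensionProductIter_succ] at hn ⊢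
      exact prop_of_iso _ e hn
  have h1 : ∀ A, degs P S A → ∀ B, ec (degs P S') B → ec (degs P S'') (A ⊗ B) := by
    rintro A ⟨a, ha, hA⟩
    have h2 : ec (degs P S') ≤ (fun B => ec (degs P S'') (A ⊗ B)) := by
      refine ec_le ?_ ?_
      · rintro B ⟨b, hb, hB⟩
        exact le_ec _ _ ⟨a + b, h a b ha hb, P.prop_of_iso (lrShift A B a b) (hPP _ _ hA hB)⟩
      · intro X Y Z f g k hT hX hZ
        exact ec_ext _ (tensor_dist A hT) hX hZ
    exact h2
  have h3 : ∀ B, ec (degs P S') B → ∀ A, ec (degs P S) A → ec (degs P S'') (A ⊗ B) := by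
    intro B hB
    have h4 : ec (degs P S) ≤ (fun A => ec (degs P S'') (A ⊗ B)) := by
      refine ec_le (fun A hA => h1 A hA B hB) ?_
      intro X Y Z f g k hT hX hZ
      exact prop_of_iso _ (β_ B Y) (ec_ext _ (tensor_dist B hT) (prop_of_iso _ (β_ X B) hX)
        (prop_of_iso _ (β_ Z B) hZ))
    exact h4
  obtain ⟨X', hX', ⟨r⟩⟩ := hX
  obtain ⟨Y', hY', ⟨r'⟩⟩ := hY
  refine ⟨X' ⊗ Y', h3 Y' hY' X' hX', ⟨⟨r.i ⊗ₘ r'.i, r.r ⊗ₘ r'.r, ?_⟩⟩⟩
  rw [MonoidalCategory.tensorHom_comp_tensorHom, r.retract, r'.retract]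
  simp

end Tens

section

variable {C : Type u} [Category.{v} C] [Preadditive C] [HasZeroObject C] [HasShift C ℤ]
  [∀ n : ℤ, (shiftFunctor C n).Additive] [Pretriangulated C] [MonoidalCategory C]
  [SymmetricCategory C] [TensorTriangulated C] [MonoidalPreadditive C] [RightRigidCategory C]
  [IsIdempotentComplete C] [IsTriangulated C]
  {E : Type w} [Field E] {R : Realisation C E}

lemma vanish_ext' (S : ℤ → Prop)
    {P : ObjectProperty C} (hP : ∀ X, P X → ∀ i, S i → IsZero (R.H.obj (X⟦i⟧))) :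
    ∀ X, ec P X → ∀ i, S i → IsZero (R.H.obj (X⟦i⟧)) := by
  intro X hX
  have h1 : ec P ≤ (fun X => ∀ i, S i → IsZero (R.H.obj (X⟦i⟧))) :=
    ec_le hP (fun hT hX hZ i hi => hz2 R.H hT i (hX i hi) (hZ i hi))
  exact h1 X hX

lemma isZero_retract' {X Y : C} {i : ℤ}
    (a : X ⟶ Y) (b : Y ⟶ X) (hab : a ≫ b = 𝟙 X) (hY : IsZero (R.H.obj (Y⟦i⟧))) :
    IsZero (R.H.obj (X⟦i⟧)) := by
  rw [IsZero.iff_id_eq_zero]
  have h1 : 𝟙 (R.H.obj (X⟦i⟧)) = R.H.map (a⟦i⟧') ≫ R.H.map (b⟦i⟧') := by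
    rw [← Functor.map_comp, ← Functor.map_comp, hab, CategoryTheory.Functor.map_id,
      CategoryTheory.Functor.map_id]
  rw [h1, hY.eq_of_tgt (R.H.map (a⟦i⟧')) 0, zero_comp]

/-- The t-structure attached to the objects in degree zero is motivic. -/
theorem motivic_of_adm (hP : Adm (fun X : C => R.Deg X 0))
    (hg : ObjectProperty.IsClassicalTriangulatedGenerator (fun X : C => R.Deg X 0)) :
    IsMotivic (hP.tStructure hg) (fun _ : Unit => R) := by
  have hv : ∀ (S : ℤ → Prop) (X : C), cls (fun X : C => R.Deg X 0) S X → ∀ i : ℤ, ¬ S i →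
      IsZero (R.H.obj (X⟦i⟧)) := by
    rintro S X ⟨Y, hY, ⟨r⟩⟩ i hi
    refine isZero_retract' r.i r.r r.retract ?_
    refine vanish_ext' (fun i => ¬ S i) ?_ Y hY i hi
    rintro X ⟨n, hn, hX⟩ i hi
    have hni : n ≠ i := fun h => hi (h ▸ hn)
    exact (hX (i - n) (by omega)).of_iso
      (R.H.mapIso ((shiftFunctorAdd' C n (i - n) i (by omega)).app X))
  have hPP : ∀ X Y : C, R.Deg X 0 → R.Deg Y 0 → R.Deg (X ⊗ Y) 0 := fun X Y hX hY => by
    simpa using hX.tensor hY
  refine ⟨?_, ?_, ?_, ?_, ?_, ?_⟩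
  · intro X hX
    obtain ⟨m, hm1, hm2⟩ := hP.bounded hg X
    rw [IsZero.iff_id_eq_zero]
    exact hP.cls_hom_zero (fun a b (ha : a ≤ -m - 1) (hb : -m ≤ b) => by omega)
      (hX (-m - 1)) hm2 _
  · intro X hX
    obtain ⟨m, hm1, hm2⟩ := hP.bounded hg X
    rw [IsZero.iff_id_eq_zero]
    exact hP.cls_hom_zero (fun a b (ha : a ≤ m) (hb : m + 1 ≤ b) => by omega)
      hm1 (hX (m + 1)) _
  · intro X Y hX hY
    exact hP.cls_tensor hPP (fun a b (ha : a ≤ 0) (hb : b ≤ 0) => by omega) hX hY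
  · intro X Y hX hY
    exact hP.cls_tensor hPP (fun a b (ha : 0 ≤ a) (hb : 0 ≤ b) => by omega) hX hY
  · intro _ X hX i hi
    exact hv _ X hX i (by omega)
  · intro _ X hX i hi
    exact hv _ X hX i (by omega)

variable {T : Type u'} [Category.{v'} T] [Preadditive T] [HasZeroObject T] [HasShift T ℤ]
  [∀ n : ℤ, (shiftFunctor T n).Additive] [Pretriangulated T] [IsTriangulated T]
  [MonoidalCategory T] [SymmetricCategory T] [TensorTriangulated T] [MonoidalPreadditive T]
  [Linear ℚ T] [HasCoproducts.{max u v'} T]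
  (ι : C ⥤ T) [ι.Full] [ι.Faithful] [ι.Braided] [ι.CommShift ℤ] [ι.IsTriangulated]
  (hc : ∀ X : C, IsCompactObj.{max u v'} (ι.obj X))

include hc in
/-- If `R` is faithful in degrees `≤ 0` the objects in degree zero form an admissible class. -/
theorem adm_of_faithful (hf : FaithfulNonpos R) : Adm (fun X : C => R.Deg X 0) := by
  refine ⟨⟨fun e hX => hX.iso e⟩, ⟨⟨_, isZero_zero C, fun i hi => ?_⟩⟩, ?_, ?_⟩
  · exact R.H.map_isZero ((shiftFunctor C i).map_isZero (isZero_zero C))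
  · intro X Y hX hY n hn f
    exact neg_vanish hf hX hY hn f
  · intro Y N M a f b hT hN hM
    obtain ⟨U, Q, u, q, e, hT', hU, hQ⟩ := trunc_data ι hc hf (rotD hT) hN hM
    have h1 : extensionProduct (fun X : C => R.Deg X 0) (fun X : C => R.Deg (X⟦(1 : ℤ)⟧) 0)
        (Y⟦(1 : ℤ)⟧⟦(-1 : ℤ)⟧) := by
      refine ⟨U⟦(-1 : ℤ)⟧, Q⟦(-1 : ℤ)⟧, _, _, _, Triangle.shift_distinguished _ hT' (-1), ?_, ?_⟩
      · exact hU.shift (-1) 0 (by omega)
      · exact (hQ.shift (-1) 1 (by omega)).shift 1 0 (by omega)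
    obtain ⟨K, Q', i, p, d, h2, h3, h4⟩ :=
      prop_of_iso _ ((shiftEquiv C (1 : ℤ)).unitIso.app Y).symm h1
    exact ⟨K, Q', i, p, d, h2, h3, h4⟩

variable {Λ : Type*} {F : Λ → Type w} [∀ l, Field (F l)] {S : ∀ l, Realisation C (F l)}

include hc in
/-- Existence of a motivic t-structure. -/
theorem exists_motivic [Linear ℚ C]
    (hid : ∀ e : 𝟙_ C ⟶ 𝟙_ C, e ≫ e = e → e = 0 ∨ e = 𝟙 _)
    (hg : (DegreeZero S).IsClassicalTriangulatedGenerator) {l : Λ}
    (hf : FaithfulNonpos (S l)) : ∃ t : TStructure C, IsMotivic t S := by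
  have hP := adm_of_faithful ι hc hf
  have hg' : ObjectProperty.IsClassicalTriangulatedGenerator (fun X : C => (S l).Deg X 0) := by
    have h1 : DegreeZero S ≤ (fun X : C => (S l).Deg X 0) := fun X hX => hX l
    rw [isClassicalTriangulatedGenerator_iff, eq_top_iff]
    rw [isClassicalTriangulatedGenerator_iff] at hg
    rw [← hg]
    exact monotone_triangEnvelope h1
  exact ⟨_, motivic_all hid (motivic_of_adm hP hg') hg⟩

omit [IsIdempotentComplete C] in
/-- A realisation which is t-exact for a motivic t-structure is faithful in degrees `≤ 0`. -/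
theorem faithful_of_motivic (hid : ∀ e : 𝟙_ C ⟶ 𝟙_ C, e ≫ e = e → e = 0 ∨ e = 𝟙 _)
    {t : TStructure C} (h : IsMotivic t S) (l : Λ) : FaithfulNonpos (S l) := by
  have ht : TensorCompat t := ⟨h.tensor_le, h.tensor_ge⟩
  have hu : Hrt t (𝟙_ C) := unit_hrt ht h.nondeg_le h.nondeg_ge
  have he : TExact t (S l) := ⟨h.exact_le l, h.exact_ge l⟩
  intro G hG n hn s hs
  have hG' : Hrt t G := ⟨isLE_of_H ht he hu hid h.nondeg_le h.nondeg_ge fun i hi => hG i (by omega),
    isGE_of_H ht he hu hid h.nondeg_le h.nondeg_ge fun i hi => hG i (by omega)⟩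
  by_cases hn0 : n = 0
  · subst hn0
    have h1 := faithful_heart ht he hu hid hu hG' (s ≫ (shiftFunctorZero C ℤ).hom.app G) (by
      rw [Functor.map_comp, hs, zero_comp])
    rwa [← cancel_mono ((shiftFunctorZero C ℤ).hom.app G), zero_comp]
  · have h1 : t.IsGE (G⟦n⟧) (-n) := @TStructure.isGE_shift _ _ _ _ _ _ _ t G 0 n (-n)
      (by omega) hG'.2
    exact t.zero_of_isLE_of_isGE _ 0 (-n) (by omega) hu.1 h1

end

end Pool.Agent.N209.MT
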