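import Pool.Agent.N209.MT.LocT
import Pool.Agent.N209.MT.Exist

/-!
# Truncation of cones of morphisms of a tensor class in degree zero
-/

set_option autoImplicit false
set_option linter.unusedSectionVars false
set_option linter.unusedSimpArgs false
set_option backward.isDefEq.respectTransparency false
set_option backward.defeqAttrib.useBackward true

open CategoryTheory Limits MonoidalCategory Pretriangulated Triangulated ObjectProperty

namespace Pool.Agent.N209.MT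

open Pool.Agent.Y116.MT

universe w v u v' u'

open Functor.LaxMonoidal Functor.OplaxMonoidal

section Main

variable {C : Type u} [Category.{v} C] [Preadditive C] [HasZeroObject C] [HasShift C ℤ]
  [∀ n : ℤ, (shiftFunctor C n).Additive] [Pretriangulated C] [MonoidalCategory C]
  [SymmetricCategory C] [TensorTriangulated C] [MonoidalPreadditive C] [RightRigidCategory C]
  [IsIdempotentComplete C]
  {E : Type w} [Field E] {R : Realisation C E}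
  {T : Type u'} [Category.{v'} T] [Preadditive T] [HasZeroObject T] [HasShift T ℤ]
  [∀ n : ℤ, (shiftFunctor T n).Additive] [Pretriangulated T] [IsTriangulated T]
  [MonoidalCategory T] [SymmetricCategory T] [TensorTriangulated T] [MonoidalPreadditive T]
  [HasCoproducts.{max u v'} T]
  (ι : C ⥤ T) [ι.Full] [ι.Faithful] [ι.Braided] [ι.CommShift ℤ] [ι.IsTriangulated]
  (hc : ∀ X : C, IsCompactObj.{max u v'} (ι.obj X)) {P : ObjectProperty C}

include hc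

/-- The cone of a morphism between objects in `P` has a truncation. -/
theorem FC.trunc_data (hf : FC R P)
    (hnil : ∀ Z : C, R.Deg Z 0 → ∃ n, IsIso (nalt (𝟙_ C) Z n))
    {V V' Z : C} {f : V ⟶ V'} {j : V' ⟶ Z}
    {d : Z ⟶ V⟦(1 : ℤ)⟧} (hT : Triangle.mk f j d ∈ distTriang C) (hV : P V) (hV' : P V') :
    ∃ (U Q : C) (u : U ⟶ Z) (q : Z ⟶ Q) (e : Q ⟶ U⟦(1 : ℤ)⟧) (W : C) (γ : 𝟙_ C ⟶ W)
      (a : U ⟶ V⟦(1 : ℤ)⟧) (b : V⟦(1 : ℤ)⟧ ⟶ W ⊗ U) (a' : Q ⟶ W ⊗ V') (b' : W ⊗ V' ⟶ W ⊗ Q),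
      Triangle.mk u q e ∈ distTriang C ∧ P W ∧ R.H.map γ ≠ 0 ∧ gT γ U = a ≫ b ∧
        gT γ Q = a' ≫ b' := by
  obtain ⟨W, γ, hW, hγ, p, q, hpq⟩ := hf.gamma_cone hT hV hV'
  obtain ⟨ZW, N, pW, δ, hδ, hNT⟩ := zero_of_gT ι hnil (hf.deg _ hW) hγ
  -- the morphism γ in T
  let g : 𝟙_ T ⟶ ι.obj W := Functor.LaxMonoidal.ε ι ≫ ι.map γ
  have hadd : ι.Additive := inferInstance
  -- truncation in T
  obtain ⟨U', Q', a, b, dd, hT', hQp, hUp⟩ := trunc_perp P hc 0 (ι.obj Z)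
  have hUp' : ∀ V : T, PPerp ι P 0 V → ∀ x : U'⟦(1 : ℤ)⟧ ⟶ V, x = 0 := fun V hV x =>
    hf.shift_perp (fun V hV x => hUp V (hV.mono (by omega)) x) hV x
  have hWQ : PPerp ι P 0 (ι.obj W ⊗ Q') := hf.perp_tensor hQp hW
  have hTT := tensor_dist (ι.obj W) hT'
  -- decomposition of γ on ι Z
  have hZ : gT g (ι.obj Z) = ι.map d ≫ ι.map p ≫ Functor.OplaxMonoidal.δ ι W Z +
      ι.map q ≫ Functor.OplaxMonoidal.δ ι W V' ≫ (ι.obj W ◁ ι.map j) := by
    have h1 : gT g (ι.obj Z) = ι.map (gT γ Z) ≫ Functor.OplaxMonoidal.δ ι W Z := by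
      rw [← gT_map, Category.assoc, Functor.Monoidal.μ_δ, Category.comp_id]
    rw [h1, show gT γ Z = d ≫ p + q ≫ (W ◁ j) from hpq, Functor.map_add, Preadditive.add_comp,
      Functor.map_comp, Functor.map_comp, Category.assoc, Category.assoc,
      Functor.OplaxMonoidal.δ_natural_right]
  have hWV : P (W ⊗ V') := hf.tensor _ _ hW hV'
  have haq : a ≫ ι.map q = 0 := hUp _ (hf.perp_obj0 hWV) _
  have hpb : (ι.map p ≫ Functor.OplaxMonoidal.δ ι W Z) ≫ (ι.obj W ◁ b) = 0 := by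
    have := hf.iso
    exact hWQ _ (-1) (by omega)
      (P.prop_of_iso ((shiftFunctorCompIsoId C (1 : ℤ) (-1) (by omega)).app V).symm hV) _
  -- the map on U'
  obtain ⟨π', hπ'⟩ := ce2 hTT _ hpb
  have hU1 : gT g U' = (a ≫ ι.map d) ≫ π' := by
    rw [← sub_eq_zero]
    refine eq_zero_of_comp_whisker hT' (fun k => hUp' _ hWQ k) (A := ι.obj W) ?_
    rw [Preadditive.sub_comp, ← gT_nat, hZ, Preadditive.comp_add, Category.assoc _ π', ← hπ',
      Category.assoc, add_sub_cancel_left, ← Category.assoc, haq, zero_comp]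
  -- the map on Q'
  obtain ⟨q', hq'⟩ := ye2 hT' _ haq
  have hQ1 : gT g Q' = q' ≫ (Functor.OplaxMonoidal.δ ι W V' ≫ (ι.obj W ◁ ι.map j)) ≫
      (ι.obj W ◁ b) := by
    rw [← sub_eq_zero]
    have h1 : b ≫ (gT g Q' - q' ≫ (Functor.OplaxMonoidal.δ ι W V' ≫ (ι.obj W ◁ ι.map j)) ≫
        (ι.obj W ◁ b)) = 0 := by
      rw [Preadditive.comp_sub, gT_nat, hZ, Preadditive.add_comp, Category.assoc (ι.map d), hpb,
        comp_zero, zero_add, ← Category.assoc b q', ← hq', Category.assoc, sub_self]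
    obtain ⟨k, hk⟩ := ye3 hT' _ h1
    rw [hk, hUp' _ hWQ k, comp_zero]
  -- U' is in the image of C
  have hPZ : ∀ c, ι.essImage c → ι.essImage (c ⊗ ι.obj ZW) := by
    rintro c ⟨c₀, ⟨e⟩⟩
    exact ⟨c₀ ⊗ ZW, ⟨(Functor.Monoidal.μIso ι c₀ ZW).symm ≪≫ whiskerRightIso e _⟩⟩
  have hfac : Fac ι.essImage ((ρ_ U').inv ≫ U' ◁ g) := by
    have h1 : (ρ_ U').inv ≫ U' ◁ g = gT g U' ≫ (β_ (ι.obj W) U').hom := by
      rw [gT, Category.assoc, BraidedCategory.braiding_naturality_left,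
        leftUnitor_inv_braiding_assoc]
    rw [h1, hU1]
    exact ⟨ι.obj (V⟦(1 : ℤ)⟧), ⟨_, ⟨Iso.refl _⟩⟩, a ≫ ι.map d, π' ≫ (β_ (ι.obj W) U').hom,
      by simp only [Category.assoc]⟩
  obtain ⟨U₀, ⟨eU⟩⟩ := of_fac_id (fac_id' hδ hNT hPZ hfac)
  obtain ⟨u, hu⟩ := ι.map_surjective (eU.inv ≫ a)
  obtain ⟨Q₀, q₀, e₀, hT₀⟩ := distinguished_cocone_triangle u
  have hT₁ := ι.map_distinguished _ hT₀
  obtain ⟨e, -⟩ := exists_iso_of_arrow_iso _ _ hT' hT₁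
    (Arrow.isoMk eU (Iso.refl _) (by simp [hu]))
  let eQ : Q' ≅ ι.obj Q₀ := Triangle.π₃.mapIso e
  obtain ⟨a₁, b₁, h₁⟩ := factor_of_gT ι γ (c := V⟦(1 : ℤ)⟧) eU hU1
  obtain ⟨a₂, b₂, h₂⟩ := factor_of_gT ι γ (c := W ⊗ V') eQ hQ1
  exact ⟨U₀, Q₀, u, q₀, e₀, W, γ, a₁, b₁, a₂, b₂, hT₀, hW, hγ, h₁, h₂⟩

/-- The local retracts form an admissible class. -/
theorem FC.adm (hf : FC R P)
    (hnil : ∀ Z : C, R.Deg Z 0 → ∃ n, IsIso (nalt (𝟙_ C) Z n)) : Adm (LR R P) := by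
  have hl : FC R (LR R P) := hf.lr hc hnil
  have := hl.iso
  refine ⟨hl.iso, ⟨⟨_, isZero_zero C, LR.of_isZero hf (isZero_zero C)⟩⟩, ?_, ?_⟩
  · intro X Y hX hY n hn f
    exact hl.neg_vanish hX hY hn f
  · intro Y N M a f b hT hN hM
    obtain ⟨U, Q, u, q, e, W, γ, a₁, b₁, a₂, b₂, hT', hW, hγ, h₁, h₂⟩ :=
      hl.trunc_data ι hc hnil (rotD hT) hN hM
    have hU : LR R P (U⟦(-1 : ℤ)⟧) := by
      obtain ⟨b', h'⟩ := factor_shift h₁ (-1)
      refine LR.trans hf hW ?_ hγ h'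
      exact prop_of_iso _ ((shiftFunctorCompIsoId C (1 : ℤ) (-1) (by omega)).app N).symm hN
    have hQ : LR R P Q := LR.trans hf hW (hl.tensor _ _ hW hM) hγ h₂
    have h1 : extensionProduct (LR R P) (fun X : C => LR R P (X⟦(1 : ℤ)⟧))
        (Y⟦(1 : ℤ)⟧⟦(-1 : ℤ)⟧) := by
      refine ⟨U⟦(-1 : ℤ)⟧, Q⟦(-1 : ℤ)⟧, _, _, _, Triangle.shift_distinguished _ hT' (-1), hU, ?_⟩
      exact prop_of_iso _ ((shiftFunctorCompIsoId C (-1 : ℤ) 1 (by omega)).app Q).symm hQ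
    obtain ⟨K, Q', i, p, d, h2, h3, h4⟩ :=
      prop_of_iso _ ((shiftEquiv C (1 : ℤ)).unitIso.app Y).symm h1
    exact ⟨K, Q', i, p, d, h2, h3, h4⟩

end Main

end Pool.Agent.N209.MT
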