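import Pool.Agent.N209.MT.Cramer
import Pool.Agent.N209.MT.Dual
import Pool.Agent.N209.MT.ExistDefs

/-!
# Consequences of faithfulness in degrees `≤ 0`
-/

set_option autoImplicit false
set_option linter.unusedSectionVars false
set_option linter.unusedSimpArgs false
set_option backward.isDefEq.respectTransparency false
set_option backward.defeqAttrib.useBackward true

open CategoryTheory Limits MonoidalCategory Pretriangulated Triangulated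

namespace Pool.Agent.N209.MT

open Pool.Agent.Y116.MT

universe v u w

open Functor.LaxMonoidal

section

variable {C : Type u} [Category.{v} C] [Preadditive C] [HasZeroObject C] [HasShift C ℤ]
  [∀ n : ℤ, (shiftFunctor C n).Additive] [Pretriangulated C] [MonoidalCategory C]
  [SymmetricCategory C] [TensorTriangulated C] [MonoidalPreadditive C] [RightRigidCategory C]
  {E : Type w} [Field E] {R : Realisation C E}

lemma pw_deg {V : C} (hV : R.Deg V 0) (n : ℕ) : R.Deg (pw (𝟙_ C) V n) 0 := by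
  induction n with
  | zero => exact deg_unit
  | succ n ih => simpa using ih.tensor hV

variable (hf : FaithfulNonpos R)

include hf

/-- Faithfulness on all morphisms in degrees `≤ 0`. -/
theorem faithful_hom {M N : C} (hM : R.Deg M 0) (hN : R.Deg N 0) {n : ℤ} (hn : n ≤ 0)
    (f : M ⟶ N⟦n⟧) (h : R.H.map f = 0) : f = 0 := by
  apply eq_zero_of_nm
  rw [← cancel_mono (lShift N Mᘁ n).hom, zero_comp]
  have h0 : R.Deg (Mᘁ : C) 0 := deg_dual (G := M) hM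
  refine hf (N ⊗ Mᘁ) (by simpa using hN.tensor h0) n hn _ ?_
  rw [Functor.map_comp, nm, Functor.map_comp, map_whisker_zero hM f h, comp_zero, zero_comp]

theorem faithful_hom0 {M N : C} (hM : R.Deg M 0) (hN : R.Deg N 0)
    (f : M ⟶ N) (h : R.H.map f = 0) : f = 0 := by
  have h1 := faithful_hom hf hM hN le_rfl (f ≫ (shiftFunctorZero C ℤ).inv.app N) (by
    rw [Functor.map_comp, h, zero_comp])
  rwa [← cancel_mono ((shiftFunctorZero C ℤ).inv.app N), zero_comp]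

theorem neg_vanish {M N : C} (hM : R.Deg M 0) (hN : R.Deg N 0) {n : ℤ} (hn : n < 0)
    (f : M ⟶ N⟦n⟧) : f = 0 :=
  faithful_hom hf hM hN hn.le f ((hN n hn.ne).eq_of_tgt _ _)

lemma alt_deg_zero {V : C} (hV : R.Deg V 0) : ∃ n : ℕ, alt (𝟙_ C) V n = 0 := by
  refine ⟨Module.finrank E (R.H.obj V) + 1, ?_⟩
  have h0 := fun n => pw_deg hV n
  apply faithful_hom0 hf (h0 _) (h0 _)
  have h1 := kap_iso h0 (Module.finrank E (R.H.obj V) + 1)
  rw [← cancel_epi (kap R.H (𝟙_ C) V (Module.finrank E (R.H.obj V) + 1)), ← alt_lax,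
    alt_vec_zero _ _ _ (Nat.lt_succ_self _), zero_comp, comp_zero]

omit hf in
lemma wl_zero (X : C) {Y Z : C} : X ◁ (0 : Y ⟶ Z) = 0 := (tensorLeft X).map_zero _ _

omit hf in
lemma wr_zero (X : C) {Y Z : C} : (0 : Y ⟶ Z) ▷ X = 0 := (tensorRight X).map_zero _ _

/-- Currying. -/
theorem curry_data {S S' V V' : C} (f : V ⟶ V') (hS : R.Deg S 0) (hS' : R.Deg S' 0)
    (γ' : S ⟶ S') (hγ' : γ' ≠ 0) (m : S ⊗ V' ⟶ S' ⊗ V)
    (hm : γ' ▷ V ≫ S' ◁ f = S ◁ f ≫ m ≫ S' ◁ f) :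
    ∃ (W : C) (γ : 𝟙_ C ⟶ W) (h : V' ⟶ W ⊗ V), R.Deg W 0 ∧ R.H.map γ ≠ 0 ∧
      f ≫ h ≫ (W ◁ f) = f ≫ (λ_ V').inv ≫ (γ ▷ V') := by
  let D : C := (Sᘁ : C)
  let _ : ExactPairing D S := BraidedCategory.exactPairing_swap S Sᘁ
  have hD : R.Deg D 0 := deg_dual (G := S) hS
  have hW : R.Deg (D ⊗ S') 0 := by simpa using hD.tensor hS'
  let γ : 𝟙_ C ⟶ D ⊗ S' := η_ D S ≫ D ◁ γ'
  have hγ0 : γ ≠ 0 := by
    intro h3
    apply hγ'
    have h4 : γ' = (ρ_ S).inv ≫ (S ◁ γ) ≫ (α_ S D S').inv ≫ (ε_ D S ▷ S') ≫ (λ_ S').hom := by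
      simp only [γ, MonoidalCategory.whiskerLeft_comp, Category.assoc]
      rw [associator_inv_naturality_right_assoc, whisker_exchange_assoc,
        ExactPairing.coevaluation_evaluation_assoc]
      simp
    rw [h4, h3, wl_zero, zero_comp, comp_zero]
  refine ⟨D ⊗ S', γ, (λ_ V').inv ≫ (η_ D S ▷ V') ≫ (α_ D S V').hom ≫ (D ◁ m) ≫
    (α_ D S' V).inv, hW, fun h3 => hγ0 (faithful_hom0 hf deg_unit hW γ h3), ?_⟩
  have h5 : f ≫ (λ_ V').inv ≫ (η_ D S ▷ V') ≫ (α_ D S V').hom =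
      (λ_ V).inv ≫ (η_ D S ▷ V) ≫ (α_ D S V).hom ≫ (D ◁ (S ◁ f)) := by
    rw [leftUnitor_inv_naturality_assoc, whisker_exchange_assoc, associator_naturality_right]
  have h6 : (α_ D S' V).inv ≫ ((D ⊗ S') ◁ f) = (D ◁ (S' ◁ f)) ≫ (α_ D S' V').inv := by
    rw [associator_inv_naturality_right]
  have h7 : f ≫ (λ_ V').inv ≫ (γ ▷ V') = (λ_ V).inv ≫ (γ ▷ V) ≫ ((D ⊗ S') ◁ f) := by
    rw [leftUnitor_inv_naturality_assoc, whisker_exchange]
  rw [h7]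
  simp only [Category.assoc]
  rw [h6, reassoc_of% h5, ← MonoidalCategory.whiskerLeft_comp_assoc,
    ← MonoidalCategory.whiskerLeft_comp_assoc, Category.assoc, ← hm,
    MonoidalCategory.whiskerLeft_comp_assoc]
  simp only [γ, comp_whiskerRight, Category.assoc]
  rw [← h6, ← associator_naturality_middle_assoc, Iso.hom_inv_id_assoc]

/-- The data given by Cramer's rule. -/
theorem cramer_data {V V' : C} (f : V ⟶ V') (hV : R.Deg V 0) (hV' : R.Deg V' 0) :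
    ∃ (W : C) (γ : 𝟙_ C ⟶ W) (h : V' ⟶ W ⊗ V), R.Deg W 0 ∧ R.H.map γ ≠ 0 ∧
      f ≫ h ≫ (W ◁ f) = f ≫ (λ_ V').inv ≫ (γ ▷ V') := by
  have h0 : ∃ n : ℕ, pwf f (𝟙_ C) (n + 1) ≫ alt (𝟙_ C) V' (n + 1) = 0 := by
    obtain ⟨n, hn⟩ := alt_deg_zero hf hV'
    cases n with
    | zero =>
      exfalso
      refine not_isZero_unit R ((IsZero.iff_id_eq_zero _).2 ?_)
      simpa [alt] using hn
    | succ n => exact ⟨n, by rw [hn, comp_zero]⟩
  classical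
  have h1 := Nat.find_spec h0
  have h2 : pwf f (𝟙_ C) (Nat.find h0) ≫ alt (𝟙_ C) V' (Nat.find h0) ≠ 0 := by
    intro h3
    cases h4 : Nat.find h0 with
    | zero =>
      rw [h4] at h3
      refine not_isZero_unit R ((IsZero.iff_id_eq_zero _).2 ?_)
      simpa [alt, pwf] using h3
    | succ k =>
      rw [h4] at h3
      exact Nat.find_min h0 (m := k) (by omega) h3
  obtain ⟨m, hm⟩ := cramer f (𝟙_ C) _ h1
  exact curry_data hf f (pw_deg hV _) (pw_deg hV' _) _ h2 m hm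

/-- The decomposition of `γ` on the cone. -/
theorem gamma_cone {V V' Z : C} {f : V ⟶ V'} {j : V' ⟶ Z} {d : Z ⟶ V⟦(1 : ℤ)⟧}
    (hT : Triangle.mk f j d ∈ distTriang C) (hV : R.Deg V 0) (hV' : R.Deg V' 0) :
    ∃ (W : C) (γ : 𝟙_ C ⟶ W), R.Deg W 0 ∧ R.H.map γ ≠ 0 ∧
      ∃ (p : V⟦(1 : ℤ)⟧ ⟶ W ⊗ Z) (q : Z ⟶ W ⊗ V'),
        (λ_ Z).inv ≫ (γ ▷ Z) = d ≫ p + q ≫ (W ◁ j) := by
  obtain ⟨W, γ, h, hW, hγ, hh⟩ := cramer_data hf f hV hV'
  refine ⟨W, γ, hW, hγ, ?_⟩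
  have hTW := tensor_dist W hT
  obtain ⟨u, hu, hγs⟩ : ∃ u : ∀ X : C, X⟦(1 : ℤ)⟧ ⟶ X⟦(1 : ℤ)⟧,
      (∀ {X Y : C} (a : X ⟶ Y), a⟦(1 : ℤ)⟧' ≫ u Y = u X ≫ a⟦(1 : ℤ)⟧') ∧
      (∀ X : C, (λ_ (X⟦(1 : ℤ)⟧)).inv ≫ (γ ▷ (X⟦(1 : ℤ)⟧)) ≫ (rShift W X 1).hom =
        u X ≫ ((λ_ X).inv ≫ (γ ▷ X))⟦(1 : ℤ)⟧') := by
    refine ⟨fun X => (λ_ (X⟦(1 : ℤ)⟧)).inv ≫ (rShift (𝟙_ C) X 1).hom ≫ ((λ_ X).hom)⟦(1 : ℤ)⟧',
      fun {X Y} a => ?_, fun X => ?_⟩
    · simp only [Category.assoc]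
      rw [leftUnitor_inv_naturality_assoc, ← Category.assoc (𝟙_ C ◁ _), rShift_natural_right,
        Category.assoc, ← Functor.map_comp, leftUnitor_naturality, Functor.map_comp]
    · rw [rShift_natural_left]
      simp only [Category.assoc]
      rw [← Functor.map_comp, Iso.hom_inv_id_assoc]
  have hh' : ((λ_ V).inv ≫ (γ ▷ V) - f ≫ h) ≫ (W ◁ f) = 0 := by
    rw [Preadditive.sub_comp, Category.assoc, Category.assoc, hh,
      ← whisker_exchange, leftUnitor_inv_naturality_assoc, sub_self]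
  let q' : V⟦(1 : ℤ)⟧ ⟶ (W ⊗ V)⟦(1 : ℤ)⟧ :=
    u V ≫ ((λ_ V).inv ≫ (γ ▷ V) - f ≫ h)⟦(1 : ℤ)⟧'
  have hq' : q' ≫ (W ◁ f)⟦(1 : ℤ)⟧' = 0 := by
    simp only [q', Category.assoc]
    rw [← Functor.map_comp, hh', Functor.map_zero, comp_zero]
  obtain ⟨p, hp⟩ := ce1 hTW q' hq'
  have hx : ((λ_ Z).inv ≫ (γ ▷ Z) - d ≫ p) ≫ (W ◁ d ≫ (rShift W V 1).hom) = 0 := by
    rw [Preadditive.sub_comp, Category.assoc d, ← hp, Category.assoc,
      ← Category.assoc (γ ▷ Z), ← whisker_exchange, Category.assoc,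
      ← leftUnitor_inv_naturality_assoc, hγs, ← Preadditive.comp_sub]
    simp only [q']
    rw [← Preadditive.comp_sub, ← Functor.map_sub, sub_sub_cancel, Functor.map_comp,
      ← Category.assoc (u V), ← hu, Category.assoc, ← Category.assoc d, comp31 hT, zero_comp]
  obtain ⟨q, hq⟩ := ce3 hTW _ hx
  exact ⟨p, q, by rw [← hq]; abel⟩

end

end Pool.Agent.N209.MT
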