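import Pool.Agent.Y116.MT.HomNum

/-!
# Morphisms killed by a realisation
-/

set_option autoImplicit false
set_option linter.unusedSectionVars false
set_option linter.unusedSimpArgs false
set_option backward.isDefEq.respectTransparency false
set_option backward.defeqAttrib.useBackward true

open CategoryTheory Limits MonoidalCategory Pretriangulated Triangulated TensorProduct

namespace Pool.Agent.N209.MT

open Pool.Agent.Y116.MT

universe v u w

open Functor.LaxMonoidal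

lemma tmul_ne_zero_of_field {E M N : Type*} [Field E] [AddCommGroup M] [Module E M]
    [AddCommGroup N] [Module E N] {x : M} {y : N} (hx : x ≠ 0) (hy : y ≠ 0) :
    x ⊗ₜ[E] y ≠ 0 := by
  intro h
  obtain ⟨φ, hφ⟩ : ∃ φ : Module.Dual E M, φ x ≠ 0 := by
    by_contra hc
    push Not at hc
    exact hx ((Module.forall_dual_apply_eq_zero_iff E x).1 hc)
  obtain ⟨ψ, hψ⟩ : ∃ ψ : Module.Dual E N, ψ y ≠ 0 := by
    by_contra hc
    push Not at hc
    exact hy ((Module.forall_dual_apply_eq_zero_iff E y).1 hc)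
  have h1 := congrArg (LinearMap.mul' E E ∘ₗ TensorProduct.map φ ψ) h
  simp only [LinearMap.comp_apply, TensorProduct.map_tmul, LinearMap.mul'_apply, map_zero,
    mul_eq_zero] at h1
  exact h1.elim hφ hψ

section

variable {C : Type u} [Category.{v} C] [Preadditive C] [HasZeroObject C] [HasShift C ℤ]
  [∀ n : ℤ, (shiftFunctor C n).Additive] [Pretriangulated C] [MonoidalCategory C]
  [SymmetricCategory C] [TensorTriangulated C]

lemma lShift_natural_left {X X' : C} (f : X ⟶ X') (Y : C) (n : ℤ) :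
    (f⟦n⟧' ▷ Y) ≫ (lShift X' Y n).hom = (lShift X Y n).hom ≫ (f ▷ Y)⟦n⟧' := by
  simp only [lShift, Iso.trans_hom, Functor.mapIso_hom, Category.assoc]
  rw [← Category.assoc (f⟦n⟧' ▷ Y), BraidedCategory.braiding_naturality_left, Category.assoc,
    ← Category.assoc (Y ◁ f⟦n⟧'), rShift_natural_right, Category.assoc, ← Functor.map_comp,
    ← Functor.map_comp, BraidedCategory.braiding_naturality_right]

lemma lShift_natural_right (X : C) {Y Y' : C} (g : Y ⟶ Y') (n : ℤ) :
    (X⟦n⟧ ◁ g) ≫ (lShift X Y' n).hom = (lShift X Y n).hom ≫ (X ◁ g)⟦n⟧' := by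
  simp only [lShift, Iso.trans_hom, Functor.mapIso_hom, Category.assoc]
  rw [← Category.assoc (X⟦n⟧ ◁ g), BraidedCategory.braiding_naturality_right, Category.assoc,
    ← Category.assoc (g ▷ X⟦n⟧), rShift_natural_left, Category.assoc, ← Functor.map_comp,
    ← Functor.map_comp, BraidedCategory.braiding_naturality_left]

lemma shiftTensorIso_natural_left {X X' : C} (f : X ⟶ X') (Y : C) (i : ℤ) :
    (f⟦i⟧' ▷ (Y⟦-i⟧)) ≫ (shiftTensorIso X' Y i).hom = (shiftTensorIso X Y i).hom ≫ (f ▷ Y) := by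
  simp only [shiftTensorIso, Iso.trans_hom, Functor.mapIso_hom, Category.assoc]
  rw [← Category.assoc (f⟦i⟧' ▷ _), rShift_natural_left, Category.assoc, ← Functor.map_comp_assoc,
    lShift_natural_left, Functor.map_comp_assoc]
  congr 2
  exact (shiftFunctorCompIsoId C i (-i) (by omega)).hom.naturality (f ▷ Y)

lemma shiftTensorIso_natural_right (X : C) {Y Y' : C} (g : Y ⟶ Y') (i : ℤ) :
    (X⟦i⟧ ◁ g⟦-i⟧') ≫ (shiftTensorIso X Y' i).hom = (shiftTensorIso X Y i).hom ≫ (X ◁ g) := by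
  simp only [shiftTensorIso, Iso.trans_hom, Functor.mapIso_hom, Category.assoc]
  rw [← Category.assoc (X⟦i⟧ ◁ _), rShift_natural_right, Category.assoc, ← Functor.map_comp_assoc,
    lShift_natural_right, Functor.map_comp_assoc]
  congr 2
  exact (shiftFunctorCompIsoId C i (-i) (by omega)).hom.naturality (X ◁ g)

variable {E : Type w} [Field E] (R : Realisation C E)

/-- The component of the Künneth map. -/
noncomputable def kc (X Y : C) (i : ℤ) :
    (R.H.obj (X⟦i⟧) ⊗ R.H.obj (Y⟦-i⟧) : ModuleCat.{w} E) ⟶ R.H.obj (X ⊗ Y) :=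
  μ R.H (X⟦i⟧) (Y⟦-i⟧) ≫ R.H.map (shiftTensorIso X Y i).hom

lemma kc_natural_left {X X' : C} (f : X ⟶ X') (Y : C) (i : ℤ) :
    (R.H.map (f⟦i⟧') ▷ R.H.obj (Y⟦-i⟧)) ≫ kc R X' Y i = kc R X Y i ≫ R.H.map (f ▷ Y) := by
  simp only [kc, Category.assoc]
  rw [← Functor.map_comp, ← shiftTensorIso_natural_left, Functor.map_comp, ← Category.assoc,
    μ_natural_left, Category.assoc]

lemma kc_natural_right (X : C) {Y Y' : C} (g : Y ⟶ Y') (i : ℤ) :
    (R.H.obj (X⟦i⟧) ◁ R.H.map (g⟦-i⟧')) ≫ kc R X Y' i = kc R X Y i ≫ R.H.map (X ◁ g) := by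
  simp only [kc, Category.assoc]
  rw [← Functor.map_comp, ← shiftTensorIso_natural_right, Functor.map_comp, ← Category.assoc,
    μ_natural_right, Category.assoc]

lemma kunnethMap_eq (X Y : C) : kunnethMap R.H X Y =
    DirectSum.toModule E ℤ _ fun i : ℤ => (kc R X Y i).hom := rfl

lemma kc_injective (X Y : C) (i : ℤ) : Function.Injective (kc R X Y i) := by
  intro a b hab
  have h1 : kunnethMap R.H X Y (DirectSum.lof E ℤ
      (fun i : ℤ => (R.H.obj (X⟦i⟧) ⊗ R.H.obj (Y⟦-i⟧) : ModuleCat.{w} E)) i a) =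
      kunnethMap R.H X Y (DirectSum.lof E ℤ _ i b) := by
    rw [kunnethMap_eq, DirectSum.toModule_lof, DirectSum.toModule_lof]
    exact hab
  exact DirectSum.of_injective (β := fun i : ℤ =>
    (R.H.obj (X⟦i⟧) ⊗ R.H.obj (Y⟦-i⟧) : ModuleCat.{w} E)) i ((R.kunneth X Y).1 h1)

/-- A map out of `H(X ⊗ Y)` which vanishes on all Künneth components vanishes. -/
lemma kc_ext {X Y : C} {M : ModuleCat.{w} E} (φ : R.H.obj (X ⊗ Y) ⟶ M)
    (h : ∀ i, kc R X Y i ≫ φ = 0) : φ = 0 := by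
  ext x
  obtain ⟨y, rfl⟩ := (R.kunneth X Y).2 x
  have h1 : φ.hom ∘ₗ kunnethMap R.H X Y = 0 := by
    rw [kunnethMap_eq]
    refine DirectSum.linearMap_ext _ (fun i => ?_)
    ext z
    have h2 := ConcreteCategory.congr_hom (h i) z
    simpa using h2
  exact LinearMap.congr_fun h1 y

/-- The morphism `f` is killed by all cohomology groups of the realisation `R`. -/
def Killed {X Y : C} (f : X ⟶ Y) : Prop := ∀ i : ℤ, R.H.map (f⟦i⟧') = 0

variable {R}

lemma Killed.comp_right {X Y Z : C} {f : X ⟶ Y} (h : Killed R f) (g : Y ⟶ Z) :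
    Killed R (f ≫ g) := fun i => by
  rw [Functor.map_comp, Functor.map_comp, h i, zero_comp]

lemma Killed.comp_left {X Y Z : C} {g : Y ⟶ Z} (h : Killed R g) (f : X ⟶ Y) :
    Killed R (f ≫ g) := fun i => by
  rw [Functor.map_comp, Functor.map_comp, h i, comp_zero]

lemma Killed.shift {X Y : C} {f : X ⟶ Y} (h : Killed R f) (n : ℤ) : Killed R (f⟦n⟧') := fun i => by
  rw [← cancel_epi (R.H.map ((shiftFunctorAdd C n i).hom.app X)), ← Functor.map_comp]
  have h1 : (shiftFunctorAdd C n i).hom.app X ≫ (f⟦n⟧')⟦i⟧' =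
      f⟦n + i⟧' ≫ (shiftFunctorAdd C n i).hom.app Y :=
    ((shiftFunctorAdd C n i).hom.naturality f).symm
  rw [h1, Functor.map_comp, h (n + i), zero_comp, comp_zero]

lemma Killed.unshift {X Y : C} {f : X ⟶ Y} (n : ℤ) (h : Killed R (f⟦n⟧')) : Killed R f := fun i => by
  rw [← cancel_mono (R.H.map ((shiftFunctorAdd' C n (i - n) i (by omega)).hom.app Y)),
    ← Functor.map_comp]
  have h1 : f⟦i⟧' ≫ (shiftFunctorAdd' C n (i - n) i (by omega)).hom.app Y =
      (shiftFunctorAdd' C n (i - n) i (by omega)).hom.app X ≫ (f⟦n⟧')⟦i - n⟧' :=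
    (shiftFunctorAdd' C n (i - n) i (by omega)).hom.naturality f
  rw [h1, Functor.map_comp, h (i - n), comp_zero, zero_comp]

/-- A killed morphism, tensored with an object, is killed. -/
lemma Killed.whiskerRight {X X' : C} {f : X ⟶ X'} (h : Killed R f) (Y : C) :
    Killed R (f ▷ Y) := by
  intro n
  have h1 : R.H.map (f ▷ (Y⟦n⟧)) = 0 := by
    apply kc_ext
    intro i
    have h2 : (0 : R.H.obj (X⟦i⟧) ⟶ R.H.obj (X'⟦i⟧)) ▷ R.H.obj (Y⟦n⟧⟦-i⟧) = 0 :=
      (tensorRight _).map_zero _ _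
    rw [← kc_natural_left, h i, h2, zero_comp]
  rw [← cancel_epi (R.H.map (rShift X Y n).hom), ← Functor.map_comp, ← rShift_natural_left,
    Functor.map_comp, h1, zero_comp, comp_zero]

lemma Killed.whiskerLeft {Y Y' : C} {g : Y ⟶ Y'} (h : Killed R g) (X : C) :
    Killed R (X ◁ g) := by
  have h1 : X ◁ g = (β_ X Y).hom ≫ (g ▷ X) ≫ (β_ X Y').inv := by
    rw [← BraidedCategory.braiding_naturality_right_assoc, Iso.hom_inv_id, Category.comp_id]
  rw [h1]
  exact ((h.whiskerRight X).comp_right _).comp_left _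

lemma not_killed_id {X : C} {i : ℤ} (h : ¬ IsZero (R.H.obj (X⟦i⟧))) : ¬ Killed R (𝟙 X) := by
  intro h1
  apply h
  rw [IsZero.iff_id_eq_zero, ← h1 i, CategoryTheory.Functor.map_id,
    CategoryTheory.Functor.map_id]

/-- The tensor product of morphisms which are not killed is not killed. -/
theorem not_killed_tensor {X X' Y Y' : C} {f : X ⟶ X'} {g : Y ⟶ Y'} (hf : ¬ Killed R f)
    (hg : ¬ Killed R g) : ¬ Killed R (f ⊗ₘ g) := by
  simp only [Killed, not_forall] at hf hg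
  obtain ⟨i, hi⟩ := hf
  obtain ⟨j, hj⟩ := hg
  intro hk
  have h1 : R.H.map (f ⊗ₘ (g⟦i + j⟧')) = 0 := by
    have h2 : (f ⊗ₘ (g⟦i + j⟧')) ≫ (rShift X' Y' (i + j)).hom =
        (rShift X Y (i + j)).hom ≫ (f ⊗ₘ g)⟦i + j⟧' := by
      rw [MonoidalCategory.tensorHom_def, MonoidalCategory.tensorHom_def, Category.assoc,
        rShift_natural_right, ← Category.assoc, rShift_natural_left, Category.assoc,
        ← Functor.map_comp]
    rw [← cancel_mono (R.H.map (rShift X' Y' (i + j)).hom), ← Functor.map_comp, h2,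
      Functor.map_comp, hk (i + j), comp_zero, zero_comp]
  have hj' : R.H.map ((g⟦i + j⟧')⟦-i⟧') ≠ 0 := by
    intro h0
    apply hj
    rw [← cancel_mono (R.H.map ((shiftFunctorAdd' C (i + j) (-i) j (by omega)).hom.app Y')),
      ← Functor.map_comp]
    have h3 : g⟦j⟧' ≫ (shiftFunctorAdd' C (i + j) (-i) j (by omega)).hom.app Y' =
        (shiftFunctorAdd' C (i + j) (-i) j (by omega)).hom.app Y ≫ (g⟦i + j⟧')⟦-i⟧' :=
      (shiftFunctorAdd' C (i + j) (-i) j (by omega)).hom.naturality g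
    rw [h3, Functor.map_comp, h0, comp_zero, zero_comp]
  have h4 : (R.H.map (f⟦i⟧') ⊗ₘ R.H.map ((g⟦i + j⟧')⟦-i⟧')) ≫ kc R X' (Y'⟦i + j⟧) i = 0 := by
    rw [MonoidalCategory.tensorHom_def, Category.assoc, kc_natural_right, ← Category.assoc,
      kc_natural_left, Category.assoc, ← Functor.map_comp, ← MonoidalCategory.tensorHom_def, h1,
      comp_zero]
  have h5 : (R.H.map (f⟦i⟧') ⊗ₘ R.H.map ((g⟦i + j⟧')⟦-i⟧')) = 0 := by
    ext x
    apply kc_injective R X' (Y'⟦i + j⟧) i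
    have h6 := ConcreteCategory.congr_hom h4 x
    simpa using h6
  obtain ⟨x, hx⟩ : ∃ x, R.H.map (f⟦i⟧') x ≠ 0 := by
    by_contra hc
    push Not at hc
    exact hi (by ext x; simpa using hc x)
  obtain ⟨y, hy⟩ : ∃ y, R.H.map ((g⟦i + j⟧')⟦-i⟧') y ≠ 0 := by
    by_contra hc
    push Not at hc
    exact hj' (by ext x; simpa using hc x)
  have h7 : (R.H.map (f⟦i⟧') x) ⊗ₜ[E] (R.H.map ((g⟦i + j⟧')⟦-i⟧') y) = 0 :=
    ConcreteCategory.congr_hom h5 (x ⊗ₜ[E] y)
  exact tmul_ne_zero_of_field hx hy h7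

end

end Pool.Agent.N209.MT
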