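import Pool.Agent.N209.MT.FC
import Pool.Agent.N209.MT.Emb2

/-!
# Local retracts
-/

set_option autoImplicit false
set_option linter.unusedSectionVars false
set_option linter.unusedSimpArgs false
set_option backward.isDefEq.respectTransparency false
set_option backward.defeqAttrib.useBackward true

open CategoryTheory Limits MonoidalCategory Pretriangulated Triangulated

namespace Pool.Agent.N209.MT

open Pool.Agent.Y116.MT

universe v u w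

open Functor.LaxMonoidal

section Coh

variable {C : Type u} [Category.{v} C] [MonoidalCategory C]

lemma gT_tensor {W : C} (γ : 𝟙_ C ⟶ W) (X Y : C) :
    gT γ (X ⊗ Y) = (gT γ X ▷ Y) ≫ (α_ W X Y).hom := by
  simp only [gT, comp_whiskerRight, Category.assoc]
  rw [associator_naturality_left]
  simp

lemma gT_comp {W W' : C} (γ : 𝟙_ C ⟶ W) (a : W ⟶ W') (X : C) :
    gT (γ ≫ a) X = gT γ X ≫ (a ▷ X) := by
  simp [gT]

lemma gT_unit {W : C} (γ : 𝟙_ C ⟶ W) : gT γ (𝟙_ C) = γ ≫ (ρ_ W).inv := by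
  simp [gT, unitors_inv_equal, ← rightUnitor_inv_naturality]

lemma gT_gT {W₁ W₂ : C} (γ₁ : 𝟙_ C ⟶ W₁) (γ₂ : 𝟙_ C ⟶ W₂) (X : C) :
    gT γ₁ X ≫ gT γ₂ (W₁ ⊗ X) = gT (γ₁ ≫ gT γ₂ W₁) X ≫ (α_ W₂ W₁ X).hom := by
  rw [gT_tensor, gT_comp, Category.assoc]

end Coh

section Dual

variable {C : Type u} [Category.{v} C] [MonoidalCategory C] [SymmetricCategory C]
  [RightRigidCategory C]

/-- The dual of a local retract is a local retract. -/
lemma dual_factor {X G W : C} {γ : 𝟙_ C ⟶ W} {a : X ⟶ G} {b : G ⟶ W ⊗ X} (h : gT γ X = a ≫ b) :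
    ∃ (a' : (Xᘁ : C) ⟶ W ⊗ (Gᘁ : C)) (b' : W ⊗ (Gᘁ : C) ⟶ W ⊗ (Xᘁ : C)),
      gT γ (Xᘁ : C) = a' ≫ b' := by
  let D : C := (Xᘁ : C)
  let D' : C := (Gᘁ : C)
  let β : D ⊗ G ⟶ W := (D ◁ b) ≫ (α_ D W X).inv ≫ ((β_ D W).hom ▷ X) ≫ (α_ W D X).hom ≫
    (W ◁ ε_ X D) ≫ (ρ_ W).hom
  let b₁ : D ⟶ W ⊗ D' := tensorRightHomEquiv D G D' W β
  let a₁ : D' ⟶ D := rightAdjointMate a
  have ha₁ : (a₁ ▷ X) ≫ ε_ X D = (D' ◁ a) ≫ ε_ G D' := rightAdjointMate_comp_evaluation a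
  refine ⟨b₁, W ◁ a₁, ?_⟩
  apply (tensorRightHomEquiv D X D W).symm.injective
  have h1 : (tensorRightHomEquiv D X D W).symm (gT γ D) = ε_ X D ≫ γ := by
    simp only [tensorRightHomEquiv, Equiv.coe_fn_symm_mk, gT, comp_whiskerRight, Category.assoc]
    rw [associator_naturality_left_assoc, ← whisker_exchange_assoc, rightUnitor_naturality]
    simp [← unitors_equal]
  have h2 : (tensorRightHomEquiv D X D W).symm (b₁ ≫ (W ◁ a₁)) = (D ◁ a) ≫ β := by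
    have h3 : (tensorRightHomEquiv D G D' W).symm b₁ = β := Equiv.symm_apply_apply _ _
    rw [← h3]
    simp only [tensorRightHomEquiv, Equiv.coe_fn_symm_mk, comp_whiskerRight, Category.assoc]
    rw [associator_naturality_middle_assoc, ← MonoidalCategory.whiskerLeft_comp_assoc, ha₁,
      whisker_exchange_assoc, MonoidalCategory.whiskerLeft_comp_assoc,
      associator_naturality_right_assoc]
  rw [h1, h2]
  simp only [β]
  rw [← MonoidalCategory.whiskerLeft_comp_assoc, ← h]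
  simp only [gT, MonoidalCategory.whiskerLeft_comp, Category.assoc]
  rw [associator_inv_naturality_middle_assoc, ← comp_whiskerRight_assoc,
    BraidedCategory.braiding_naturality_right, comp_whiskerRight_assoc,
    associator_naturality_left_assoc, ← whisker_exchange_assoc, rightUnitor_naturality]
  have h4 : (D ◁ (λ_ X).inv) ≫ (α_ D (𝟙_ C) X).inv ≫ ((β_ D (𝟙_ C)).hom ▷ X) ≫
      (α_ (𝟙_ C) D X).hom = (λ_ (D ⊗ X)).inv := by
    rw [braiding_tensorUnit_right]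
    simp
  rw [reassoc_of% h4, ← leftUnitor_inv_naturality_assoc]
  simp [← unitors_equal]

end Dual

section

variable {C : Type u} [Category.{v} C] [Preadditive C] [HasZeroObject C] [HasShift C ℤ]
  [∀ n : ℤ, (shiftFunctor C n).Additive] [Pretriangulated C] [MonoidalCategory C]
  [SymmetricCategory C] [TensorTriangulated C] [MonoidalPreadditive C] [RightRigidCategory C]
  {E : Type w} [Field E] {R : Realisation C E}

omit [MonoidalPreadditive C] [RightRigidCategory C] in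
/-- The map `X ⟶ W ⊗ X` given by `γ` is injective on cohomology. -/
lemma mono_gT {W : C} {γ : 𝟙_ C ⟶ W} (hW : R.Deg W 0) (hγ : R.H.map γ ≠ 0) (X : C) :
    Mono (R.H.map (gT γ X)) := by
  have h0 := mono_gamma hγ
  obtain ⟨r, hr⟩ : ∃ r : R.H.obj W ⟶ R.H.obj (𝟙_ C), R.H.map γ ≫ r = 𝟙 _ := by
    rw [ModuleCat.mono_iff_injective] at h0
    obtain ⟨r, hr⟩ := LinearMap.exists_leftInverse_of_injective (R.H.map γ).hom
      (LinearMap.ker_eq_bot.2 h0)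
    exact ⟨ModuleCat.ofHom r, ModuleCat.hom_ext hr⟩
  have h1 : (R.H.map γ ▷ R.H.obj X) ≫ (r ▷ R.H.obj X) = 𝟙 _ := by
    rw [← comp_whiskerRight, hr, MonoidalCategory.id_whiskerRight]
  have h2 : Mono (R.H.map γ ▷ R.H.obj X) := mono_of_mono_fac h1
  have h3 := hW.isIso_mu X
  have h4 : IsIso (μ R.H (𝟙_ C) X) := (deg_unit (R := R)).isIso_mu X
  have h5 : Mono (R.H.map (γ ▷ X)) := by
    have h6 : R.H.map (γ ▷ X) = inv (μ R.H (𝟙_ C) X) ≫ (R.H.map γ ▷ R.H.obj X) ≫ μ R.H W X := by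
      rw [IsIso.eq_inv_comp, μ_natural_left]
    rw [h6]
    infer_instance
  rw [gT, Functor.map_comp]
  infer_instance

omit [MonoidalPreadditive C] [RightRigidCategory C] in
lemma ne_zero_gT {W : C} {γ : 𝟙_ C ⟶ W} (hW : R.Deg W 0) (hγ : R.H.map γ ≠ 0) {Y X : C}
    {f : Y ⟶ X} (hf : R.H.map f ≠ 0) : R.H.map (f ≫ gT γ X) ≠ 0 := by
  intro h
  have := mono_gT hW hγ X
  apply hf
  rw [← cancel_mono (R.H.map (gT γ X)), ← Functor.map_comp, h, zero_comp]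

variable (R) in
/-- The local retracts of the objects in `P`. -/
def LR (P : ObjectProperty C) : ObjectProperty C := fun X =>
  ∃ (W G : C) (γ : 𝟙_ C ⟶ W) (a : X ⟶ G) (b : G ⟶ W ⊗ X),
    P W ∧ P G ∧ R.H.map γ ≠ 0 ∧ gT γ X = a ≫ b

namespace LR

variable {P : ObjectProperty C}

omit [MonoidalPreadditive C] [RightRigidCategory C] in
lemma of_iso {X Y : C} (e : X ≅ Y) (h : LR R P X) : LR R P Y := by
  obtain ⟨W, G, γ, a, b, hW, hG, hγ, h⟩ := h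
  refine ⟨W, G, γ, e.inv ≫ a, b ≫ (W ◁ e.hom), hW, hG, hγ, ?_⟩
  rw [Category.assoc, ← Category.assoc a, ← h, ← gT_nat, Iso.inv_hom_id_assoc]

variable (hf : FC R P)

include hf

lemma H_id_ne : R.H.map (𝟙 (𝟙_ C)) ≠ 0 := by
  intro h
  apply not_isZero_H_unit R
  rw [IsZero.iff_id_eq_zero, ← CategoryTheory.Functor.map_id, h]

lemma of_mem {X : C} (hX : P X) : LR R P X :=
  ⟨𝟙_ C, X, 𝟙 _, 𝟙 X, (λ_ X).inv, hf.unit, hX, H_id_ne hf, by simp [gT]⟩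

lemma of_isZero {X : C} (hX : IsZero X) : LR R P X :=
  ⟨𝟙_ C, 𝟙_ C, 𝟙 _, 0, 0, hf.unit, hf.unit, H_id_ne hf, hX.eq_of_src _ _⟩

lemma deg {X : C} (hX : LR R P X) : R.Deg X 0 := by
  obtain ⟨W, G, γ, a, b, hW, hG, hγ, h⟩ := hX
  exact deg_of_factor (hf.deg _ hW) hγ (hf.deg _ hG) h

lemma tensor_mem {X Y : C} (hX : LR R P X) (hY : P Y) : LR R P (X ⊗ Y) := by
  obtain ⟨W, G, γ, a, b, hW, hG, hγ, h⟩ := hX
  refine ⟨W, G ⊗ Y, γ, a ▷ Y, (b ▷ Y) ≫ (α_ W X Y).hom, hW, hf.tensor _ _ hG hY, hγ, ?_⟩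
  rw [gT_tensor, h, comp_whiskerRight, Category.assoc]

/-- Transitivity. -/
lemma trans {X V W : C} {γ : 𝟙_ C ⟶ W} {a : X ⟶ V} {b : V ⟶ W ⊗ X} (hW : LR R P W)
    (hV : LR R P V) (hγ : R.H.map γ ≠ 0) (h : gT γ X = a ≫ b) : LR R P X := by
  obtain ⟨W₃, G₃, γ₃, a₃, b₃, hW₃, hG₃, hγ₃, h₃⟩ := hW
  obtain ⟨W₂, G₂, γ₂, a₂, b₂, hW₂, hG₂, hγ₂, h₂⟩ := hV
  have h4 : R.H.map (γ ≫ a₃) ≠ 0 := by
    intro h5
    apply ne_zero_gT (hf.deg _ hW₃) hγ₃ hγ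
    rw [h₃, ← Category.assoc, Functor.map_comp, h5, zero_comp]
  have h5 : gT (γ ≫ a₃) X = a ≫ b ≫ (a₃ ▷ X) := by
    rw [gT_comp, h, Category.assoc]
  refine ⟨W₂ ⊗ G₃, G₂, (γ ≫ a₃) ≫ gT γ₂ G₃, a ≫ a₂,
    b₂ ≫ (W₂ ◁ (b ≫ (a₃ ▷ X))) ≫ (α_ W₂ G₃ X).inv, hf.tensor _ _ hW₂ hG₃, hG₂,
    ne_zero_gT (hf.deg _ hW₂) hγ₂ h4, ?_⟩
  have h6 := gT_gT (γ ≫ a₃) γ₂ X
  rw [← cancel_mono (α_ W₂ G₃ X).hom, ← h6, h5]
  simp only [Category.assoc, Iso.inv_hom_id, Category.comp_id]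
  rw [← Category.assoc a₂, ← h₂, ← gT_nat]
  simp only [Category.assoc]

lemma tensor {X Y : C} (hX : LR R P X) (hY : LR R P Y) : LR R P (X ⊗ Y) := by
  obtain ⟨W, G, γ, a, b, hW, hG, hγ, h⟩ := hX
  refine trans hf (W := W) (V := G ⊗ Y) (γ := γ) (a := a ▷ Y) (b := (b ▷ Y) ≫ (α_ W X Y).hom)
    (of_mem hf hW) ?_ hγ ?_
  · exact of_iso (β_ Y G) (tensor_mem hf hY hG)
  · rw [gT_tensor, h, comp_whiskerRight, Category.assoc]

lemma dual {X : C} (hX : LR R P X) : LR R P (Xᘁ : C) := by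
  obtain ⟨W, G, γ, a, b, hW, hG, hγ, h⟩ := hX
  obtain ⟨a', b', h'⟩ := dual_factor h
  exact ⟨W, W ⊗ (Gᘁ : C), γ, a', b', hW, hf.tensor _ _ hW (hf.dual _ hG), hγ, h'⟩

end LR

end

end Pool.Agent.N209.MT
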