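import Pool.Agent.N209.MT.LR

/-!
# Local retracts in a category with coproducts
-/

set_option autoImplicit false
set_option linter.unusedSectionVars false
set_option linter.unusedSimpArgs false
set_option backward.isDefEq.respectTransparency false
set_option backward.defeqAttrib.useBackward true

open CategoryTheory Limits MonoidalCategory Pretriangulated Triangulated

namespace Pool.Agent.N209.MT

open Pool.Agent.Y116.MT

universe w v u v' u'

open Functor.LaxMonoidal Functor.OplaxMonoidal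

section

variable {C : Type u} [Category.{v} C] [Preadditive C] [HasZeroObject C] [HasShift C ℤ]
  [∀ n : ℤ, (shiftFunctor C n).Additive] [Pretriangulated C] [MonoidalCategory C]
  [SymmetricCategory C] [TensorTriangulated C] [MonoidalPreadditive C]
  {E : Type w} [Field E] {R : Realisation C E}

/-- Multiplication with `γ` on a shift. -/
lemma gT_shift {W : C} (γ : 𝟙_ C ⟶ W) (X : C) (n : ℤ) :
    ∃ θ : (W ⊗ X)⟦n⟧ ⟶ W ⊗ X⟦n⟧, gT γ (X⟦n⟧) = (gT γ X)⟦n⟧' ≫ θ := by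
  let u : ∀ X : C, X⟦n⟧ ⟶ X⟦n⟧ := fun X =>
    (λ_ (X⟦n⟧)).inv ≫ (rShift (𝟙_ C) X n).hom ≫ ((λ_ X).hom)⟦n⟧'
  have hu : ∀ {X Y : C} (a : X ⟶ Y), a⟦n⟧' ≫ u Y = u X ≫ a⟦n⟧' := by
    intro X Y a
    simp only [u, Category.assoc]
    rw [leftUnitor_inv_naturality_assoc, ← Category.assoc (𝟙_ C ◁ _), rShift_natural_right,
      Category.assoc, ← Functor.map_comp, leftUnitor_naturality, Functor.map_comp]
  have hγs : gT γ (X⟦n⟧) ≫ (rShift W X n).hom = u X ≫ (gT γ X)⟦n⟧' := by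
    simp only [gT, Category.assoc, u]
    rw [rShift_natural_left, ← Functor.map_comp, Iso.hom_inv_id_assoc]
  refine ⟨u (W ⊗ X) ≫ (rShift W X n).inv, ?_⟩
  rw [← Category.assoc, hu, ← hγs, Category.assoc, Iso.hom_inv_id, Category.comp_id]

lemma factor_shift {W X G : C} {γ : 𝟙_ C ⟶ W} {a : X ⟶ G} {b : G ⟶ W ⊗ X}
    (h : gT γ X = a ≫ b) (n : ℤ) : ∃ b' : G⟦n⟧ ⟶ W ⊗ X⟦n⟧, gT γ (X⟦n⟧) = a⟦n⟧' ≫ b' := by
  obtain ⟨θ, hθ⟩ := gT_shift γ X n
  refine ⟨b⟦n⟧' ≫ θ, ?_⟩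
  rw [hθ, h, Functor.map_comp, Category.assoc]

/-- A morphism which induces isomorphisms in all degrees is an isomorphism if the realisation is
conservative. -/
lemma isIso_of_conservative
    (hR : ∀ X : C, (∀ i : ℤ, IsZero (R.H.obj (X⟦i⟧))) → IsZero X) {X Y : C} (f : X ⟶ Y)
    (h : ∀ i : ℤ, IsIso (R.H.map (f⟦i⟧'))) : IsIso f := by
  obtain ⟨Z, g, d, hT⟩ := distinguished_cocone_triangle f
  refine isIso1_of_isZero3 hT (hR Z fun i => ?_)
  refine hmid R.H (rotD hT) i ?_ ?_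
  · have h1 := h i
    rw [← cancel_epi (R.H.map (f⟦i⟧')), comp_zero, ← Functor.map_comp, ← Functor.map_comp,
      comp12 hT, Functor.map_zero, Functor.map_zero]
  · have h1 : IsIso (R.H.map ((f⟦(1 : ℤ)⟧')⟦i⟧')) := by
      have h2 := h (1 + i)
      have h3 : R.H.map ((f⟦(1 : ℤ)⟧')⟦i⟧') =
          R.H.map ((shiftFunctorAdd C (1 : ℤ) i).inv.app X) ≫ R.H.map (f⟦1 + i⟧') ≫
            R.H.map ((shiftFunctorAdd C (1 : ℤ) i).hom.app Y) := by
        rw [← Functor.map_comp, ← Functor.map_comp,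
          (shiftFunctorAdd C (1 : ℤ) i).hom.naturality f, Iso.inv_hom_id_app_assoc]
        rfl
      rw [h3]
      infer_instance
    rw [← cancel_mono (R.H.map ((f⟦(1 : ℤ)⟧')⟦i⟧')), zero_comp, ← Functor.map_comp,
      ← Functor.map_comp, comp31 hT, Functor.map_zero, Functor.map_zero]

/-- Nilpotence from conservativity. -/
theorem nalt_of_conservative [RightRigidCategory C] [Linear ℚ C]
    (hR : ∀ X : C, (∀ i : ℤ, IsZero (R.H.obj (X⟦i⟧))) → IsZero X) {Z : C} (hZ : R.Deg Z 0) :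
    ∃ n : ℕ, IsIso (nalt (𝟙_ C) Z n) := by
  refine ⟨Module.finrank E (R.H.obj Z) + 1, ?_⟩
  have h0 := fun n => pw_deg hZ n
  have h1 := kap_iso h0 (Module.finrank E (R.H.obj Z) + 1)
  have h2 : R.H.map (alt (𝟙_ C) Z (Module.finrank E (R.H.obj Z) + 1)) = 0 := by
    rw [← cancel_epi (kap R.H (𝟙_ C) Z (Module.finrank E (R.H.obj Z) + 1)), ← alt_lax,
      alt_vec_zero _ _ _ (Nat.lt_succ_self _), zero_comp, comp_zero]
  generalize Module.finrank E (R.H.obj Z) + 1 = n at h2 ⊢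
  have h3 : IsIso ((n.factorial : ℤ) • 𝟙 (pw (𝟙_ C) Z n)) := by
    refine ⟨((n.factorial : ℚ)⁻¹) • 𝟙 _, ?_, ?_⟩
    · rw [Linear.comp_smul, Category.comp_id, ← Int.cast_smul_eq_zsmul ℚ, smul_smul,
        Int.cast_natCast, inv_mul_cancel₀ (by exact_mod_cast Nat.factorial_ne_zero n), one_smul]
    · rw [Linear.smul_comp, Category.id_comp, ← Int.cast_smul_eq_zsmul ℚ, smul_smul,
        Int.cast_natCast, inv_mul_cancel₀ (by exact_mod_cast Nat.factorial_ne_zero n), one_smul]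
  apply isIso_of_conservative hR
  intro i
  by_cases hi : i = 0
  · subst hi
    have h4 : R.H.map (nalt (𝟙_ C) Z n) = R.H.map ((n.factorial : ℤ) • 𝟙 (pw (𝟙_ C) Z n)) := by
      rw [nalt, Functor.map_sub, h2, sub_zero]
    have h5 : IsIso (R.H.map (nalt (𝟙_ C) Z n)) := by
      rw [h4]
      infer_instance
    have h6 : R.H.map ((nalt (𝟙_ C) Z n)⟦(0 : ℤ)⟧') =
        R.H.map ((shiftFunctorZero C ℤ).hom.app _) ≫ R.H.map (nalt (𝟙_ C) Z n) ≫
          R.H.map ((shiftFunctorZero C ℤ).inv.app _) := by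
      rw [← Functor.map_comp, ← Functor.map_comp]
      congr 1
      have h7 := (shiftFunctorZero C ℤ).hom.naturality (nalt (𝟙_ C) Z n)
      rw [← cancel_mono ((shiftFunctorZero C ℤ).hom.app _), h7]
      simp
    rw [h6]
    infer_instance
  · have h7 := h0 n i hi
    exact ⟨0, h7.eq_of_src _ _, h7.eq_of_src _ _⟩

end

section

variable {C : Type u} [Category.{v} C] [Preadditive C] [HasZeroObject C] [HasShift C ℤ]
  [∀ n : ℤ, (shiftFunctor C n).Additive] [Pretriangulated C] [MonoidalCategory C]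
  [SymmetricCategory C] [TensorTriangulated C] [MonoidalPreadditive C] [RightRigidCategory C]
  {E : Type w} [Field E] {R : Realisation C E}
  {T : Type u'} [Category.{v'} T] [Preadditive T] [HasZeroObject T] [HasShift T ℤ]
  [∀ n : ℤ, (shiftFunctor T n).Additive] [Pretriangulated T] [IsTriangulated T]
  [MonoidalCategory T] [SymmetricCategory T] [TensorTriangulated T] [MonoidalPreadditive T]
  (ι : C ⥤ T) [ι.Full] [ι.Faithful] [ι.Braided] [ι.CommShift ℤ] [ι.IsTriangulated]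

/-- The objects `V` of `T` without morphisms from the objects of `P` in degrees `< k`. -/
def PPerp (P : ObjectProperty C) (k : ℤ) (V : T) : Prop :=
  ∀ (G : C) (a : ℤ), a < k → P (G⟦a⟧) → ∀ f : ι.obj G ⟶ V, f = 0

variable {ι} {P : ObjectProperty C}

omit [IsTriangulated T] [MonoidalCategory T] [SymmetricCategory T] [TensorTriangulated T]
  [MonoidalPreadditive T] [ι.Full] [ι.Faithful] [ι.Braided] [ι.IsTriangulated]
  [MonoidalCategory C] [SymmetricCategory C] [TensorTriangulated C] [MonoidalPreadditive C]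
  [RightRigidCategory C] in
lemma PPerp.mono {k k' : ℤ} (h : k' ≤ k) {V : T} (hV : PPerp ι P k V) : PPerp ι P k' V :=
  fun G a ha hG f => hV G a (by omega) hG f

omit [IsTriangulated T] [MonoidalCategory T] [SymmetricCategory T] [TensorTriangulated T]
  [MonoidalPreadditive T] [ι.Full] [ι.Faithful] [ι.Braided] [ι.IsTriangulated]
  [MonoidalCategory C] [SymmetricCategory C] [TensorTriangulated C] [MonoidalPreadditive C]
  [RightRigidCategory C] in
lemma PPerp.of_iso {k : ℤ} {V V' : T} (e : V ≅ V') (hV : PPerp ι P k V) : PPerp ι P k V' := by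
  intro G a ha hG f
  rw [← cancel_mono e.inv, zero_comp]
  exact hV G a ha hG _

omit [IsTriangulated T] [MonoidalCategory T] [SymmetricCategory T] [TensorTriangulated T]
  [MonoidalPreadditive T] [ι.Full] [ι.Faithful] [ι.Braided] [ι.IsTriangulated]
  [MonoidalCategory C] [SymmetricCategory C] [TensorTriangulated C] [MonoidalPreadditive C]
  [RightRigidCategory C] in
lemma PPerp.shift (hP : P.IsClosedUnderIsomorphisms) {V : T} (hV : PPerp ι P 0 V) :
    PPerp ι P 1 (V⟦(-1 : ℤ)⟧) := by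
  intro G a ha hG f
  apply (shiftFunctor T (1 : ℤ)).map_injective
  rw [Functor.map_zero]
  have h1 := hV (G⟦(1 : ℤ)⟧) (a - 1) (by omega)
    (P.prop_of_iso ((shiftFunctorAdd' C 1 (a - 1) a (by omega)).app G) hG)
    ((ι.commShiftIso (1 : ℤ)).hom.app G ≫ f⟦(1 : ℤ)⟧' ≫
      (shiftFunctorCompIsoId T (-1 : ℤ) 1 (by omega)).hom.app V)
  rw [← cancel_epi ((ι.commShiftIso (1 : ℤ)).hom.app G),
    ← cancel_mono ((shiftFunctorCompIsoId T (-1 : ℤ) 1 (by omega)).hom.app V)]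
  simpa using h1

variable (hf : FC R P)

include hf

lemma FC.perp_obj {X : C} (hX : P X) (n k : ℤ) (hk : k + n ≤ 0) : PPerp ι P k (ι.obj (X⟦n⟧)) := by
  intro G a ha hG f
  obtain ⟨f', rfl⟩ := ι.map_surjective f
  have h1 : f' = 0 := by
    apply (shiftFunctor C a).map_injective
    rw [Functor.map_zero]
    rw [← cancel_mono ((shiftFunctorAdd' C n a (n + a) (by omega)).inv.app X), zero_comp]
    exact hf.neg_vanish hG hX (by omega) _
  rw [h1, Functor.map_zero]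

lemma FC.perp_obj0 {X : C} (hX : P X) : PPerp ι P 0 (ι.obj X) :=
  PPerp.of_iso (ι.mapIso ((shiftFunctorZero C ℤ).app X)) (hf.perp_obj hX 0 0 (by omega))

lemma FC.perp_tensor {k : ℤ} {V : T} (hV : PPerp ι P k V) {W : C} (hW : P W) :
    PPerp ι P k (ι.obj W ⊗ V) := by
  intro G a ha hG f
  let _ : ExactPairing (ι.obj W) (ι.obj Wᘁ) := mapPairing ι W Wᘁ
  have h1 : (tensorLeftHomEquiv (ι.obj G) (ι.obj W) (ι.obj Wᘁ) V).symm f = 0 := by
    rw [← cancel_epi (Functor.OplaxMonoidal.δ ι (Wᘁ : C) G), comp_zero]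
    have := hf.iso
    exact hV (Wᘁ ⊗ G) a ha (P.prop_of_iso (rShift (Wᘁ : C) G a)
      (hf.tensor _ _ (hf.dual _ hW) hG)) _
  have h2 := (tensorLeftHomEquiv (ι.obj G) (ι.obj W) (ι.obj Wᘁ) V).apply_symm_apply f
  rw [h1] at h2
  rw [← h2]
  simp [tensorLeftHomEquiv]

omit hf in
variable (ι) in
/-- If `γ` acts as zero on `U` then `U` is zero. -/
lemma zero_of_gT (hnil : ∀ Z : C, R.Deg Z 0 → ∃ n, IsIso (nalt (𝟙_ C) Z n)) {W : C}
    {γ : 𝟙_ C ⟶ W} (hW : R.Deg W 0) (hγ : R.H.map γ ≠ 0) :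
    ∃ (ZW : C) (N : ℕ) (pW : ι.obj W ⟶ ι.obj ZW) (δ : ι.obj ZW ⟶ (𝟙_ T)⟦(1 : ℤ)⟧),
      Triangle.mk (Functor.LaxMonoidal.ε ι ≫ ι.map γ) pW δ ∈ distTriang T ∧
      IsIso (nalt (𝟙_ T) (ι.obj ZW) N) := by
  obtain ⟨ZW, pW, dW, hTW⟩ := distinguished_cocone_triangle γ
  have hZW : R.Deg ZW 0 := deg_cone_gamma hW hγ hTW
  obtain ⟨N, hN⟩ := hnil ZW hZW
  have hadd : ι.Additive := inferInstance
  refine ⟨ZW, N, ι.map pW, ι.map dW ≫ (ι.commShiftIso (1 : ℤ)).hom.app _ ≫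
      (Functor.OplaxMonoidal.η ι)⟦(1 : ℤ)⟧', ?_, ?_⟩
  · have h1 := ι.map_distinguished _ hTW
    refine isomorphic_distinguished _ h1 _ ?_
    refine Triangle.isoMk _ _ (Functor.Monoidal.εIso ι) (Iso.refl _) (Iso.refl _) ?_ ?_ ?_
    · simp
    · simp
    · simp [← Functor.map_comp]
  · have h1 : ∀ n, IsIso (kap ι (𝟙_ C) ZW n) := by
      intro n
      induction n with
      | zero => simp only [kap]; infer_instance
      | succ n ih => simp only [kap]; infer_instance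
    have h2 : IsIso (nalt (ι.obj (𝟙_ C)) (ι.obj ZW) N) := by
      have := h1 N
      have h3 : nalt (ι.obj (𝟙_ C)) (ι.obj ZW) N ≫ kap ι (𝟙_ C) ZW N =
          kap ι (𝟙_ C) ZW N ≫ ι.map (nalt (𝟙_ C) ZW N) := by
        simp only [nalt, Preadditive.sub_comp, Functor.map_sub, Preadditive.comp_sub, alt_lax,
          Functor.map_zsmul, CategoryTheory.Functor.map_id, Preadditive.zsmul_comp,
          Preadditive.comp_zsmul, Category.id_comp, Category.comp_id]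
      have h4 : IsIso (nalt (ι.obj (𝟙_ C)) (ι.obj ZW) N ≫ kap ι (𝟙_ C) ZW N) := by
        rw [h3]
        infer_instance
      exact IsIso.of_isIso_comp_right _ (kap ι (𝟙_ C) ZW N)
    exact isIso_nalt_iso (Functor.Monoidal.εIso ι).symm h2

omit hf in
lemma isZero_of_gT (hnil : ∀ Z : C, R.Deg Z 0 → ∃ n, IsIso (nalt (𝟙_ C) Z n)) {W : C}
    {γ : 𝟙_ C ⟶ W} (hW : R.Deg W 0) (hγ : R.H.map γ ≠ 0) {U : T}
    (hU : gT (Functor.LaxMonoidal.ε ι ≫ ι.map γ) U = 0) : IsZero U := by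
  obtain ⟨ZW, N, pW, δ, hT, hN⟩ := zero_of_gT ι hnil hW hγ
  exact zero_of_gamma hT hN hU

omit [ι.Full] [ι.Faithful] [ι.Braided] [ι.CommShift ℤ] [ι.IsTriangulated] hf [MonoidalCategory C]
  [SymmetricCategory C] [TensorTriangulated C] [MonoidalPreadditive C] [RightRigidCategory C] in
/-- Cancellation. -/
lemma eq_zero_of_comp_whisker {A X Y Z K : T} {f : X ⟶ Y} {g : Y ⟶ Z} {h : Z ⟶ X⟦(1 : ℤ)⟧}
    (hT : Triangle.mk f g h ∈ distTriang T) (hK : ∀ k : K⟦(1 : ℤ)⟧ ⟶ A ⊗ Z, k = 0)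
    {x : K ⟶ A ⊗ X} (hx : x ≫ (A ◁ f) = 0) : x = 0 := by
  apply (shiftFunctor T (1 : ℤ)).map_injective
  rw [Functor.map_zero]
  obtain ⟨k, hk⟩ := ce1 (tensor_dist A hT) (x⟦(1 : ℤ)⟧')
    (by rw [← Functor.map_comp, hx, Functor.map_zero])
  rw [hk, hK k, zero_comp]

omit [IsTriangulated T] [MonoidalCategory T] [SymmetricCategory T] [TensorTriangulated T]
  [MonoidalPreadditive T] [ι.Full] [ι.Faithful] [ι.Braided] [ι.IsTriangulated] in
lemma FC.shift_perp {K : T} (hK : ∀ V : T, PPerp ι P 1 V → ∀ x : K ⟶ V, x = 0) {V : T}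
    (hV : PPerp ι P 0 V) (x : K⟦(1 : ℤ)⟧ ⟶ V) : x = 0 := by
  have h1 := hK _ (hV.shift hf.iso)
    ((shiftFunctorCompIsoId T (1 : ℤ) (-1) (by omega)).inv.app K ≫ x⟦(-1 : ℤ)⟧')
  have h2 : x⟦(-1 : ℤ)⟧' = 0 := by
    rw [← cancel_epi ((shiftFunctorCompIsoId T (1 : ℤ) (-1) (by omega)).inv.app K), h1,
      comp_zero]
  apply (shiftFunctor T (-1 : ℤ)).map_injective
  rw [h2, Functor.map_zero]

variable [HasCoproducts.{max u v'} T] (hc : ∀ X : C, IsCompactObj.{max u v'} (ι.obj X))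

include hc

omit hf [MonoidalCategory C] [SymmetricCategory C] [TensorTriangulated C] [MonoidalPreadditive C]
  [RightRigidCategory C] [IsTriangulated T] [MonoidalCategory T] [SymmetricCategory T]
  [TensorTriangulated T] [MonoidalPreadditive T] [ι.Full] [ι.Faithful] [ι.Braided]
  [ι.IsTriangulated] [ι.CommShift ℤ] in
variable (P) in
lemma trunc_perp (k : ℤ) (Z : T) :
    ∃ (U Q : T) (a : U ⟶ Z) (b : Z ⟶ Q) (d : Q ⟶ U⟦(1 : ℤ)⟧),
      Triangle.mk a b d ∈ distTriang T ∧ PPerp ι P k Q ∧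
      ∀ V : T, PPerp ι P k V → ∀ g : U ⟶ V, g = 0 := by
  let I := {G : C // ∃ a : ℤ, a < k ∧ P (G⟦a⟧)}
  obtain ⟨U', Q', a, b, dd, hT', hQ', hU'⟩ := trunc_exists (fun i : I => ι.obj i.1)
    (fun i => hc i.1) Z
  exact ⟨U', Q', a, b, dd, hT', fun G n hn hG f => hQ' ⟨G, n, hn, hG⟩ f, fun V hV x =>
    hU' V (fun i f => by obtain ⟨G, n, hn, hG⟩ := i; exact hV G n hn hG f) x⟩

include hf

/-- A local retract of an object in degrees `≥ 0` is in degrees `≥ 0`. -/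
theorem FC.local_perp (hnil : ∀ Z : C, R.Deg Z 0 → ∃ n, IsIso (nalt (𝟙_ C) Z n)) {W : C}
    (hW : P W) {γ : 𝟙_ C ⟶ W} (hγ : R.H.map γ ≠ 0) {X V : T} (hV : PPerp ι P 0 V)
    {a : X ⟶ V} {b : V ⟶ ι.obj W ⊗ X}
    (h : gT (Functor.LaxMonoidal.ε ι ≫ ι.map γ) X = a ≫ b) : PPerp ι P 0 X := by
  obtain ⟨U, Q, u, q, d, hT, hQ, hU⟩ := trunc_perp P hc 0 X
  have h1 : gT (Functor.LaxMonoidal.ε ι ≫ ι.map γ) U = 0 := by
    refine eq_zero_of_comp_whisker hT (fun k => ?_) (A := ι.obj W) ?_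
    · exact hf.shift_perp (fun V hV x => hU V (hV.mono (by omega)) x) (hf.perp_tensor hQ hW) k
    · rw [← gT_nat, h, ← Category.assoc, hU V hV (u ≫ a), zero_comp]
  have h2 : IsZero U := isZero_of_gT hnil (hf.deg _ hW) hγ h1
  have h3 : IsIso q := isIso2_of_isZero1 hT h2
  exact PPerp.of_iso (asIso q).symm hQ

/-- Multiplication with `γ` is injective on objects in degrees `≥ 0`. -/
theorem FC.inj_gT (hnil : ∀ Z : C, R.Deg Z 0 → ∃ n, IsIso (nalt (𝟙_ C) Z n)) {W : C}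
    (hW : P W) {γ : 𝟙_ C ⟶ W} (hγ : R.H.map γ ≠ 0) {V : T} (hV : PPerp ι P 0 V)
    {s : ι.obj (𝟙_ C) ⟶ V}
    (h : s ≫ gT (Functor.LaxMonoidal.ε ι ≫ ι.map γ) V = 0) : s = 0 := by
  have := hf.iso
  obtain ⟨F, j, e, hF⟩ := distinguished_cocone_triangle₁
    (gT (Functor.LaxMonoidal.ε ι ≫ ι.map γ) V)
  obtain ⟨s', rfl⟩ := ce2 hF s h
  obtain ⟨K, L, i, l, d, hT, hL, hK⟩ := trunc_perp P hc 1 F
  have h1 : s' ≫ l = 0 := hL (𝟙_ C) 0 (by omega)
    (P.prop_of_iso ((shiftFunctorZero C ℤ).app _).symm hf.unit) _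
  obtain ⟨s'', rfl⟩ := ce2 hT s' h1
  have hWV : PPerp ι P 0 (ι.obj W ⊗ V) := hf.perp_tensor hV hW
  have h2 : gT (Functor.LaxMonoidal.ε ι ≫ ι.map γ) K ≫ (ι.obj W ◁ i) = 0 := by
    refine eq_zero_of_comp_whisker hF (fun k => ?_) (A := ι.obj W) ?_
    · exact hf.shift_perp hK (hf.perp_tensor hWV hW) k
    · rw [Category.assoc, ← MonoidalCategory.whiskerLeft_comp, ← gT_nat, Category.assoc,
        comp12 hF, comp_zero]
  have h3 : gT (Functor.LaxMonoidal.ε ι ≫ ι.map γ) K = 0 := by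
    refine eq_zero_of_comp_whisker hT (fun k => ?_) (A := ι.obj W) h2
    exact hf.shift_perp hK (hf.perp_tensor (hL.mono (by omega)) hW) k
  have h4 : IsZero K := isZero_of_gT hnil (hf.deg _ hW) hγ h3
  rw [h4.eq_of_tgt s'' 0, zero_comp, zero_comp]

/-- The local retracts are again a tensor class on which the realisation is faithful in degrees
`≤ 0`. -/
theorem FC.lr (hnil : ∀ Z : C, R.Deg Z 0 → ∃ n, IsIso (nalt (𝟙_ C) Z n)) : FC R (LR R P) where
  iso := ⟨fun e h => LR.of_iso e h⟩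
  deg _ hX := LR.deg hf hX
  unit := LR.of_mem hf hf.unit
  tensor _ _ hX hY := LR.tensor hf hX hY
  dual _ hX := LR.dual hf hX
  faithful X hX n hn s hs := by
    obtain ⟨W, G, γ, a, b, hW, hG, hγ, h⟩ := hX
    obtain ⟨b', h'⟩ := factor_shift h n
    have h1 : s ≫ a⟦n⟧' = 0 := hf.faithful _ hG n hn _ (by
      rw [Functor.map_comp, hs, zero_comp])
    have h2 : s ≫ gT γ (X⟦n⟧) = 0 := by rw [h', ← Category.assoc, h1, zero_comp]
    have h3 : gT (Functor.LaxMonoidal.ε ι ≫ ι.map γ) (ι.obj (X⟦n⟧)) =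
        ι.map (a⟦n⟧') ≫ (ι.map b' ≫ Functor.OplaxMonoidal.δ ι W (X⟦n⟧)) := by
      rw [← Category.assoc, ← Functor.map_comp, ← h', ← gT_map, Category.assoc,
        Functor.Monoidal.μ_δ, Category.comp_id]
    have h4 : PPerp ι P 0 (ι.obj (X⟦n⟧)) :=
      hf.local_perp hc hnil hW hγ (hf.perp_obj hG n 0 (by omega)) h3
    apply ι.map_injective
    rw [Functor.map_zero]
    refine hf.inj_gT hc hnil hW hγ h4 ?_
    have h5 : gT (Functor.LaxMonoidal.ε ι ≫ ι.map γ) (ι.obj (X⟦n⟧)) =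
        ι.map (gT γ (X⟦n⟧)) ≫ Functor.OplaxMonoidal.δ ι W (X⟦n⟧) := by
      rw [← gT_map, Category.assoc, Functor.Monoidal.μ_δ, Category.comp_id]
    rw [h5, ← Category.assoc, ← Functor.map_comp, h2, Functor.map_zero, zero_comp]

end

end Pool.Agent.N209.MT
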