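import Pool.Agent.N209.MT.Emb

/-!
# Nilpotence from a conservative realisation
-/

set_option autoImplicit false
set_option linter.unusedSectionVars false
set_option linter.unusedSimpArgs false
set_option backward.isDefEq.respectTransparency false
set_option backward.defeqAttrib.useBackward true

open CategoryTheory Limits MonoidalCategory Pretriangulated Triangulated

namespace Pool.Agent.N209.MT

open Pool.Agent.Y116.MT

universe w v u v' u'

open Functor.LaxMonoidal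

section

variable {C : Type u} [Category.{v} C] [MonoidalCategory C] [SymmetricCategory C]
  [Preadditive C] [MonoidalPreadditive C]

/-- `n! - alt` on the power of `X`. -/
def nalt (X Z : C) (n : ℕ) : pw X Z n ⟶ pw X Z n :=
  (n.factorial : ℤ) • 𝟙 _ - alt X Z n

lemma nalt_first {X X' : C} (w : X ⟶ X') (Z : C) (n : ℕ) :
    nalt X Z n ≫ pwMap w Z n = pwMap w Z n ≫ nalt X' Z n := by
  simp only [nalt, Preadditive.sub_comp, Preadditive.comp_sub, alt_first, Preadditive.zsmul_comp,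
    Preadditive.comp_zsmul, Category.id_comp, Category.comp_id]

lemma nalt_kp (U X Z : C) (n : ℕ) :
    (U ◁ nalt X Z n) ≫ (kp U X Z n).hom = (kp U X Z n).hom ≫ nalt (U ⊗ X) Z n := by
  have h1 : U ◁ nalt X Z n = (n.factorial : ℤ) • 𝟙 _ - U ◁ alt X Z n := by
    change (tensorLeft U).map _ = _
    rw [nalt, Functor.map_sub, Functor.map_zsmul, CategoryTheory.Functor.map_id]
    rfl
  rw [h1]
  simp only [nalt, Preadditive.sub_comp, Preadditive.comp_sub, alt_kp, Preadditive.zsmul_comp,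
    Preadditive.comp_zsmul, Category.id_comp, Category.comp_id]

lemma isIso_nalt_iso {X X' : C} (w : X ≅ X') {Z : C} {n : ℕ} (h : IsIso (nalt X Z n)) :
    IsIso (nalt X' Z n) := by
  have h1 : pwMap w.hom Z n ≫ pwMap w.inv Z n = 𝟙 _ := by
    rw [← pwMap_comp, w.hom_inv_id, pwMap_id]
  have h2 : pwMap w.inv Z n ≫ pwMap w.hom Z n = 𝟙 _ := by
    rw [← pwMap_comp, w.inv_hom_id, pwMap_id]
  have h3 : IsIso (pwMap w.hom Z n) := ⟨_, h1, h2⟩
  have h4 : IsIso (pwMap w.hom Z n ≫ nalt X' Z n) := by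
    rw [← nalt_first]
    infer_instance
  exact IsIso.of_isIso_comp_left (pwMap w.hom Z n) _

lemma isIso_nalt_unit (U : C) {Z : C} {n : ℕ} (h : IsIso (nalt (𝟙_ C) Z n)) :
    IsIso (nalt U Z n) := by
  have h1 : IsIso (nalt (U ⊗ 𝟙_ C) Z n) := by
    have h2 : IsIso ((kp U (𝟙_ C) Z n).hom ≫ nalt (U ⊗ 𝟙_ C) Z n) := by
      rw [← nalt_kp]
      infer_instance
    exact IsIso.of_isIso_comp_left (kp U (𝟙_ C) Z n).hom _
  exact isIso_nalt_iso (ρ_ U) h1

end

section

variable {C : Type u} [Category.{v} C] [Preadditive C] [HasZeroObject C] [HasShift C ℤ]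
  [∀ n : ℤ, (shiftFunctor C n).Additive] [Pretriangulated C] [MonoidalCategory C]
  [SymmetricCategory C] [TensorTriangulated C] [MonoidalPreadditive C]

/-- The powers of `δ` vanish on every object. -/
lemma gN_zero_of_nalt {Z : C} (δ : Z ⟶ (𝟙_ C)⟦(1 : ℤ)⟧) {n : ℕ} (h : IsIso (nalt (𝟙_ C) Z n))
    {X T : C} (f : X ⟶ T) : gN δ f n = 0 := by
  have h1 := isIso_nalt_unit X h
  rw [← cancel_epi (nalt X Z n), comp_zero, nalt, Preadditive.sub_comp, alt_gN,
    Preadditive.zsmul_comp, Category.id_comp, sub_self]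

variable [IsTriangulated C] {P : ObjectProperty C} [P.IsTriangulated]

/-- Descent, with a nilpotent `δ`. -/
theorem fac_id' {W Z : C} {γ : 𝟙_ C ⟶ W} {p : W ⟶ Z} {δ : Z ⟶ (𝟙_ C)⟦(1 : ℤ)⟧}
    (hT : Triangle.mk γ p δ ∈ distTriang C) {N : ℕ}
    (hN : IsIso (nalt (𝟙_ C) Z N))
    (hPZ : ∀ c, P c → P (c ⊗ Z)) {U : C} (hU : Fac P ((ρ_ U).inv ≫ U ◁ γ)) :
    Fac P (𝟙 U) := by
  have h1 : ∀ n, Fac P ((pw U Z n) ◁ γ) := by
    intro n
    have h2 := theta_natural U Z γ n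
    have h3 : (pw U Z n) ◁ γ = (ρ_ (pw U Z n)).hom ≫ pwMap ((ρ_ U).inv ≫ U ◁ γ) Z n ≫
        (theta U Z W n).inv := by
      rw [← h2]
      simp
    rw [h3]
    exact ((fac_pwMap Z hPZ hU n).comp_right _).comp_left _
  have h2 : ∀ n, Fac P (gN δ (𝟙 U) (n + 1)) → Fac P (gN δ (𝟙 U) n) := by
    intro n hn
    have hTn := tensor_dist (pw U Z n) hT
    obtain ⟨Y', s, hs, h0⟩ := (fac_iff _).1 ((h1 n).shift 1)
    obtain ⟨k, hk⟩ := ce1 hTn s h0
    have h3 : s ≫ ((ρ_ (pw U Z n)).hom ≫ gN δ (𝟙 U) n)⟦(1 : ℤ)⟧' = k ≫ gN δ (𝟙 U) (n + 1) := by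
      rw [hk]
      simp only [gN, gstar, Category.assoc]
    have h4 := (fac_of_trW hs (h3 ▸ hn.comp_left k)).unshift 1
    have h5 := h4.comp_left (ρ_ (pw U Z n)).inv
    rwa [Iso.inv_hom_id_assoc] at h5
  have h3 : ∀ n, Fac P (gN δ (𝟙 U) n) → Fac P (𝟙 U) := by
    intro n
    induction n with
    | zero => exact id
    | succ n ih => exact fun h => ih (h2 n h)
  apply h3 N
  rw [gN_zero_of_nalt δ hN]
  obtain ⟨c, hc0, hc⟩ := P.exists_prop_of_containsZero
  exact ⟨c, hc, 0, 0, by simp⟩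

omit [TensorTriangulated C] [MonoidalPreadditive C] [SymmetricCategory C] [MonoidalCategory C]
  [P.IsTriangulated] in
variable (C) in
/-- The zero objects form a triangulated subcategory. -/
lemma isTriangulated_zero : ObjectProperty.IsTriangulated (fun X : C => IsZero X) where
  exists_zero := ⟨_, isZero_zero C, isZero_zero C⟩
  isStableUnderShiftBy n := ⟨fun X hX => (shiftFunctor C n).map_isZero hX⟩
  ext₂' T hT h1 h3 := ObjectProperty.le_isoClosure _ _
    (isZero2 (f := T.mor₁) (g := T.mor₂) (h := T.mor₃) hT h1 h3)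

/-- If `γ` acts as zero on `U` then `U` is zero. -/
theorem zero_of_gamma {W Z : C} {γ : 𝟙_ C ⟶ W} {p : W ⟶ Z} {δ : Z ⟶ (𝟙_ C)⟦(1 : ℤ)⟧}
    (hT : Triangle.mk γ p δ ∈ distTriang C) {N : ℕ}
    (hN : IsIso (nalt (𝟙_ C) Z N)) {U : C} (hU : (λ_ U).inv ≫ γ ▷ U = 0) : IsZero U := by
  have := isTriangulated_zero C
  have h1 : (ρ_ U).inv ≫ U ◁ γ = 0 := by
    have h2 : (ρ_ U).inv ≫ U ◁ γ = ((λ_ U).inv ≫ γ ▷ U) ≫ (β_ W U).hom := by
      rw [Category.assoc, BraidedCategory.braiding_naturality_left,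
        leftUnitor_inv_braiding_assoc]
    rw [h2, hU, zero_comp]
  obtain ⟨c, hc, a, b, hab⟩ := fac_id' (P := fun X : C => IsZero X) hT hN
    (fun c hc => (tensorRight Z).map_isZero hc)
    (U := U) ⟨_, isZero_zero C, 0, 0, by rw [h1, zero_comp]⟩
  rw [IsZero.iff_id_eq_zero, hab, hc.eq_of_tgt a 0, zero_comp]

end

end Pool.Agent.N209.MT
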